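import Pool.Agent.P8H1.PD.Alg
import Pool.Agent.N65.TK.Res
set_option autoImplicit false

/-!
The residues of `alpha` are zero modulo the relations.
-/

namespace Pool.Agent.P8H1.PD

open scoped WithZero
open Pool.Agent.N65.TK (Pt Kap red Red one_lt_val_pair val_pair_eq_one val_torsion Five)

section val

variable {L : Type*} [Field L] (v : Valuation L ℤᵐ⁰)

theorem red_mul (x y : v.valuationSubring) : red v (x * y) = red v x * red v y := by
  unfold red
  rw [map_mul]
  rfl

theorem red_one : red v 1 = 1 := by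
  unfold red
  rw [map_one]
  rfl

theorem red_sub (x y : v.valuationSubring) : red v (x - y) = red v x - red v y := by
  unfold red
  rw [map_sub]
  rfl

theorem red_ne_zero {y : v.valuationSubring} : red v y ≠ 0 ↔ v (y : L) = 1 := by
  have h0 : red v y ≠ 0 ↔ IsUnit y := IsLocalRing.residue_ne_zero_iff_isUnit y
  rw [h0]
  constructor
  · rintro ⟨w, hw⟩
    have h1 : v ((w : v.valuationSubring) : L) ≤ 1 :=
      (v.mem_valuationSubring_iff _).1 (w : v.valuationSubring).2
    have h2 : v (((w⁻¹ : (v.valuationSubring)ˣ) : v.valuationSubring) : L) ≤ 1 :=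
      (v.mem_valuationSubring_iff _).1 ((w⁻¹ : (v.valuationSubring)ˣ) : v.valuationSubring).2
    have h3 : v ((w : v.valuationSubring) : L) *
        v (((w⁻¹ : (v.valuationSubring)ˣ) : v.valuationSubring) : L) = 1 := by
      rw [← map_mul, ← v.map_one]
      congr 1
      have := congrArg (Subtype.val) (w.mul_inv)
      exact this
    rw [← hw]
    refine le_antisymm h1 ?_
    rw [← h3]
    exact mul_le_of_le_one_right' h2
  · intro h
    have hy : (y : L) ≠ 0 := by
      intro h'
      rw [h', map_zero] at h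
      exact zero_ne_one h
    have h1 : v ((y : L)⁻¹) ≤ 1 := by rw [map_inv₀, h, inv_one]
    refine IsUnit.of_mul_eq_one (⟨(y : L)⁻¹, (v.mem_valuationSubring_iff _).2 h1⟩) ?_
    ext
    exact mul_inv_cancel₀ hy

theorem od_mul (g h : Lˣ) : od v (g * h) = od v g + od v h := by
  unfold od
  rw [Units.val_mul, map_mul, WithZero.log_mul ((Valuation.ne_zero_iff v).2 g.ne_zero)
    ((Valuation.ne_zero_iff v).2 h.ne_zero)]
  ring

theorem val_od (g : Lˣ) : v (g : L) = WithZero.exp (-od v g) := by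
  unfold od
  rw [neg_neg, WithZero.exp_log ((Valuation.ne_zero_iff v).2 g.ne_zero)]

/-- the order as a homomorphism -/
noncomputable def odh : Lˣ →* Multiplicative ℤ where
  toFun g := Multiplicative.ofAdd (od v g)
  map_one' := by
    unfold od
    simp
  map_mul' g h := by
    rw [od_mul]
    rfl

theorem od_zpow (g : Lˣ) (n : ℤ) : od v (g ^ n) = n * od v g := by
  have h := map_zpow (odh v) g n
  have h2 : od v (g ^ n) = Multiplicative.toAdd (odh v g ^ n) := congrArg Multiplicative.toAdd h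
  rw [h2, toAdd_zpow, smul_eq_mul]
  rfl

theorem od_prod {ι : Type*} (s : Finset ι) (g : ι → Lˣ) :
    od v (∏ i ∈ s, g i) = ∑ i ∈ s, od v (g i) := by
  classical
  induction s using Finset.induction_on with
  | empty =>
    unfold od
    simp
  | insert i s hi ih => rw [Finset.prod_insert hi, Finset.sum_insert hi, od_mul, ih]

theorem od_eq_zero {g : Lˣ} : od v g = 0 ↔ v (g : L) = 1 := by
  rw [val_od]
  constructor
  · intro h
    rw [h, neg_zero, WithZero.exp_zero]
  · intro h
    rw [← WithZero.exp_zero] at h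
    have := WithZero.exp_injective h
    omega

variable {v} {π : Lˣ} (hπ : v (π : L) = WithZero.exp (-1))

include hπ

theorem od_pi : od v π = 1 := by
  unfold od
  rw [hπ, WithZero.log_exp, neg_neg]

theorem ub_spec (g : Lˣ) : ∃ x : v.valuationSubring, (x : L) = (g * π ^ (-od v g) : Lˣ) ∧
    red v x = (ub v π g : Kap v) := by
  have h1 : v ((g * π ^ (-od v g) : Lˣ) : L) = 1 := by
    rw [← od_eq_zero, od_mul, od_zpow, od_pi hπ]
    ring
  have h2 : ∃ (u : (Kap v)ˣ) (x : v.valuationSubring), (x : L) = (g * π ^ (-od v g) : Lˣ) ∧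
      red v x = (u : Kap v) := by
    have h3 : red v ⟨_, (v.mem_valuationSubring_iff _).2 h1.le⟩ ≠ 0 := (red_ne_zero v).2 h1
    exact ⟨Units.mk0 _ h3, ⟨_, (v.mem_valuationSubring_iff _).2 h1.le⟩, rfl, rfl⟩
  unfold ub
  rw [dif_pos h2]
  exact h2.choose_spec

theorem ub_unique {g : Lˣ} {u : (Kap v)ˣ} {x : v.valuationSubring}
    (hx : (x : L) = (g * π ^ (-od v g) : Lˣ)) (hu : red v x = (u : Kap v)) : ub v π g = u := by
  obtain ⟨y, hy, hy'⟩ := ub_spec hπ g
  ext1
  rw [← hy', ← hu]
  congr 1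
  ext
  rw [hx, hy]

theorem ub_mul (g h : Lˣ) : ub v π (g * h) = ub v π g * ub v π h := by
  obtain ⟨x, hx, hx'⟩ := ub_spec hπ g
  obtain ⟨y, hy, hy'⟩ := ub_spec hπ h
  refine ub_unique hπ (x := x * y) ?_ ?_
  · show (x : L) * (y : L) = _
    rw [hx, hy, ← Units.val_mul, od_mul, neg_add, zpow_add]
    congr 1
    rw [mul_mul_mul_comm]
  · rw [red_mul, hx', hy', Units.val_mul]

/-- the reduction as a homomorphism -/
noncomputable def ubh : Lˣ →* (Kap v)ˣ := MonoidHom.mk' (ub v π) (ub_mul hπ)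

theorem ub_of_red {g : Lˣ} {u : (Kap v)ˣ} {x : v.valuationSubring} (h0 : od v g = 0)
    (hx : (x : L) = (g : L)) (hu : red v x = (u : Kap v)) : ub v π g = u := by
  refine ub_unique hπ (x := x) ?_ hu
  rw [h0, neg_zero, zpow_zero, mul_one, hx]

end val

section quot

variable {κ : Type*} [Field κ] {d N : ℕ}

/-- the quotient by the relations -/
abbrev Qt (κ : Type*) [Field κ] (d : ℕ) : Type _ := FS κ d ⧸ Rels κ d

theorem mk_mul (u : Pt κ) (g : Fin d → κˣ) (i : Fin d) (a b : κˣ) :
    (Submodule.Quotient.mk (br u (Function.update g i (a * b))) : Qt κ d) =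
      Submodule.Quotient.mk (br u (Function.update g i a)) +
      Submodule.Quotient.mk (br u (Function.update g i b)) := by
  rw [← Submodule.Quotient.mk_add, Submodule.Quotient.eq]
  refine Submodule.subset_span (Or.inl (Or.inl (Or.inl ⟨u, g, i, a, b, ?_⟩)))
  rw [sub_sub]

theorem mk_alt (u : Pt κ) (g : Fin d → κˣ) {i j : Fin d} (hij : i ≠ j) (h : g i = g j) :
    (Submodule.Quotient.mk (br u g) : Qt κ d) = 0 := by
  rw [Submodule.Quotient.mk_eq_zero]
  exact Submodule.subset_span (Or.inl (Or.inl (Or.inr ⟨u, g, i, j, hij, h, rfl⟩)))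

theorem mk_self (u : Pt κ) (g : Fin d → κˣ) (i : Fin d) (h : g i = u.1) :
    (Submodule.Quotient.mk (br u g) : Qt κ d) = 0 := by
  rw [Submodule.Quotient.mk_eq_zero]
  exact Submodule.subset_span (Or.inr ⟨u, g, i, h, rfl⟩)

/-- the class as a homomorphism in one variable -/
noncomputable def onev (u : Pt κ) (g : Fin d → κˣ) (i : Fin d) : κˣ →* Multiplicative (Qt κ d) :=
  MonoidHom.mk' (fun a => Multiplicative.ofAdd
    (Submodule.Quotient.mk (br u (Function.update g i a)) : Qt κ d)) fun a b => by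
      rw [mk_mul]
      rfl

theorem mk_tors (u : Pt κ) (g : Fin d → κˣ) (i : Fin d) {a : κˣ} {M : ℕ} (hM : 0 < M)
    (ha : a ^ M = 1) : (Submodule.Quotient.mk (br u (Function.update g i a)) : Qt κ d) = 0 := by
  have h1 := map_pow (onev u g i) a M
  rw [ha, map_one] at h1
  have h2 : (M : ℚ) • (Submodule.Quotient.mk (br u (Function.update g i a)) : Qt κ d) = 0 := by
    rw [Nat.cast_smul_eq_nsmul]
    exact (congrArg Multiplicative.toAdd h1).symm
  have hM' : (M : ℚ) ≠ 0 := by exact_mod_cast hM.ne'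
  exact (smul_eq_zero.1 h2).resolve_left hM'

/-- the monomial -/
def ex (U : Fin N → κˣ) (y : Fin N → ℤ) : κˣ := ∏ k, U k ^ y k

theorem ex_add (U : Fin N → κˣ) (y z : Fin N → ℤ) : ex U (y + z) = ex U y * ex U z := by
  unfold ex
  rw [← Finset.prod_mul_distrib]
  refine Finset.prod_congr rfl fun k _ => ?_
  rw [Pi.add_apply, zpow_add]

theorem ex_zero (U : Fin N → κˣ) : ex U 0 = 1 := by
  unfold ex
  simp

theorem ex_single (U : Fin N → κˣ) (k : Fin N) : ex U (Pi.single k 1) = U k := by
  unfold ex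
  rw [Finset.prod_eq_single k]
  · simp
  · intro l _ hl
    rw [Pi.single_eq_of_ne hl, zpow_zero]
  · intro h
    exact absurd (Finset.mem_univ k) h

theorem ex_upd (U : Fin N → κˣ) (y : Fin d → Fin N → ℤ) [DecidableEq (Fin d)] (i : Fin d)
    (x : Fin N → ℤ) : (fun j => ex U (Function.update y i x j)) =
      Function.update (fun j => ex U (y j)) i (ex U x) := by
  funext j
  by_cases h : j = i
  · subst h
    rw [Function.update_self, Function.update_self]
  · rw [Function.update_of_ne h, Function.update_of_ne h]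

/-- The class of `{u}_2 ⊗ ∧_i U^(y_i)` as an alternating map. -/
noncomputable def Ps (u : Pt κ) (U : Fin N → κˣ) : (Fin N → ℤ) [⋀^Fin d]→ₗ[ℤ] Qt κ d where
  toFun y := Submodule.Quotient.mk (br u fun i => ex U (y i))
  map_update_add' := by
    intro inst y i x x'
    obtain rfl : inst = instDecidableEqFin d := Subsingleton.elim _ _
    rw [ex_upd, ex_upd, ex_upd, ex_add]
    exact mk_mul u _ i (ex U x) (ex U x')
  map_update_smul' := by
    intro inst y i c x
    obtain rfl : inst = instDecidableEqFin d := Subsingleton.elim _ _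
    set F : (Fin N → ℤ) →+ Qt κ d :=
      AddMonoidHom.mk' (fun x => Submodule.Quotient.mk
        (br u (Function.update (fun j => ex U (y j)) i (ex U x)))) (fun a b => by
          rw [ex_add]
          exact mk_mul u _ i (ex U a) (ex U b)) with hF
    have h := map_zsmul F c x
    rw [ex_upd, ex_upd]
    exact h
  map_eq_zero_of_eq' := by
    intro y i j h hij
    exact mk_alt u _ hij (by rw [h])

theorem Ps_apply (u : Pt κ) (U : Fin N → κˣ) (y : Fin d → Fin N → ℤ) :
    Ps u U y = Submodule.Quotient.mk (br u fun i => ex U (y i)) := rfl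

theorem Ps_zero (u : Pt κ) (U : Fin N → κˣ) (y : Fin d → Fin N → ℤ) (i : Fin d) {ζ : κˣ} {M : ℕ}
    (hM : 0 < M) (hζ : ζ ^ M = 1) (h : ex U (y i) = ζ) : Ps u U y = 0 := by
  rw [Ps_apply]
  have h1 : (fun i => ex U (y i)) = Function.update (fun i => ex U (y i)) i ζ := by
    rw [← h, Function.update_eq_self]
  rw [h1]
  exact mk_tors u _ i hM hζ

theorem Ps_self (u : Pt κ) (U : Fin N → κˣ) (y : Fin d → Fin N → ℤ) (i : Fin d) {ζ : κˣ} {M : ℕ}
    (hM : 0 < M) (hζ : ζ ^ M = 1) (h : ζ * ex U (y i) = u.1) : Ps u U y = 0 := by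
  rw [Ps_apply]
  have h2 : ex U (y i) = u.1 * ζ⁻¹ := by rw [← h, mul_inv_cancel_comm]
  have h1 : (fun i => ex U (y i)) = Function.update (fun i => ex U (y i)) i (u.1 * ζ⁻¹) := by
    rw [← h2, Function.update_eq_self]
  rw [h1, mk_mul, mk_self u _ i (by rw [Function.update_self]),
    mk_tors u _ i hM (by rw [inv_pow, hζ, inv_one]), add_zero]

/-- the residue -/
noncomputable def Rs (u : Pt κ) (U : Fin N → κˣ) (ν : (Fin N → ℤ) →ₗ[ℤ] ℤ) :
    (Fin N → ℤ) [⋀^Fin (d + 1)]→ₗ[ℤ] Qt κ d :=
  AlternatingMap.alternatizeUncurryFin (ν.smulRight (Ps u U))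

theorem Rs_apply (u : Pt κ) (U : Fin N → κˣ) (ν : (Fin N → ℤ) →ₗ[ℤ] ℤ)
    (y : Fin (d + 1) → Fin N → ℤ) : Rs u U ν y =
      ∑ i : Fin (d + 1), (-1 : ℤ) ^ (i : ℕ) • ν (y i) • Ps u U (i.removeNth y) := by
  unfold Rs
  rw [AlternatingMap.alternatizeUncurryFin_apply]
  rfl

/-- the residue vanishes -/
theorem Rs_zero {u : Pt κ} {U : Fin (d + 2) → κˣ} {ν : (Fin (d + 2) → ℤ) →ₗ[ℤ] ℤ}
    {a b : Fin (d + 2) → ℤ} (ha : ν a = 0) (hb : ν b = 0)
    {ζ ξ : κˣ} {M M' : ℕ} (hM : 0 < M) (hM' : 0 < M') (hζ : ζ ^ M = 1) (hξ : ξ ^ M' = 1)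
    (h1 : ζ * ex U a = u.1) (h2 : ex U b = ξ) (hab : LinearIndependent ℤ ![a, b])
    (i : Fin (d + 2)) (hi : a i ≠ 0) :
    Rs u U ν (fun k : Fin (d + 1) => Pi.single (i.succAbove k) 1) = 0 := by
  set c : Fin (d + 2) → ℤ := a i • b - b i • a with hc
  have hc0 : c ≠ 0 := by
    intro h
    rw [LinearIndependent.pair_iff] at hab
    have := hab (-b i) (a i) (by
      rw [← h, hc]
      module)
    exact hi this.2
  have hci : c i = 0 := by
    rw [hc, Pi.sub_apply, Pi.smul_apply, Pi.smul_apply, smul_eq_mul, smul_eq_mul]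
    ring
  have hνc : ν c = 0 := by rw [hc, map_sub, map_smul, map_smul, ha, hb]; simp
  have hPc : ∀ (y : Fin d → Fin (d + 2) → ℤ) (l : Fin d), y l = c → Ps u U y = 0 := by
    intro y l hl
    have h3 : y = Function.update y l c := by rw [← hl, Function.update_eq_self]
    rw [h3, hc, AlternatingMap.map_update_sub, AlternatingMap.map_update_smul,
      AlternatingMap.map_update_smul,
      Ps_zero u U (Function.update y l b) l hM' hξ (by rw [Function.update_self, h2]),
      Ps_self u U (Function.update y l a) l hM hζ (by rw [Function.update_self, h1])]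
    simp
  have hRc : ∀ (y : Fin (d + 1) → Fin (d + 2) → ℤ) (l : Fin (d + 1)),
      Rs u U ν (Function.update y l c) = 0 := by
    intro y l
    rw [Rs_apply]
    refine Finset.sum_eq_zero fun p _ => ?_
    by_cases hp : l = p
    · rw [hp, Function.update_self, hνc, zero_smul, smul_zero]
    · obtain ⟨q, hq⟩ := Fin.exists_succAbove_eq hp
      rw [hPc (p.removeNth (Function.update y l c)) q (by
        show Function.update y l c (p.succAbove q) = c
        rw [hq, Function.update_self]), smul_zero, smul_zero]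
  obtain ⟨k, hk⟩ := Function.ne_iff.1 hc0
  rw [Pi.zero_apply] at hk
  have hki : k ≠ i := fun h => hk (by rw [h, hci])
  obtain ⟨l, hl⟩ := Fin.exists_succAbove_eq hki
  set e : Fin (d + 1) → Fin (d + 2) → ℤ := fun k => Pi.single (i.succAbove k) 1 with he
  have hce : c = ∑ p, c (i.succAbove p) • e p := by
    funext q
    rw [Finset.sum_apply]
    refine Fin.succAboveCases i ?_ (fun q => ?_) q
    · rw [hci]
      symm
      refine Finset.sum_eq_zero fun p _ => ?_
      show c (i.succAbove p) • (Pi.single (i.succAbove p) 1 : Fin (d + 2) → ℤ) i = 0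
      rw [Pi.single_eq_of_ne (Fin.succAbove_ne i p).symm, smul_zero]
    · rw [Finset.sum_eq_single q]
      · show _ = c (i.succAbove q) •
          (Pi.single (i.succAbove q) 1 : Fin (d + 2) → ℤ) (i.succAbove q)
        rw [Pi.single_eq_same, smul_eq_mul, mul_one]
      · intro p _ hp
        show c (i.succAbove p) •
          (Pi.single (i.succAbove p) 1 : Fin (d + 2) → ℤ) (i.succAbove q) = 0
        rw [Pi.single_eq_of_ne, smul_zero]
        intro h
        exact hp (Fin.succAbove_right_injective h).symm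
      · intro h
        exact absurd (Finset.mem_univ q) h
  have h3 := hRc e l
  rw [hce, AlternatingMap.map_update_sum] at h3
  rw [Finset.sum_eq_single l] at h3
  · rw [AlternatingMap.map_update_smul, Function.update_eq_self, hl] at h3
    rw [← Int.cast_smul_eq_zsmul ℚ] at h3
    have hk' : (c k : ℚ) ≠ 0 := by exact_mod_cast hk
    exact (smul_eq_zero.1 h3).resolve_left hk'
  · intro p _ hp
    rw [AlternatingMap.map_update_smul, AlternatingMap.map_update_self _ _ hp.symm, smul_zero]
  · intro h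
    exact absurd (Finset.mem_univ l) h

theorem Rs_eq (u : Pt κ) (U : Fin (d + 2) → κˣ) (ν : (Fin (d + 2) → ℤ) →ₗ[ℤ] ℤ)
    (i : Fin (d + 2)) : Rs u U ν (fun k : Fin (d + 1) => Pi.single (i.succAbove k) 1) =
      Submodule.Quotient.mk (∑ l : Fin (d + 1),
        ((-1) ^ (l : ℕ) * (ν (Pi.single (i.succAbove l) 1) : ℚ)) •
          br u fun k => U (i.succAbove (l.succAbove k))) := by
  rw [Rs_apply]
  have h1 : ∀ s : FS κ d, (Submodule.Quotient.mk s : Qt κ d) = (Rels κ d).mkQ s := fun _ => rfl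
  rw [h1, map_sum]
  refine Finset.sum_congr rfl fun l _ => ?_
  rw [map_smul, mul_smul, Int.cast_smul_eq_zsmul, ← h1]
  have h2 : (((-1 : ℤ) ^ (l : ℕ) : ℤ) : ℚ) = (-1) ^ (l : ℕ) := by push_cast; rfl
  rw [← h2, Int.cast_smul_eq_zsmul, Ps_apply]
  congr 4
  funext k
  exact ex_single U _

end quot

section curve

variable {K : Type*} [Field K] {d r : ℕ} {C : Dat K (d + 2) r} {L : Type*} [Field L]
  (φ : C.Ring →+* L) (v : Valuation L ℤᵐ⁰)

/-- the coordinates -/
noncomputable def Xl (k : Fin (d + 2)) : Lˣ := Units.map (φ : C.Ring →* L) (C.x k)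

/-- the orders of the monomials -/
noncomputable def nu : (Fin (d + 2) → ℤ) →ₗ[ℤ] ℤ := ∑ k, od v (Xl φ k) • LinearMap.proj k

theorem nu_apply (y : Fin (d + 2) → ℤ) : nu φ v y = ∑ k, od v (Xl φ k) * y k := by
  unfold nu
  rw [LinearMap.sum_apply]
  rfl

theorem nu_single (k : Fin (d + 2)) : nu φ v (Pi.single k 1) = od v (Xl φ k) := by
  rw [nu_apply, Finset.sum_eq_single k]
  · rw [Pi.single_eq_same, mul_one]
  · intro l _ hl
    rw [Pi.single_eq_of_ne hl, mul_zero]
  · intro h
    exact absurd (Finset.mem_univ k) h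

/-- the constant -/
noncomputable def ct (φ : C.Ring →+* L) (j : Fin r) : Lˣ :=
  Units.map (φ : C.Ring →* L) (C.mn (C.ε j) 0)

theorem ct_tors (hC : C.Admissible) (j : Fin r) : ∃ M : ℕ, 0 < M ∧ ct φ j ^ M = 1 := by
  obtain ⟨M, hM, hM'⟩ := hC.tors j
  refine ⟨M, hM, ?_⟩
  unfold ct
  rw [← map_pow, mn_tors hM', map_one]

theorem pt_eq (hC : C.Admissible) (j : Fin r) :
    ((Dat.pt hC j).map φ).1 = ct φ j * ∏ k, Xl φ k ^ C.a j k := by
  show Units.map (φ : C.Ring →* L) (C.mn (C.ε j) (C.a j)) = _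
  rw [mn_eq, map_mul, map_prod]
  simp only [map_zpow]
  rfl

theorem od_tors {g : Lˣ} {M : ℕ} (hM : 0 < M) (h : g ^ M = 1) : od v g = 0 := by
  rw [od_eq_zero]
  refine val_torsion v hM ?_
  rw [← Units.val_pow_eq_pow_val, h, Units.val_one]

theorem od_pt (hC : C.Admissible) (j : Fin r) :
    od v ((Dat.pt hC j).map φ).1 = nu φ v (C.a j) := by
  obtain ⟨M, hM, hM'⟩ := ct_tors φ hC j
  rw [pt_eq, od_mul, od_tors v hM hM', zero_add, od_prod, nu_apply]
  refine Finset.sum_congr rfl fun k _ => ?_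
  rw [od_zpow, mul_comm]

theorem ub_pt {π : Lˣ} (hπ : v (π : L) = WithZero.exp (-1)) (hC : C.Admissible) (j : Fin r) :
    ub v π ((Dat.pt hC j).map φ).1 = ub v π (ct φ j) * ex (fun k => ub v π (Xl φ k)) (C.a j) := by
  rw [pt_eq, ub_mul hπ]
  congr 1
  have h := map_prod (ubh hπ) (fun k => Xl φ k ^ C.a j k) Finset.univ
  unfold ex
  refine h.trans (Finset.prod_congr rfl fun k _ => ?_)
  exact map_zpow (ubh hπ) _ _

theorem exists_one (hC : C.Admissible) : (∀ k, od v (Xl φ k) = 0) ∨
    ∃ j, v (((Dat.pt hC j).map φ).1 : L) = 1 ∧ v (1 - (((Dat.pt hC j).map φ).1 : L)) < 1 := by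
  by_contra hcon
  rw [not_or] at hcon
  obtain ⟨h1, h2⟩ := hcon
  push Not at h1 h2
  obtain ⟨k, hk⟩ := h1
  -- a monomial which is not a unit
  obtain ⟨i, hi⟩ : ∃ i, nu φ v (C.a i) ≠ 0 := by
    by_contra h3
    push Not at h3
    set ψ : (Fin (d + 2) → ℚ) →ₗ[ℚ] ℚ := ∑ k, (od v (Xl φ k) : ℚ) • LinearMap.proj k with hψ
    have h4 : ∀ y, ψ y = ∑ k, (od v (Xl φ k) : ℚ) * y k := by
      intro y
      rw [hψ, LinearMap.sum_apply]
      rfl
    have h5 : (⊤ : Submodule ℚ (Fin (d + 2) → ℚ)) ≤ LinearMap.ker ψ := by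
      rw [← hC.span, Submodule.span_le]
      rintro _ ⟨j, rfl⟩
      rw [SetLike.mem_coe, LinearMap.mem_ker, h4]
      have h6 := h3 j
      rw [nu_apply] at h6
      show ∑ k, (od v (Xl φ k) : ℚ) * (C.a j k : ℚ) = 0
      exact_mod_cast h6
    have h7 : ψ (Pi.single k 1) = 0 := LinearMap.mem_ker.1 (h5 trivial)
    rw [h4, Finset.sum_eq_single k] at h7
    · rw [Pi.single_eq_same, mul_one] at h7
      exact hk (by exact_mod_cast h7)
    · intro l _ hl
      rw [Pi.single_eq_of_ne hl, mul_zero]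
    · intro h
      exact absurd (Finset.mem_univ k) h
  have heq : ∏ j, (v ((1 - (((Dat.pt hC j).map φ).1 : L)) *
      (1 - (((((Dat.pt hC j).map φ).1)⁻¹ : Lˣ) : L)))) ^ C.n j = 1 := by
    have h1 := congrArg φ (prod_eq_one hC)
    rw [map_prod, map_one] at h1
    have h2 := congrArg v h1
    rw [map_prod, map_one] at h2
    rw [← h2]
    refine Finset.prod_congr rfl fun j _ => ?_
    rw [← map_pow]
    congr 1
    rw [map_pow, map_mul φ, map_sub φ, map_sub φ, map_one φ]
    rfl
  have hne : v (((Dat.pt hC i).map φ).1 : L) ≠ 1 := by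
    rw [Ne, ← od_eq_zero, od_pt]
    exact hi
  have h8 : 1 < ∏ j, (v ((1 - (((Dat.pt hC j).map φ).1 : L)) *
      (1 - (((((Dat.pt hC j).map φ).1)⁻¹ : Lˣ) : L)))) ^ C.n j := by
    rw [← Finset.mul_prod_erase Finset.univ _ (Finset.mem_univ i)]
    refine lt_of_lt_of_le (one_lt_pow₀ (one_lt_val_pair v hne) (hC.pos i).ne')
      (le_mul_of_one_le_right' (Finset.one_le_prod' fun j _ => ?_))
    by_cases h9 : v (((Dat.pt hC j).map φ).1 : L) = 1
    · have h10 := h2 j h9
      have h11 : v (1 - (((Dat.pt hC j).map φ).1 : L)) ≤ 1 := by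
        refine (Valuation.map_sub v _ _).trans ?_
        rw [map_one, h9, max_self]
      have h12 := le_antisymm h11 h10
      exact (one_pow (M := ℤᵐ⁰) _).symm.le.trans_eq (congrArg (· ^ C.n j)
          (val_pair_eq_one v h9 h12).symm)
    · exact one_le_pow₀ (one_lt_val_pair v h9).le
  rw [heq] at h8
  exact lt_irrefl _ h8

theorem bnd_term {π : Lˣ} (hπ : v (π : L) = WithZero.exp (-1)) (hC : C.Admissible) (j : Fin r)
    (i : Fin (d + 2)) (hi : C.a j i ≠ 0) :
    bnd v π (br ((Dat.pt hC j).map φ) fun k => Xl φ (i.succAbove k)) ∈ Rels (Kap v) d := by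
  unfold bnd br
  rw [Finsupp.linearCombination_single, one_smul]
  simp only []
  split_ifs with h
  · obtain ⟨x, hx, hx'⟩ := h.choose_spec
    set u := h.choose with hu
    rw [← Submodule.Quotient.mk_eq_zero]
    rcases exists_one φ v hC with h0 | ⟨l, hl1, hl2⟩
    · simp only [h0, Int.cast_zero, mul_zero, zero_smul, Finset.sum_const_zero]
      rfl
    · have e1 := Rs_eq u (fun k => ub v π (Xl φ k)) (nu φ v) i
      simp only [nu_single] at e1
      have e2 : Rs u (fun k => ub v π (Xl φ k)) (nu φ v)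
          (fun k : Fin (d + 1) => Pi.single (i.succAbove k) 1) = 0 := by
        obtain ⟨M, hM, hM'⟩ := ct_tors φ hC j
        obtain ⟨P, hP, hP'⟩ := ct_tors φ hC l
        have hub : ∀ {g : Lˣ} {Q : ℕ}, g ^ Q = 1 → ub v π g ^ Q = 1 := by
          intro g Q hg
          have := map_pow (ubh hπ) g Q
          rw [hg, map_one] at this
          exact this.symm
        have hv1 : v (((Dat.pt hC j).map φ).1 : L) = 1 := by
          rw [← hx, ← red_ne_zero, hx']
          exact u.1.ne_zero
        have hv2 : v (1 - (((Dat.pt hC j).map φ).1 : L)) = 1 := by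
          have h3 : red v (1 - x) ≠ 0 := by
            rw [red_sub, red_one, hx']
            exact u.2.ne_zero
          rw [red_ne_zero] at h3
          rw [← hx]
          exact h3
        have hjl : j ≠ l := by
          rintro rfl
          rw [hv2] at hl2
          exact lt_irrefl _ hl2
        have h4 : nu φ v (C.a j) = 0 := by
          rw [← od_pt φ v hC, od_eq_zero]
          exact hv1
        have h5 : nu φ v (C.a l) = 0 := by
          rw [← od_pt φ v hC, od_eq_zero]
          exact hl1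
        have h6 : ub v π ((Dat.pt hC j).map φ).1 = u.1 :=
          ub_of_red hπ ((od_eq_zero v).2 hv1) hx hx'
        have h7 : ub v π ((Dat.pt hC l).map φ).1 = 1 := by
          set y : v.valuationSubring := ⟨_, (v.mem_valuationSubring_iff _).2 hl1.le⟩ with hy
          refine ub_of_red hπ (x := y) ((od_eq_zero v).2 hl1) rfl ?_
          have h8 : red v (1 - y) = 0 := by
            by_contra h9
            rw [← Ne, red_ne_zero] at h9
            exact absurd h9 hl2.ne
          rw [red_sub, red_one, sub_eq_zero] at h8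
          rw [← h8, Units.val_one]
        rw [ub_pt φ v hπ] at h6 h7
        refine Rs_zero h4 h5 hM hP (hub hM') (ξ := (ub v π (ct φ l))⁻¹)
          (by rw [inv_pow, hub hP', inv_one]) h6 ?_ (hC.indep j l hjl) i hi
        exact (inv_eq_of_mul_eq_one_right h7).symm
      rw [e2] at e1
      exact e1.symm
  · exact Submodule.zero_mem _

theorem bnd_alpha {π : Lˣ} (hπ : v (π : L) = WithZero.exp (-1)) (hC : C.Admissible) :
    bnd v π (FS.map φ (Dat.alpha hC)) ∈ Rels (Kap v) d := by
  unfold Dat.alpha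
  rw [map_sum, map_sum]
  refine Submodule.sum_mem _ fun j _ => ?_
  rw [map_sum, map_sum]
  refine Submodule.sum_mem _ fun i _ => ?_
  rw [map_smul, map_smul]
  by_cases hi : C.a j i = 0
  · rw [hi, Int.cast_zero, mul_zero, mul_zero, zero_div, zero_smul]
    exact Submodule.zero_mem _
  · refine Submodule.smul_mem _ _ ?_
    have h1 : FS.map φ (br (Dat.pt hC j) fun k => C.x (i.succAbove k)) =
        br ((Dat.pt hC j).map φ) fun k => Xl φ (i.succAbove k) := by
      unfold br FS.map
      rw [Finsupp.lmapDomain_apply, Finsupp.mapDomain_single]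
      rfl
    rw [h1]
    exact bnd_term φ v hπ hC j i hi

end curve

end Pool.Agent.P8H1.PD
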