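import Pool.Agent.P8H1.PD.Lift
set_option autoImplicit false

/-!
The regulator vanishes on the relations.
-/

namespace Pool.Agent.P8H1.PD

open Set MeasureTheory Filter Topology Complex
open Pool.Agent.N65.TK (Pt D Five Mf tau hasDerivAt_Mf five five_zero)
open Pool.Agent.W367.KT (eta)

section integrals

variable {α : Type*} [MeasurableSpace α] {μ : Measure α} {a b c d e : α → ℂ}

theorem int3 (ha : Integrable a μ) (hb : Integrable b μ) (hc : Integrable c μ) :
    ∫ x, (a x - b x - c x) ∂μ = (∫ x, a x ∂μ) - (∫ x, b x ∂μ) - ∫ x, c x ∂μ := by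
  have h1 : Integrable (fun x => a x - b x) μ := ha.sub hb
  rw [integral_sub h1 hc, integral_sub ha hb]

theorem int5 (ha : Integrable a μ) (hb : Integrable b μ) (hc : Integrable c μ)
    (hd : Integrable d μ) (he : Integrable e μ) :
    ∫ x, (a x - b x + c x - d x + e x) ∂μ = (∫ x, a x ∂μ) - (∫ x, b x ∂μ) + (∫ x, c x ∂μ) -
      (∫ x, d x ∂μ) + ∫ x, e x ∂μ := by
  have h1 : Integrable (fun x => a x - b x) μ := ha.sub hb
  have h2 : Integrable (fun x => a x - b x + c x) μ := h1.add hc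
  have h3 : Integrable (fun x => a x - b x + c x - d x) μ := h2.sub hd
  rw [integral_add h3 he, integral_sub h2 hd, integral_add h1 hc, integral_sub ha hb]

end integrals

section id

theorem key_id {V : Type*} [AddCommGroup V] [Module ℂ V] (B : V →ₗ[ℂ] V →ₗ[ℂ] ℂ)
    (hB : ∀ v, B v v = 0) (E l a : V) (D M τ p q r s : ℂ) :
    B ((I * D) • E + ((1 - τ ^ 2) / 2) • (q • l - p • (r • l - s • a)))
        (a + I • (p • E + τ • l)) =
      B ((-τ * D) • E + ((1 - τ ^ 2) / 2) • (p • (r • a + s • l) - q • a)) l -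
      I * B (((1 - 3 * τ ^ 2) / 2 * D) • E +
        (τ * (1 - τ ^ 2) / 2) • (p • (r • a + s • l) - q • a)) a -
      3 * I * B ((-τ * M) • E + ((1 - τ ^ 2) / 2) •
        (D • a - (1 / 3 * p) • (q • l - p • (r • l - s • a)))) E := by
  have h1 := alt_neg B hB E l
  have h2 := alt_neg B hB E a
  have h3 := alt_neg B hB l a
  simp only [map_add, map_sub, map_smul, LinearMap.add_apply, LinearMap.sub_apply,
    LinearMap.smul_apply, smul_eq_mul, hB, h1, h2, h3]
  linear_combination (τ * D * B E l) * I_sq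

end id

section grads

variable {m : ℕ}

theorem grad_pm {p : ℝ → ℝ} {p' : ℝ} {x : Fin (m + 1) → ℝ} (hp : HasDerivAt p p' (x 0))
    {h : (Fin (m + 1) → ℝ) → ℝ} (hh : DifferentiableAt ℝ h x) :
    DifferentiableAt ℝ (fun y : Fin (m + 1) → ℝ => ((p (y 0) * h y : ℝ) : ℂ)) x ∧
    grad (fun y : Fin (m + 1) → ℝ => ((p (y 0) * h y : ℝ) : ℂ)) x =
      ((p' * h x : ℝ) : ℂ) • E0 m + (p (x 0) : ℂ) •
        (fun i => ((fderiv ℝ h x (Pi.single i 1) : ℝ) : ℂ)) := by
  have h3 : HasFDerivAt (fun y : Fin (m + 1) → ℝ => y 0)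
      (ContinuousLinearMap.proj (R := ℝ) (φ := fun _ : Fin (m + 1) => ℝ) 0) x :=
    hasFDerivAt_apply 0 x
  have h4 := hp.comp_hasFDerivAt x h3
  have h5 := Complex.ofRealCLM.hasFDerivAt.comp x (h4.fun_mul hh.hasFDerivAt)
  have h6 : HasFDerivAt (fun y : Fin (m + 1) → ℝ => ((p (y 0) * h y : ℝ) : ℂ)) _ x := h5
  refine ⟨h6.differentiableAt, ?_⟩
  funext i
  unfold grad
  rw [h6.fderiv]
  have h7 : (Pi.single i 1 : Fin (m + 1) → ℝ) 0 = if i = 0 then 1 else 0 := by
    rw [Pi.single_apply]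
    simp only [eq_comm]
  show ((p (x 0) * fderiv ℝ h x (Pi.single i 1) +
    h x * (p' * (Pi.single i 1 : Fin (m + 1) → ℝ) 0) : ℝ) : ℂ) = _
  rw [h7]
  simp only [Pi.add_apply, Pi.smul_apply, smul_eq_mul, E0, Pi.single_apply]
  split_ifs <;> push_cast <;> ring

end grads

section reg

variable {A : Type*} [CommRing A] {m : ℕ} (γ : Tor A m)

theorem Tor.lam_co (f : Pt A) (x : Fin (m + 1) → ℝ) :
    γ.lam f.co x = ((-(γ.G f.1 x / (1 - γ.G f.1 x))).re : ℂ) • γ.lam f.1 x -
      ((-(γ.G f.1 x / (1 - γ.G f.1 x))).im : ℂ) • γ.ag f.1 x := by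
  funext i
  simp only [Pi.sub_apply, Pi.smul_apply, smul_eq_mul, Tor.lam, Tor.ag, γ.ld_co, Complex.mul_re]
  push_cast
  ring

theorem Tor.ag_co (f : Pt A) (x : Fin (m + 1) → ℝ) :
    γ.ag f.co x = ((-(γ.G f.1 x / (1 - γ.G f.1 x))).re : ℂ) • γ.ag f.1 x +
      ((-(γ.G f.1 x / (1 - γ.G f.1 x))).im : ℂ) • γ.lam f.1 x := by
  funext i
  simp only [Pi.add_apply, Pi.smul_apply, smul_eq_mul, Tor.lam, Tor.ag, γ.ld_co, Complex.mul_im]
  push_cast
  ring

theorem Tor.ld_co2 (f : Pt A) (x : Fin (m + 1) → ℝ) (i : Fin (m + 1)) :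
    -(fderiv ℝ (γ.G f.1) x (Pi.single i 1)) / (1 - γ.G f.1 x) = γ.ld f.co x i := by
  rw [γ.ld_co]
  unfold Tor.ld lgrad
  have := γ.G_ne f.1 x
  have h2 : 1 - γ.G f.1 x ≠ 0 := sub_ne_zero.2 (Ne.symm (γ.G_ne_one f x))
  field_simp

theorem Tor.gD (f : Pt A) (x : Fin (m + 1) → ℝ) :
    (fun i => ((fderiv ℝ (fun y => D (γ.G f.1 y)) x (Pi.single i 1) : ℝ) : ℂ)) =
      (γ.ln f.1 x : ℂ) • γ.ag f.co x - (γ.ln f.co x : ℂ) • γ.ag f.1 x := by
  funext i
  rw [(D_comp (γ.G_has' f.1 x) (γ.G_ne _ _) (γ.G_ne_one _ _)).2]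
  unfold Pool.Agent.W367.KT.eta
  rw [γ.ld_co2]
  simp only [Pi.sub_apply, Pi.smul_apply, smul_eq_mul, Tor.ag, Tor.ln, γ.G_co]
  push_cast
  rfl

theorem Tor.gM (f : Pt A) (x : Fin (m + 1) → ℝ) :
    (fun i => ((fderiv ℝ (fun y => Mf (γ.G f.1 y)) x (Pi.single i 1) : ℝ) : ℂ)) =
      (D (γ.G f.1 x) : ℂ) • γ.ag f.1 x - (1 / 3 * (γ.ln f.1 x : ℂ)) •
        ((γ.ln f.co x : ℂ) • γ.lam f.1 x - (γ.ln f.1 x : ℂ) • γ.lam f.co x) := by
  funext i
  rw [(Mf_comp (γ.G_has' f.1 x) (γ.G_ne _ _) (γ.G_ne_one _ _)).2]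
  unfold tau
  rw [γ.ld_co2]
  simp only [Pi.sub_apply, Pi.smul_apply, smul_eq_mul, Tor.ag, Tor.lam, Tor.ln, γ.G_co]
  push_cast
  rfl

/-- the primitives -/
noncomputable def Tor.u1 (f : Pt A) (x : Fin (m + 1) → ℝ) : ℂ :=
  (((1 - x 0 ^ 2) / 2 * D (γ.G f.1 x) : ℝ) : ℂ)

/-- the primitives -/
noncomputable def Tor.u2 (f : Pt A) (x : Fin (m + 1) → ℝ) : ℂ :=
  ((x 0 * (1 - x 0 ^ 2) / 2 * D (γ.G f.1 x) : ℝ) : ℂ)

/-- the primitives -/
noncomputable def Tor.u3 (f : Pt A) (x : Fin (m + 1) → ℝ) : ℂ :=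
  (((1 - x 0 ^ 2) / 2 * Mf (γ.G f.1 x) : ℝ) : ℂ)

theorem hp1 (t : ℝ) : HasDerivAt (fun t : ℝ => (1 - t ^ 2) / 2) (-t) t := by
  have h := (((hasDerivAt_id t).pow 2).const_sub 1).div_const 2
  refine h.congr_deriv ?_
  simp
  ring

theorem hp2 (t : ℝ) : HasDerivAt (fun t : ℝ => t * (1 - t ^ 2) / 2) ((1 - 3 * t ^ 2) / 2) t := by
  have h := ((hasDerivAt_id t).fun_mul (((hasDerivAt_id t).pow 2).const_sub 1)).div_const 2
  refine h.congr_deriv ?_
  simp
  ring

theorem Tor.u1_grad (f : Pt A) (x : Fin (m + 1) → ℝ) : DifferentiableAt ℝ (γ.u1 f) x ∧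
    grad (γ.u1 f) x = (-(x 0 : ℂ) * (D (γ.G f.1 x) : ℂ)) • E0 m + ((1 - (x 0 : ℂ) ^ 2) / 2) •
      ((γ.ln f.1 x : ℂ) • γ.ag f.co x - (γ.ln f.co x : ℂ) • γ.ag f.1 x) := by
  have h := grad_pm (hp1 (x 0)) (D_comp (γ.G_has' f.1 x) (γ.G_ne _ _) (γ.G_ne_one _ _)).1
  rw [γ.gD] at h
  refine ⟨h.1, h.2.trans ?_⟩
  push_cast
  rfl

theorem Tor.u2_grad (f : Pt A) (x : Fin (m + 1) → ℝ) : DifferentiableAt ℝ (γ.u2 f) x ∧
    grad (γ.u2 f) x = ((1 - 3 * (x 0 : ℂ) ^ 2) / 2 * (D (γ.G f.1 x) : ℂ)) • E0 m +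
      ((x 0 : ℂ) * (1 - (x 0 : ℂ) ^ 2) / 2) •
      ((γ.ln f.1 x : ℂ) • γ.ag f.co x - (γ.ln f.co x : ℂ) • γ.ag f.1 x) := by
  have h := grad_pm (hp2 (x 0)) (D_comp (γ.G_has' f.1 x) (γ.G_ne _ _) (γ.G_ne_one _ _)).1
  rw [γ.gD] at h
  refine ⟨h.1, h.2.trans ?_⟩
  push_cast
  rfl

theorem Tor.u3_grad (f : Pt A) (x : Fin (m + 1) → ℝ) : DifferentiableAt ℝ (γ.u3 f) x ∧
    grad (γ.u3 f) x = (-(x 0 : ℂ) * (Mf (γ.G f.1 x) : ℂ)) • E0 m + ((1 - (x 0 : ℂ) ^ 2) / 2) •
      ((D (γ.G f.1 x) : ℂ) • γ.ag f.1 x - (1 / 3 * (γ.ln f.1 x : ℂ)) •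
        ((γ.ln f.co x : ℂ) • γ.lam f.1 x - (γ.ln f.1 x : ℂ) • γ.lam f.co x)) := by
  have h := grad_pm (hp1 (x 0)) (Mf_comp (γ.G_has' f.1 x) (γ.G_ne _ _) (γ.G_ne_one _ _)).1
  rw [γ.gM] at h
  refine ⟨h.1, h.2.trans ?_⟩
  push_cast
  rfl

theorem Tor.cont_M (f : Pt A) : Continuous fun x => Mf (γ.G f.1 x) := by
  rw [continuous_iff_continuousAt]
  intro x
  exact (Mf_comp (γ.G_has' f.1 x) (γ.G_ne _ _) (γ.G_ne_one _ _)).1.continuousAt

theorem Tor.u1_cont (f : Pt A) : Continuous (grad (γ.u1 f)) := by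
  have h : grad (γ.u1 f) = _ := funext fun x => (γ.u1_grad f x).2
  rw [h]
  have h1 := γ.cont_D f
  have h2 := γ.cont_ln f.1
  have h3 := γ.cont_ln f.co
  have h4 := (γ.ag_cl f.1).smooth.continuous
  have h5 := (γ.ag_cl f.co).smooth.continuous
  fun_prop

theorem Tor.u2_cont (f : Pt A) : Continuous (grad (γ.u2 f)) := by
  have h : grad (γ.u2 f) = _ := funext fun x => (γ.u2_grad f x).2
  rw [h]
  have h1 := γ.cont_D f
  have h2 := γ.cont_ln f.1
  have h3 := γ.cont_ln f.co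
  have h4 := (γ.ag_cl f.1).smooth.continuous
  have h5 := (γ.ag_cl f.co).smooth.continuous
  fun_prop

theorem Tor.u3_cont (f : Pt A) : Continuous (grad (γ.u3 f)) := by
  have h : grad (γ.u3 f) = _ := funext fun x => (γ.u3_grad f x).2
  rw [h]
  have h0 := γ.cont_M f
  have h1 := γ.cont_D f
  have h2 := γ.cont_ln f.1
  have h3 := γ.cont_ln f.co
  have h4 := (γ.ag_cl f.1).smooth.continuous
  have h5 := (γ.lam_cl f.co).smooth.continuous
  have h6 := (γ.lam_cl f.1).smooth.continuous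
  fun_prop

/-- The divergence theorem for a function times the integrand with one row replaced. -/
theorem Tor.int_zero (g : Fin m → Aˣ) (i : Fin m) {L : (Fin (m + 1) → ℝ) → Fin (m + 1) → ℂ}
    (hL : IsCl L) (hLp : ∀ x (k : Fin m), L (x + Pi.single k.succ 1) = L x)
    {u : (Fin (m + 1) → ℝ) → ℂ} (hu : ∀ x, DifferentiableAt ℝ u x)
    (hup : ∀ x (k : Fin m), u (x + Pi.single k.succ 1) = u x)
    (h1 : ∀ x, x 0 = 1 → u x = 0) (h2 : ∀ x, x 0 = -1 → u x = 0)
    (hc : Continuous (grad u)) :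
    ∫ x in bx m, bl (fun j => γ.W (g j) x) i (grad u x) (L x) = 0 ∧
    IntegrableOn (fun x => bl (fun j => γ.W (g j) x) i (grad u x) (L x)) (bx m) := by
  set w : Fin m → (Fin (m + 1) → ℝ) → Fin (m + 1) → ℂ :=
    Function.update (fun j => γ.W (g j)) i L with hw
  have h3 : ∀ x, bl (fun j => γ.W (g j) x) i (grad u x) (L x) =
      dt (Fin.cons (grad u x) fun j => w j x) := by
    intro x
    rw [bl_apply]
    congr 2
    funext j
    rw [hw]
    by_cases h : j = i
    · subst h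
      rw [Function.update_self, Function.update_self]
    · rw [Function.update_of_ne h, Function.update_of_ne h]
  have hwc : ∀ j, IsCl (w j) := by
    intro j
    rw [hw]
    by_cases h : j = i
    · subst h
      rw [Function.update_self]
      exact hL
    · rw [Function.update_of_ne h]
      exact γ.W_cl _
  simp only [h3]
  refine ⟨stokes_bx hwc (fun j x k => ?_) hu hup h1 h2 hc, ?_⟩
  · rw [hw]
    by_cases h : j = i
    · subst h
      rw [Function.update_self]
      exact hLp x k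
    · rw [Function.update_of_ne h]
      exact γ.W_per _ _ _
  · have hcont : ContinuousOn (fun x => dt (Fin.cons (grad u x) fun j => w j x)) (bx m) := by
      refine continuous_dt fun j => ?_
      refine Fin.cases ?_ (fun j => ?_) j
      · exact hc.continuousOn
      · exact (hwc j).smooth.continuous.continuousOn
    exact hcont.integrableOn_compact isCompact_Icc

theorem Tor.D_per (f : Pt A) (x : Fin (m + 1) → ℝ) (k : Fin m) :
    (x + Pi.single k.succ 1 : Fin (m + 1) → ℝ) 0 = x 0 ∧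
      γ.G f.1 (x + Pi.single k.succ 1) = γ.G f.1 x := by
  refine ⟨?_, γ.G_per _ _ _⟩
  rw [Pi.add_apply, Pi.single_eq_of_ne (Fin.succ_ne_zero k).symm, add_zero]

theorem Tor.reg_steinberg (f : Pt A) (g : Fin m → Aˣ) (i : Fin m) (hi : g i = f.1) :
    γ.reg (br f g) = 0 := by
  rw [γ.reg_br]
  have hz : ∫ x in bx m, γ.R f g x = 0 := by
    obtain ⟨a1, b1⟩ := γ.int_zero g i (γ.lam_cl f.1) (γ.lam_per f.1)
      (fun x => (γ.u1_grad f x).1) (fun x k => by
        unfold Tor.u1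
        rw [(γ.D_per f x k).1, (γ.D_per f x k).2]) (fun x hx => by
        unfold Tor.u1
        rw [hx]
        norm_num) (fun x hx => by
        unfold Tor.u1
        rw [hx]
        norm_num) (γ.u1_cont f)
    obtain ⟨a2, b2⟩ := γ.int_zero g i (γ.ag_cl f.1) (γ.ag_per f.1)
      (fun x => (γ.u2_grad f x).1) (fun x k => by
        unfold Tor.u2
        rw [(γ.D_per f x k).1, (γ.D_per f x k).2]) (fun x hx => by
        unfold Tor.u2
        rw [hx]
        norm_num) (fun x hx => by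
        unfold Tor.u2
        rw [hx]
        norm_num) (γ.u2_cont f)
    obtain ⟨a3, b3⟩ := γ.int_zero g i (IsCl.const (E0 m)) (fun _ _ => rfl)
      (fun x => (γ.u3_grad f x).1) (fun x k => by
        unfold Tor.u3
        rw [(γ.D_per f x k).1, (γ.D_per f x k).2]) (fun x hx => by
        unfold Tor.u3
        rw [hx]
        norm_num) (fun x hx => by
        unfold Tor.u3
        rw [hx]
        norm_num) (γ.u3_cont f)
    have h4 : ∀ x, γ.R f g x = bl (fun j => γ.W (g j) x) i (grad (γ.u1 f) x) (γ.lam f.1 x) -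
        I * bl (fun j => γ.W (g j) x) i (grad (γ.u2 f) x) (γ.ag f.1 x) -
        3 * I * bl (fun j => γ.W (g j) x) i (grad (γ.u3 f) x) (E0 m) := by
      intro x
      have h5 : γ.R f g x = bl (fun j => γ.W (g j) x) i (γ.rw1 f x) (γ.W f.1 x) := by
        rw [bl_apply]
        unfold Tor.R
        congr 2
        funext j
        by_cases h : j = i
        · subst h
          rw [Function.update_self, hi]
        · rw [Function.update_of_ne h]
      rw [h5, (γ.u1_grad f x).2, (γ.u2_grad f x).2, (γ.u3_grad f x).2]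
      unfold Tor.rw1 Tor.W
      rw [γ.lam_co, γ.ag_co]
      exact key_id _ (bl_self _ _) (E0 m) (γ.lam f.1 x) (γ.ag f.1 x) _ _ _ _ _ _ _
    simp only [h4]
    have c2 := b2.const_mul I
    have c3 := b3.const_mul (3 * I)
    rw [int3 b1 c2 c3, integral_const_mul, integral_const_mul, a1, a2, a3]
    ring
  rw [hz]
  simp

theorem Tor.int_R (f : Pt A) (g : Fin m → Aˣ) : IntegrableOn (γ.R f g) (bx m) :=
  (γ.cont_R f g).continuousOn.integrableOn_compact isCompact_Icc

theorem Tor.W_row (g : Fin m → Aˣ) (i : Fin m) (a : Aˣ) (x : Fin (m + 1) → ℝ) :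
    (fun j => γ.W (Function.update g i a j) x) = Function.update (fun j => γ.W (g j) x) i
      (γ.W a x) := by
  funext j
  by_cases h : j = i
  · subst h
    rw [Function.update_self, Function.update_self]
  · rw [Function.update_of_ne h, Function.update_of_ne h]

theorem Tor.rw1_five {x y a b c : Pt A} (h : Five x y a b c) (t : Fin (m + 1) → ℝ) :
    γ.rw1 x t - γ.rw1 y t + γ.rw1 a t - γ.rw1 b t + γ.rw1 c t = 0 := by
  obtain ⟨ha, hb, hc⟩ := h
  -- the relations between units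
  have ra : a.1 * x.1 = y.1 := Units.ext (by rw [Units.val_mul]; exact ha)
  have rb : b.1 * (x.1 * y.co) = x.co * y.1 := by
    ext1
    simp only [Units.val_mul]
    show (b.1 : A) * (x.1 * (1 - y.1)) = (1 - x.1) * y.1
    linear_combination -hb
  have rc : c.1 * y.co = x.co := by
    ext1
    simp only [Units.val_mul]
    show (c.1 : A) * (1 - y.1) = 1 - x.1
    exact hc
  set n : Aˣ := a.co * x.1 with hn
  have rb' : b.co * (x.1 * y.co) = n := by
    rw [hn]
    ext1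
    simp only [Units.val_mul]
    show (1 - (b.1 : A)) * (x.1 * (1 - y.1)) = (1 - a.1) * x.1
    linear_combination hb + ha
  have rc' : c.co * y.co = n := by
    rw [hn]
    ext1
    simp only [Units.val_mul]
    show (1 - (c.1 : A)) * (1 - y.1) = (1 - a.1) * x.1
    linear_combination -hc + ha
  have va : γ.G a.1 t = γ.G y.1 t / γ.G x.1 t := by
    rw [eq_div_iff (γ.G_ne _ _)]
    unfold Tor.G
    rw [← map_mul, ha]
  have hy1 : γ.G y.1 t - 1 ≠ 0 := sub_ne_zero.2 (γ.G_ne_one y t)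
  have hx1 : γ.G x.1 t - 1 ≠ 0 := sub_ne_zero.2 (γ.G_ne_one x t)
  have hy2 : 1 - γ.G y.1 t ≠ 0 := sub_ne_zero.2 (Ne.symm (γ.G_ne_one y t))
  have vb : γ.G b.1 t = (γ.G x.1 t - 1) * γ.G y.1 t / (γ.G x.1 t * (γ.G y.1 t - 1)) := by
    rw [eq_div_iff (mul_ne_zero (γ.G_ne _ _) hy1)]
    have := congrArg (γ.e (tl m t)) hb
    unfold Tor.G
    simpa only [map_mul, map_sub, map_one] using this
  have vc : γ.G c.1 t = (1 - γ.G x.1 t) / (1 - γ.G y.1 t) := by
    rw [eq_div_iff hy2]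
    have := congrArg (γ.e (tl m t)) hc
    unfold Tor.G
    simpa only [map_mul, map_sub, map_one] using this
  have hxy : γ.G x.1 t ≠ γ.G y.1 t := by
    intro h
    apply γ.G_ne_one a t
    rw [va, h, div_self (γ.G_ne _ _)]
  have hfive := five_zero (γ.G_ne x.1 t) (γ.G_ne_one x t) (γ.G_ne y.1 t) (γ.G_ne_one y t) hxy
  unfold five at hfive
  rw [← va, ← vb, ← vc] at hfive
  have la : γ.lam a.1 t = γ.lam y.1 t - γ.lam x.1 t := by
    rw [← ra]
    unfold Tor.lam
    rw [γ.ld_mul]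
    funext i
    simp
  have la' : γ.ln a.1 t = γ.ln y.1 t - γ.ln x.1 t := by
    rw [← ra, γ.ln_mul]; ring
  have lm : ∀ (g h : Aˣ), γ.lam (g * h) t = γ.lam g t + γ.lam h t := by
    intro g h
    unfold Tor.lam
    rw [γ.ld_mul]
    funext i
    simp
  have ka : γ.lam a.co t = γ.lam n t - γ.lam x.1 t := by
    rw [hn, lm]; abel
  have ka' : γ.ln a.co t = γ.ln n t - γ.ln x.1 t := by
    rw [hn, γ.ln_mul]; ring
  have lb : γ.lam b.1 t = γ.lam x.co t + γ.lam y.1 t - γ.lam x.1 t - γ.lam y.co t := by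
    have h := congrArg (fun u => γ.lam u t) rb
    simp only [lm] at h
    rw [← h]
    abel
  have lb' : γ.ln b.1 t = γ.ln x.co t + γ.ln y.1 t - γ.ln x.1 t - γ.ln y.co t := by
    have h := congrArg (fun u => γ.ln u t) rb
    simp only [γ.ln_mul] at h
    linear_combination h
  have kb : γ.lam b.co t = γ.lam n t - γ.lam x.1 t - γ.lam y.co t := by
    have h := congrArg (fun u => γ.lam u t) rb'
    simp only [lm] at h
    rw [← h]
    abel
  have kb' : γ.ln b.co t = γ.ln n t - γ.ln x.1 t - γ.ln y.co t := by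
    have h := congrArg (fun u => γ.ln u t) rb'
    simp only [γ.ln_mul] at h
    linear_combination h
  have lc : γ.lam c.1 t = γ.lam x.co t - γ.lam y.co t := by
    have h := congrArg (fun u => γ.lam u t) rc
    simp only [lm] at h
    rw [← h]
    abel
  have lc' : γ.ln c.1 t = γ.ln x.co t - γ.ln y.co t := by
    have h := congrArg (fun u => γ.ln u t) rc
    simp only [γ.ln_mul] at h
    linear_combination h
  have kc : γ.lam c.co t = γ.lam n t - γ.lam y.co t := by
    have h := congrArg (fun u => γ.lam u t) rc'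
    simp only [lm] at h
    rw [← h]
    abel
  have kc' : γ.ln c.co t = γ.ln n t - γ.ln y.co t := by
    have h := congrArg (fun u => γ.ln u t) rc'
    simp only [γ.ln_mul] at h
    linear_combination h
  have hfive' : (D (γ.G x.1 t) : ℂ) - D (γ.G y.1 t) + D (γ.G a.1 t) - D (γ.G b.1 t) +
      D (γ.G c.1 t) = 0 := by exact_mod_cast hfive
  unfold Tor.rw1
  rw [la, la', ka, ka', lb, lb', kb, kb', lc, lc', kc, kc']
  funext i
  simp only [Pi.add_apply, Pi.sub_apply, Pi.smul_apply, smul_eq_mul, Pi.zero_apply]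
  push_cast
  linear_combination (I * E0 m i) * hfive'

theorem Tor.reg_of_mem {s : FS A m} (hs : s ∈ Rels A m) : γ.reg s = 0 := by
  have hle : Rels A m ≤ LinearMap.ker γ.reg := by
    unfold Rels
    rw [Submodule.span_le]
    rintro s (((⟨f, g, i, a, b, rfl⟩ | ⟨f, g, i, j, hij, he, rfl⟩) | ⟨x, y, a, b, c, g, h5, rfl⟩) |
      ⟨f, g, i, hi, rfl⟩)
    · rw [SetLike.mem_coe, LinearMap.mem_ker, map_sub, map_sub, γ.reg_br, γ.reg_br, γ.reg_br]
      have h1 : ∫ x in bx m, γ.R f (Function.update g i (a * b)) x =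
          (∫ x in bx m, γ.R f (Function.update g i a) x) +
          ∫ x in bx m, γ.R f (Function.update g i b) x := by
        rw [← integral_add (γ.int_R _ _) (γ.int_R _ _)]
        refine integral_congr_ae (Eventually.of_forall fun x => ?_)
        show γ.R f (Function.update g i (a * b)) x = γ.R f (Function.update g i a) x +
          γ.R f (Function.update g i b) x
        unfold Tor.R
        rw [γ.W_row, γ.W_row, γ.W_row, γ.W_mul, Fin.cons_update, Fin.cons_update, Fin.cons_update,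
          dt_upd_add]
      rw [h1, Complex.add_im]
      ring
    · rw [SetLike.mem_coe, LinearMap.mem_ker, γ.reg_br]
      have h1 : ∀ x, γ.R f g x = 0 := by
        intro x
        unfold Tor.R
        refine dt_zero_of_eq _ (i := i.succ) (j := j.succ) ?_ fun h => hij (Fin.succ_injective _ h)
        rw [Fin.cons_succ, Fin.cons_succ, he]
      simp only [h1, integral_zero, Complex.zero_im, mul_zero]
    · rw [SetLike.mem_coe, LinearMap.mem_ker, map_add, map_sub, map_add, map_sub, γ.reg_br,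
        γ.reg_br, γ.reg_br, γ.reg_br, γ.reg_br]
      have h1 : (∫ t in bx m, γ.R x g t) - (∫ t in bx m, γ.R y g t) + (∫ t in bx m, γ.R a g t) -
          (∫ t in bx m, γ.R b g t) + (∫ t in bx m, γ.R c g t) = 0 := by
        rw [← int5 (γ.int_R _ _) (γ.int_R _ _) (γ.int_R _ _) (γ.int_R _ _) (γ.int_R _ _)]
        refine integral_eq_zero_of_ae (Eventually.of_forall fun t => ?_)
        show γ.R x g t - γ.R y g t + γ.R a g t - γ.R b g t + γ.R c g t = 0
        have h2 := γ.rw1_five h5 t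
        have h3 : ∀ v v' : Fin (m + 1) → ℂ, dt (Fin.cons (v - v') fun j => γ.W (g j) t) =
            dt (Fin.cons v fun j => γ.W (g j) t) - dt (Fin.cons v' fun j => γ.W (g j) t) := by
          intro v v'
          have : v - v' = v + (-1 : ℂ) • v' := by
            rw [neg_one_smul, sub_eq_add_neg]
          rw [this, dt_cons_add, dt_cons_smul]
          ring
        unfold Tor.R
        rw [← h3, ← dt_cons_add, ← h3, ← dt_cons_add, h2]
        have h4 : (0 : Fin (m + 1) → ℂ) = (0 : ℂ) • 0 := by rw [zero_smul]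
        rw [h4, dt_cons_smul, zero_mul]
      have h2 := congrArg Complex.im h1
      simp only [Complex.add_im, Complex.sub_im, Complex.zero_im] at h2
      linear_combination (1 / 2 : ℝ) * h2
    · rw [SetLike.mem_coe, LinearMap.mem_ker]
      exact γ.reg_steinberg f g i hi
  exact hle hs

/-- A cocycle with nonzero regulator has a nonzero class. -/
theorem Tor.not_mem {s : FS A m} (h : γ.reg s ≠ 0) : s ∉ Rels A m := fun hs => h (γ.reg_of_mem hs)

end reg

end Pool.Agent.P8H1.PD
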