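import Pool.Agent.P8H1.PD.Defs
import Pool.Agent.N65.TK.Alg
set_option autoImplicit false

/-!
The element `alpha` is a cocycle.
-/

namespace Pool.Agent.P8H1.PD

open scoped TensorProduct WithZero
open Pool.Agent.N65.TK (Pt UQ tu tu_mul tu_one tu_inv tu_zpow tu_pow tu_torsion tu_prod tu_co_inv)

section alt

variable {V W : Type*} [AddCommGroup V] [Module ℚ V] [AddCommGroup W] [Module ℚ W] {m : ℕ}

/-- The alternating map as a function of the first vector. -/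
def cl (φ : V [⋀^Fin (m + 1)]→ₗ[ℚ] W) (w : Fin m → V) : V →ₗ[ℚ] W where
  toFun v := φ (Fin.cons v w)
  map_add' v v' := MultilinearMap.cons_add φ.toMultilinearMap w v v'
  map_smul' c v := MultilinearMap.cons_smul φ.toMultilinearMap w c v

theorem cl_apply (φ : V [⋀^Fin (m + 1)]→ₗ[ℚ] W) (w : Fin m → V) (v : V) :
    cl φ w v = φ (Fin.cons v w) := rfl

theorem alt_cons (φ : V [⋀^Fin (m + 1)]→ₗ[ℚ] W) (v : V) (w : Fin m → V) :
    φ.curryLeft v w = φ (Fin.cons v w) := rfl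

theorem alt_ins (φ : V [⋀^Fin (m + 1)]→ₗ[ℚ] W) (X : Fin (m + 1) → V) (i : Fin (m + 1)) :
    φ (Fin.cons (X i) fun l => X (i.succAbove l)) = ((-1) ^ (i : ℕ) : ℚ) • φ X := by
  have h2 := AlternatingMap.neg_one_pow_smul_map_insertNth φ i (X i) (i.removeNth X)
  rw [Fin.insertNth_self_removeNth, ← Int.cast_smul_eq_zsmul ℚ] at h2
  push_cast at h2
  exact h2.symm

theorem alt_comb (φ : V [⋀^Fin (m + 1)]→ₗ[ℚ] W) (a : Fin (m + 1) → ℚ) (X : Fin (m + 1) → V)
    (i : Fin (m + 1)) : φ (Fin.cons (∑ k, a k • X k) fun k => X (i.succAbove k)) =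
      (a i * (-1) ^ (i : ℕ)) • φ X := by
  rw [← cl_apply, map_sum, Finset.sum_eq_single i]
  · rw [map_smul, cl_apply, alt_ins, smul_smul]
  · intro k _ hk
    obtain ⟨l, hl⟩ := Fin.exists_succAbove_eq hk
    rw [map_smul, cl_apply]
    have h2 : φ (Fin.cons (X k) fun l => X (i.succAbove l)) = 0 := by
      refine AlternatingMap.map_eq_zero_of_eq φ _ (i := 0) (j := l.succ) ?_ (Fin.succ_ne_zero l).symm
      rw [Fin.cons_zero, Fin.cons_succ, hl]
    rw [h2, smul_zero]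
  · intro h
    exact absurd (Finset.mem_univ i) h

theorem alt_zero (φ : V [⋀^Fin (m + 2)]→ₗ[ℚ] W) (a : Fin (m + 1) → ℚ) (X : Fin (m + 1) → V) :
    φ (Fin.cons (∑ k, a k • X k) X) = 0 := by
  rw [← cl_apply, map_sum]
  refine Finset.sum_eq_zero fun k _ => ?_
  rw [map_smul, cl_apply]
  have h2 : φ (Fin.cons (X k) X) = 0 := by
    refine AlternatingMap.map_eq_zero_of_eq φ _ (i := 0) (j := k.succ) ?_ (Fin.succ_ne_zero k).symm
    rw [Fin.cons_zero, Fin.cons_succ]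
  rw [h2, smul_zero]

end alt

section curve

variable {K : Type*} [Field K] {N r : ℕ} {C : Dat K N r}

theorem mo_mul (a b : Kˣ) (k l : Fin N → ℤ) : mo (a * b) (k + l) = mo a k * mo b l := by
  ext1
  show AddMonoidAlgebra.single (k + l) ((a * b : Kˣ) : K) =
    AddMonoidAlgebra.single k (a : K) * AddMonoidAlgebra.single l (b : K)
  rw [AddMonoidAlgebra.single_mul_single]
  rfl

theorem mn_mul (a b : Kˣ) (k l : Fin N → ℤ) : C.mn (a * b) (k + l) = C.mn a k * C.mn b l := by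
  unfold Dat.mn
  rw [mo_mul, map_mul]

theorem mn_one : C.mn 1 0 = 1 := by
  have h := mn_mul (C := C) 1 1 0 0
  rw [mul_one, add_zero] at h
  exact (mul_eq_left.1 h.symm)

theorem mn_zpow (a : Kˣ) (k : Fin N → ℤ) (n : ℤ) : C.mn a k ^ n = C.mn (a ^ n) (n • k) := by
  induction n using Int.induction_on with
  | zero => simp [mn_one]
  | succ i ih =>
    rw [zpow_add_one, ih, ← mn_mul, ← zpow_add_one]
    congr 1
    rw [add_smul, one_smul]
  | pred i ih =>
    rw [zpow_sub_one, ih, mul_inv_eq_iff_eq_mul, ← mn_mul, ← zpow_add_one]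
    congr 1
    · congr 1
      ring
    · rw [sub_smul, one_smul, sub_add_cancel]

theorem mn_sum {ι : Type*} (s : Finset ι) (k : ι → Fin N → ℤ) :
    C.mn 1 (∑ i ∈ s, k i) = ∏ i ∈ s, C.mn 1 (k i) := by
  classical
  induction s using Finset.induction_on with
  | empty => simp [mn_one]
  | insert i s hi ih =>
    rw [Finset.sum_insert hi, Finset.prod_insert hi, ← ih, ← mn_mul, mul_one]

theorem mn_x (k : Fin N → ℤ) : C.mn 1 k = ∏ i, C.x i ^ k i := by
  have h1 : k = ∑ i, k i • (Pi.single i 1 : Fin N → ℤ) := by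
    funext l
    simp [Finset.sum_apply, Pi.single_apply]
  conv_lhs => rw [h1]
  rw [mn_sum]
  refine Finset.prod_congr rfl fun i _ => ?_
  unfold Dat.x
  rw [mn_zpow, one_zpow]

theorem mn_eq (a : Kˣ) (k : Fin N → ℤ) : C.mn a k = C.mn a 0 * ∏ i, C.x i ^ k i := by
  rw [← mn_x, ← mn_mul, mul_one, zero_add]

theorem mn_tors {a : Kˣ} {M : ℕ} (ha : a ^ M = 1) : C.mn a 0 ^ M = 1 := by
  have := mn_zpow (C := C) a 0 M
  rw [zpow_natCast, zpow_natCast, ha, smul_zero, mn_one] at this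
  exact this

theorem tu_mn {a : Kˣ} {M : ℕ} (hM : 0 < M) (ha : a ^ M = 1) (k : Fin N → ℤ) :
    tu (C.mn a k) = ∑ i, (k i : ℚ) • tu (C.x i) := by
  rw [mn_eq, tu_mul, tu_torsion hM (mn_tors ha), zero_add, tu_prod]
  refine Finset.sum_congr rfl fun i _ => ?_
  rw [tu_zpow]

theorem mn_pow (a : Kˣ) (k : Fin N → ℤ) (n : ℕ) : C.mn a k ^ n = C.mn (a ^ n) ((n : ℤ) • k) := by
  have h := mn_zpow (C := C) a k n
  rwa [zpow_natCast, zpow_natCast] at h

theorem mn_prod {ι : Type*} (s : Finset ι) (a : ι → Kˣ) (k : ι → Fin N → ℤ) :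
    ∏ i ∈ s, C.mn (a i) (k i) = C.mn (∏ i ∈ s, a i) (∑ i ∈ s, k i) := by
  classical
  induction s using Finset.induction_on with
  | empty => simp [mn_one]
  | insert i s hi ih =>
    rw [Finset.prod_insert hi, Finset.prod_insert hi, Finset.sum_insert hi, ih, mn_mul]

theorem mn_neg (a : Kˣ) (k : Fin N → ℤ) : C.mn (-a) k = -C.mn a k := by
  have h1 : (mo (-a) k : (LP K N)ˣ) = -mo a k := by
    ext1
    show AddMonoidAlgebra.single k ((-a : Kˣ) : K) = -AddMonoidAlgebra.single k (a : K)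
    rw [Units.val_neg, AddMonoidAlgebra.single_neg]
  unfold Dat.mn
  rw [h1]
  ext1
  show C.proj ((-mo a k : (LP K N)ˣ) : LP K N) = -C.proj ((mo a k : (LP K N)ˣ) : LP K N)
  rw [Units.val_neg, map_neg]

theorem prod_eq_one (hC : C.Admissible) :
    ∏ j, ((1 - (C.mn (C.ε j) (C.a j) : C.Ring)) *
      (1 - ((C.mn (C.ε j) (C.a j))⁻¹ : C.Ringˣ))) ^ C.n j = 1 := by
  have h1 : ∀ j, ((1 - (C.mn (C.ε j) (C.a j) : C.Ring)) *
      (1 - ((C.mn (C.ε j) (C.a j))⁻¹ : C.Ringˣ))) ^ C.n j =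
      ((1 - (C.mn (C.ε j) (C.a j) : C.Ring)) ^ C.n j) ^ 2 *
        (((-C.mn (C.ε j) (C.a j)) ^ C.n j)⁻¹ : C.Ringˣ) := by
    intro j
    have h2 := (C.mn (C.ε j) (C.a j)).mul_inv
    rw [← inv_pow, Units.val_pow_eq_pow_val, ← pow_mul, mul_comm (C.n j) 2, pow_mul, ← mul_pow,
      inv_neg, Units.val_neg]
    congr 1
    linear_combination (-(1 - (C.mn (C.ε j) (C.a j) : C.Ring))) * h2
  rw [Finset.prod_congr rfl fun j _ => h1 j, Finset.prod_mul_distrib, Finset.prod_pow, C.prod_eq,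
    ← Units.coe_prod]
  have h3 : ∏ j, ((-C.mn (C.ε j) (C.a j)) ^ C.n j)⁻¹ = (C.mn C.c C.b ^ 2)⁻¹ := by
    rw [Finset.prod_inv_distrib]
    congr 1
    have h4 : ∀ j, (-C.mn (C.ε j) (C.a j)) ^ C.n j =
        C.mn ((-C.ε j) ^ C.n j) ((C.n j : ℤ) • C.a j) := by
      intro j
      rw [← mn_neg, mn_pow]
    rw [Finset.prod_congr rfl fun j _ => h4 j, mn_prod, mn_pow, ← hC.coeff]
    congr 1
    funext k
    rw [Finset.sum_apply]
    show ∑ j, (C.n j : ℤ) * C.a j k = ((2 : ℕ) : ℤ) * C.b k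
    rw [← hC.expo k]
    push_cast
    rfl
  rw [h3, ← Units.val_pow_eq_pow_val, Units.mul_inv]

theorem unit_inv (hC : C.Admissible) (j : Fin r) :
    IsUnit (1 - ((((Dat.pt hC j).1)⁻¹ : C.Ringˣ) : C.Ring)) := by
  have h1 := prod_eq_one hC
  rw [← Finset.mul_prod_erase Finset.univ _ (Finset.mem_univ j)] at h1
  have h2 := IsUnit.of_mul_eq_one _ h1
  rw [isUnit_pow_iff (hC.pos j).ne'] at h2
  exact isUnit_of_mul_isUnit_right h2

theorem sum_rel (hC : C.Admissible) :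
    ∑ j, (C.n j : ℚ) • tu (Dat.pt hC j).co =
      ∑ i, (1 / 2 * ∑ j, (C.n j : ℚ) * C.a j i) • tu (C.x i) := by
  choose g hg using unit_inv hC
  have h2 : ∏ j, ((Dat.pt hC j).co * g j) ^ C.n j = 1 := by
    ext1
    rw [Units.coe_prod, Units.val_one]
    rw [← prod_eq_one hC]
    refine Finset.prod_congr rfl fun j _ => ?_
    rw [Units.val_pow_eq_pow_val, Units.val_mul, hg]
    rfl
  have h3 := congrArg tu h2
  rw [tu_prod, tu_one] at h3
  have h4 : ∀ j, tu (((Dat.pt hC j).co * g j) ^ C.n j) =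
      (2 : ℚ) • ((C.n j : ℚ) • tu (Dat.pt hC j).co) -
        ∑ i, ((C.n j : ℚ) * C.a j i) • tu (C.x i) := by
    intro j
    obtain ⟨M, hM, hM'⟩ := hC.tors j
    have h5 : tu (Dat.pt hC j).1 = ∑ i, (C.a j i : ℚ) • tu (C.x i) := tu_mn hM hM' _
    have h6 : ∑ i, ((C.n j : ℚ) * C.a j i) • tu (C.x i) =
        (C.n j : ℚ) • ∑ i, (C.a j i : ℚ) • tu (C.x i) := by
      rw [Finset.smul_sum]
      refine Finset.sum_congr rfl fun i _ => ?_
      rw [smul_smul]
    rw [tu_pow, tu_mul, tu_co_inv (Dat.pt hC j) (hg j), h5, h6]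
    module
  rw [Finset.sum_congr rfl fun j _ => h4 j, Finset.sum_sub_distrib, ← Finset.smul_sum,
    sub_eq_zero] at h3
  have h7 : ∑ i, (1 / 2 * ∑ j, (C.n j : ℚ) * C.a j i) • tu (C.x i) =
      (1 / 2 : ℚ) • ∑ j, ∑ i, ((C.n j : ℚ) * C.a j i) • tu (C.x i) := by
    rw [Finset.sum_comm, Finset.smul_sum]
    refine Finset.sum_congr rfl fun i _ => ?_
    rw [mul_smul, Finset.sum_smul]
  rw [h7, ← h3, smul_smul]
  norm_num

theorem a_ne {m : ℕ} {C : Dat K (m + 1) r} (hC : C.Admissible) (j : Fin r) : C.a j ≠ 0 := by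
  intro h
  by_cases hi : ∃ i, i ≠ j
  · obtain ⟨i, hi⟩ := hi
    have := (hC.indep i j hi).ne_zero 1
    exact this h
  · push Not at hi
    have h1 := hC.span
    have h2 : Set.range (fun j k => (C.a j k : ℚ)) ⊆ {0} := by
      rintro _ ⟨i, rfl⟩
      rw [hi i, Set.mem_singleton_iff]
      funext k
      show ((C.a j k : ℤ) : ℚ) = 0
      rw [h]
      simp
    have h3 := Submodule.span_mono (R := ℚ) h2
    rw [h1, Submodule.span_zero_singleton, top_le_iff] at h3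
    have h4 : (fun _ => 1 : Fin (m + 1) → ℚ) ∈ (⊥ : Submodule ℚ (Fin (m + 1) → ℚ)) := by
      rw [h3]
      trivial
    rw [Submodule.mem_bot] at h4
    have := congrFun h4 0
    simp at this

theorem sq_ne {m : ℕ} {C : Dat K (m + 1) r} (hC : C.Admissible) (j : Fin r) :
    0 < ∑ k, C.a j k ^ 2 := by
  have h1 : 0 ≤ ∑ k, C.a j k ^ 2 := Finset.sum_nonneg fun k _ => sq_nonneg _
  refine lt_of_le_of_ne h1 fun h => a_ne hC j ?_
  funext k
  have h2 := (Finset.sum_eq_zero_iff_of_nonneg fun k _ => sq_nonneg (C.a j k)).1 h.symm k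
    (Finset.mem_univ k)
  exact pow_eq_zero_iff (two_ne_zero) |>.1 h2

theorem sq_ne' {m : ℕ} {C : Dat K (m + 1) r} (hC : C.Admissible) (j : Fin r) :
    (0 : ℚ) < ∑ k, (C.a j k : ℚ) ^ 2 := by
  have h := sq_ne hC j
  have h2 : ((∑ k, C.a j k ^ 2 : ℤ) : ℚ) = ∑ k, (C.a j k : ℚ) ^ 2 := by push_cast; rfl
  rw [← h2]
  exact_mod_cast h

theorem dif_alpha {m : ℕ} {C : Dat K (m + 1) r} (hC : C.Admissible) :
    dif C.Ring m (Dat.alpha hC) = 0 := by
  unfold Dat.alpha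
  rw [map_sum]
  set X : Fin (m + 1) → UQ C.Ring := fun i => tu (C.x i) with hX
  have h1 : ∀ j, dif C.Ring m (∑ i : Fin (m + 1), ((-1) ^ (i : ℕ) * (C.n j * C.a j i : ℚ) /
      ∑ k, (C.a j k : ℚ) ^ 2) • br (Dat.pt hC j) fun k => C.x (i.succAbove k)) =
      cl (al C.Ring m) X ((C.n j : ℚ) • tu (Dat.pt hC j).co) := by
    intro j
    obtain ⟨M, hM, hM'⟩ := hC.tors j
    have h5 : tu (Dat.pt hC j).1 = ∑ i, (C.a j i : ℚ) • X i := tu_mn hM hM' _
    rw [map_sum]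
    have h6 : ∀ i : Fin (m + 1), dif C.Ring m (((-1) ^ (i : ℕ) * (C.n j * C.a j i : ℚ) /
      ∑ k, (C.a j k : ℚ) ^ 2) • br (Dat.pt hC j) fun k => C.x (i.succAbove k)) =
        ((C.n j : ℚ) * (C.a j i : ℚ) ^ 2 / ∑ k, (C.a j k : ℚ) ^ 2) •
          cl (al C.Ring m) X (tu (Dat.pt hC j).co) := by
      intro i
      rw [map_smul]
      unfold br dif
      rw [Finsupp.linearCombination_single, one_smul]
      simp only []
      rw [h5]
      have h7 := alt_comb ((al C.Ring m).curryLeft (tu (Dat.pt hC j).co))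
        (fun k => (C.a j k : ℚ)) X i
      rw [alt_cons] at h7
      have h8 : al C.Ring m (Fin.cons (tu (Dat.pt hC j).co)
          (Fin.cons (∑ i, (C.a j i : ℚ) • X i) fun k => tu (C.x (i.succAbove k)))) = _ := h7
      rw [h8, smul_smul, alt_cons, cl_apply]
      congr 1
      have h9 : ((-1 : ℚ) ^ (i : ℕ)) * (-1) ^ (i : ℕ) = 1 := by
        rw [← mul_pow]
        simp
      linear_combination ((C.n j : ℚ) * (C.a j i : ℚ) ^ 2 / ∑ k, (C.a j k : ℚ) ^ 2) * h9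
    rw [Finset.sum_congr rfl fun i _ => h6 i, ← Finset.sum_smul, map_smul]
    congr 1
    rw [← Finset.sum_div, ← Finset.mul_sum, mul_div_assoc, div_self (sq_ne' hC j).ne', mul_one]
  rw [Finset.sum_congr rfl fun j _ => h1 j, ← map_sum, sum_rel hC, cl_apply]
  exact alt_zero _ _ _

end curve

end Pool.Agent.P8H1.PD
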