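import Pool.Agent.N65.TK.Ray
set_option autoImplicit false

/-!
The level set of a sum of the functions `n_j log (2 sin (θ_j / 2))`, `θ_j` affine functions on `ℝ^N`,
in polar coordinates.
-/

namespace Pool.Agent.P8H1.PD

open Set Filter Topology Real
open Pool.Agent.N65.TK (Ls sin_half_pos hasDerivAt_Ls Ls_le_tangent)

section ray

variable {N r : ℕ} (e : Fin r → ℝ) (a : Fin r → Fin N → ℝ) (n : Fin r → ℕ)

/-- the scalar product -/
def dp (x y : Fin N → ℝ) : ℝ := ∑ k, x k * y k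

/-- the angle `θ_j` -/
noncomputable def th (j : Fin r) (φ : Fin N → ℝ) (ρ : ℝ) : ℝ := e j + ρ * dp (a j) φ

/-- the sum of the logarithms -/
noncomputable def Hs (φ : Fin N → ℝ) (ρ : ℝ) : ℝ := ∑ j, n j * Ls (th e a j φ ρ)

/-- the product -/
noncomputable def Pr (φ : Fin N → ℝ) (ρ : ℝ) : ℝ := ∏ j, (2 * Real.sin (th e a j φ ρ / 2)) ^ n j

/-- the chamber -/
def Ch (φ : Fin N → ℝ) (ρ : ℝ) : Prop := ∀ j, 0 < th e a j φ ρ ∧ th e a j φ ρ < 2 * π

variable {e a n}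

theorem exp_Hs {φ : Fin N → ℝ} {ρ : ℝ} (h : Ch e a φ ρ) : Real.exp (Hs e a n φ ρ) = Pr e a n φ ρ := by
  unfold Hs Pr
  rw [Real.exp_sum]
  refine Finset.prod_congr rfl fun j _ => ?_
  have hs := sin_half_pos (h j).1 (h j).2
  unfold Ls
  rw [Real.exp_nat_mul, Real.exp_log (by positivity)]

theorem th_zero (j : Fin r) (φ : Fin N → ℝ) : th e a j φ 0 = e j := by
  unfold th; ring

theorem Ch_zero (he : ∀ j, 0 < e j ∧ e j < 2 * π) (φ : Fin N → ℝ) : Ch e a φ 0 := by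
  intro j
  rw [th_zero]
  exact he j

theorem Ch_mul {φ : Fin N → ℝ} {ρ τ : ℝ} (he : ∀ j, 0 < e j ∧ e j < 2 * π) (h : Ch e a φ ρ) (h0 : 0 ≤ τ)
    (h1 : τ ≤ 1) : Ch e a φ (τ * ρ) := by
  intro j
  have h2 : th e a j φ (τ * ρ) = (1 - τ) * e j + τ * th e a j φ ρ := by
    unfold th; ring
  rw [h2]
  obtain ⟨h3, h4⟩ := h j
  obtain ⟨h5, h6⟩ := he j
  rcases eq_or_lt_of_le h0 with h7 | h7
  · rw [← h7]
    constructor <;> linarith
  · constructor
    · have := mul_pos h7 h3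
      nlinarith
    · have := mul_lt_mul_of_pos_left h4 h7
      nlinarith

theorem continuous_Pr (φ : Fin N → ℝ) : Continuous (Pr e a n φ) := by
  unfold Pr th
  fun_prop

theorem Hs_tangent {φ : Fin N → ℝ} {ρ ρ' : ℝ} (h : Ch e a φ ρ) (h' : Ch e a φ ρ') :
    Hs e a n φ ρ' ≤ Hs e a n φ ρ + (ρ' - ρ) * ∑ j, n j * (dp (a j) φ *
      (Real.cos (th e a j φ ρ / 2) / (2 * Real.sin (th e a j φ ρ / 2)))) := by
  unfold Hs
  rw [Finset.mul_sum, ← Finset.sum_add_distrib]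
  refine Finset.sum_le_sum fun j _ => ?_
  have h1 := Ls_le_tangent (h' j).1 (h' j).2 (h j).1 (h j).2
  have h2 : th e a j φ ρ' - th e a j φ ρ =
      (ρ' - ρ) * dp (a j) φ := by
    unfold th; ring
  rw [h2] at h1
  have h3 : (0 : ℝ) ≤ n j := Nat.cast_nonneg _
  have h4 := mul_le_mul_of_nonneg_left h1 h3
  linarith

variable (e a n) in
/-- the radius -/
noncomputable def rad (φ : Fin N → ℝ) : ℝ := sInf {ρ : ℝ | 0 ≤ ρ ∧ Pr e a n φ ρ ≤ 1}

/-- the conditions -/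
structure Cond (e : Fin r → ℝ) (a : Fin r → Fin N → ℝ) (n : Fin r → ℕ) : Prop where
  he : ∀ j, 0 < e j ∧ e j < 2 * π
  hn : ∀ j, 0 < n j
  span : ∀ φ : Fin N → ℝ, φ ≠ 0 → ∃ j, dp (a j) φ ≠ 0
  pos : 0 < ∑ j, n j * Ls (e j)

variable (hc : Cond e a n)

include hc

theorem Cond.Hs_zero (φ : Fin N → ℝ) : 0 < Hs e a n φ 0 := by
  unfold Hs
  simp only [th_zero]
  exact hc.pos

theorem Cond.nonempty {φ : Fin N → ℝ} (hφ : φ ≠ 0) : {ρ : ℝ | 0 ≤ ρ ∧ Pr e a n φ ρ ≤ 1}.Nonempty := by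
  obtain ⟨j, hj⟩ := hc.span φ hφ
  obtain ⟨h1, h2⟩ := hc.he j
  set c := dp (a j) φ with hcc
  obtain ⟨ρ, h0, hρ⟩ : ∃ ρ : ℝ, 0 ≤ ρ ∧ Real.sin (th e a j φ ρ / 2) = 0 := by
    rcases lt_or_gt_of_ne hj with h | h
    · refine ⟨-e j / c, div_nonneg_of_nonpos (by linarith) h.le, ?_⟩
      have : th e a j φ (-e j / c) = 0 := by
        unfold th
        rw [← hcc]
        field_simp
        ring
      rw [this]
      simp
    · refine ⟨(2 * π - e j) / c, div_nonneg (by linarith) h.le, ?_⟩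
      have : th e a j φ ((2 * π - e j) / c) = 2 * π := by
        unfold th
        rw [← hcc]
        field_simp
        ring
      rw [this, mul_div_cancel_left₀ _ (by norm_num : (2 : ℝ) ≠ 0), Real.sin_pi]
  refine ⟨ρ, h0, ?_⟩
  have : Pr e a n φ ρ = 0 := by
    unfold Pr
    refine Finset.prod_eq_zero (Finset.mem_univ j) ?_
    rw [hρ, mul_zero, zero_pow (hc.hn j).ne']
  rw [this]
  exact zero_le_one

omit hc in
theorem Cond.isClosed (φ : Fin N → ℝ) : IsClosed {ρ : ℝ | 0 ≤ ρ ∧ Pr e a n φ ρ ≤ 1} :=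
  (isClosed_le continuous_const continuous_id).inter
    (isClosed_le (continuous_Pr φ) continuous_const)

omit hc in
theorem Cond.bddBelow (φ : Fin N → ℝ) : BddBelow {ρ : ℝ | 0 ≤ ρ ∧ Pr e a n φ ρ ≤ 1} :=
  ⟨0, fun _ h => h.1⟩

theorem Cond.rad_mem {φ : Fin N → ℝ} (hφ : φ ≠ 0) : 0 ≤ rad e a n φ ∧ Pr e a n φ (rad e a n φ) ≤ 1 :=
  (Cond.isClosed φ).csInf_mem (hc.nonempty hφ) (Cond.bddBelow φ)

theorem Cond.one_lt_Pr_zero (φ : Fin N → ℝ) : 1 < Pr e a n φ 0 := by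
  rw [← exp_Hs (Ch_zero hc.he φ)]
  exact Real.one_lt_exp_iff.2 (hc.Hs_zero φ)

theorem Cond.rad_pos {φ : Fin N → ℝ} (hφ : φ ≠ 0) : 0 < rad e a n φ := by
  obtain ⟨h0, h1⟩ := hc.rad_mem hφ
  refine lt_of_le_of_ne h0 fun h => ?_
  rw [← h] at h1
  exact absurd h1 (not_le.2 (hc.one_lt_Pr_zero φ))

theorem Cond.one_lt_of_lt {φ : Fin N → ℝ} {ρ : ℝ} (h0 : 0 ≤ ρ) (h1 : ρ < rad e a n φ) :
    1 < Pr e a n φ ρ := by
  by_contra hcon
  exact absurd (csInf_le (Cond.bddBelow φ) ⟨h0, not_lt.1 hcon⟩) (not_le.2 h1)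

theorem Cond.Pr_rad {φ : Fin N → ℝ} (hφ : φ ≠ 0) : Pr e a n φ (rad e a n φ) = 1 := by
  refine le_antisymm (hc.rad_mem hφ).2 ?_
  have hρ := hc.rad_pos hφ
  have h1 : Tendsto (Pr e a n φ) (𝓝[<] (rad e a n φ)) (𝓝 (Pr e a n φ (rad e a n φ))) :=
    ((continuous_Pr φ).tendsto _).mono_left nhdsWithin_le_nhds
  refine ge_of_tendsto h1 ?_
  have h2 : Ioo 0 (rad e a n φ) ∈ 𝓝[<] (rad e a n φ) := Ioo_mem_nhdsLT hρ
  filter_upwards [h2] with ρ hρ'
  exact (hc.one_lt_of_lt hρ'.1.le hρ'.2).le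

theorem Cond.Ch_of_le {φ : Fin N → ℝ} (hφ : φ ≠ 0) {ρ : ℝ} (h0 : 0 ≤ ρ) (h1 : ρ ≤ rad e a n φ) : Ch e a φ ρ := by
  have hpos : ∀ x, 0 ≤ x → x ≤ rad e a n φ → ∀ j, Real.sin (th e a j φ x / 2) ≠ 0 := by
    intro x hx0 hx1 j hs
    have h2 : Pr e a n φ x = 0 := by
      unfold Pr
      refine Finset.prod_eq_zero (Finset.mem_univ j) ?_
      rw [hs, mul_zero, zero_pow (hc.hn j).ne']
    rcases eq_or_lt_of_le hx1 with h | h
    · have := hc.Pr_rad hφ
      rw [← h, h2] at this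
      exact zero_ne_one this
    · have := hc.one_lt_of_lt hx0 h
      rw [h2] at this
      linarith
  intro j
  obtain ⟨h2, h3⟩ := hc.he j
  constructor
  · by_contra hcon
    rw [not_lt] at hcon
    set c := dp (a j) φ with hcc
    have h4 : e j + ρ * c ≤ 0 := hcon
    have ha0 : c < 0 := by
      by_contra h
      rw [not_lt] at h
      have := mul_nonneg h0 h
      linarith
    refine hpos (-e j / c) (div_nonneg_of_nonpos (by linarith) ha0.le) ?_ j ?_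
    · refine le_trans ?_ h1
      rw [div_le_iff_of_neg ha0]
      linarith
    · have : th e a j φ (-e j / c) = 0 := by
        unfold th
        rw [← hcc, div_mul_cancel₀ _ ha0.ne]
        ring
      rw [this]
      simp
  · by_contra hcon
    rw [not_lt] at hcon
    set c := dp (a j) φ with hcc
    have h4 : 2 * π ≤ e j + ρ * c := hcon
    have ha0 : 0 < c := by
      by_contra h
      rw [not_lt] at h
      have := mul_nonpos_of_nonneg_of_nonpos h0 h
      linarith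
    refine hpos ((2 * π - e j) / c) (div_nonneg (by linarith) ha0.le) ?_ j ?_
    · refine le_trans ?_ h1
      rw [div_le_iff₀ ha0]
      linarith
    · have : th e a j φ ((2 * π - e j) / c) = 2 * π := by
        unfold th
        rw [← hcc]
        field_simp
        ring
      rw [this, mul_div_cancel_left₀ _ (by norm_num : (2 : ℝ) ≠ 0), Real.sin_pi]

theorem Cond.Hs_rad {φ : Fin N → ℝ} (hφ : φ ≠ 0) : Hs e a n φ (rad e a n φ) = 0 := by
  have h := exp_Hs (n := n) (hc.Ch_of_le hφ (hc.rad_pos hφ).le le_rfl)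
  rw [hc.Pr_rad hφ] at h
  exact Real.exp_eq_one_iff _ |>.1 h

theorem Cond.Hs_pos {φ : Fin N → ℝ} (hφ : φ ≠ 0) {ρ : ℝ} (h0 : 0 ≤ ρ) (h1 : ρ < rad e a n φ) : 0 < Hs e a n φ ρ := by
  have h := exp_Hs (n := n) (hc.Ch_of_le hφ h0 h1.le)
  have h2 := hc.one_lt_of_lt h0 h1
  rw [← h] at h2
  exact Real.one_lt_exp_iff.1 h2

theorem Cond.eq_rad {φ : Fin N → ℝ} (hφ : φ ≠ 0) {ρ : ℝ} (h0 : 0 < ρ) (h1 : Ch e a φ ρ) (h2 : Hs e a n φ ρ = 0) :
    rad e a n φ = ρ := by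
  have h3 : rad e a n φ ≤ ρ := by
    refine csInf_le (Cond.bddBelow φ) ⟨h0.le, ?_⟩
    rw [← exp_Hs h1, h2, Real.exp_zero]
  refine le_antisymm h3 ?_
  have hR := hc.rad_pos hφ
  have hChR := hc.Ch_of_le hφ hR.le le_rfl
  have t1 := Hs_tangent (n := n) hChR (Ch_zero hc.he φ)
  have t2 := Hs_tangent (n := n) hChR h1
  rw [hc.Hs_rad hφ, zero_add] at t1 t2
  rw [h2] at t2
  have hz := hc.Hs_zero φ
  set S := ∑ j, n j * (dp (a j) φ *
      (Real.cos (th e a j φ (rad e a n φ) / 2) /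
        (2 * Real.sin (th e a j φ (rad e a n φ) / 2)))) with hS
  by_contra hcon
  rw [not_le] at hcon
  have hS0 : S < 0 := by
    by_contra h
    rw [not_lt] at h
    have := mul_nonneg hR.le h
    linarith
  have : (ρ - rad e a n φ) * S < 0 := mul_neg_of_pos_of_neg (by linarith) hS0
  linarith

theorem Cond.slope_neg {φ : Fin N → ℝ} (hφ : φ ≠ 0) : ∑ j, n j * (dp (a j) φ *
      (Real.cos (th e a j φ (rad e a n φ) / 2) /
        (2 * Real.sin (th e a j φ (rad e a n φ) / 2)))) < 0 := by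
  have hR := hc.rad_pos hφ
  have hChR := hc.Ch_of_le hφ hR.le le_rfl
  have t1 := Hs_tangent (n := n) hChR (Ch_zero hc.he φ)
  rw [hc.Hs_rad hφ, zero_add] at t1
  have hz := hc.Hs_zero φ
  by_contra h
  rw [not_lt] at h
  have := mul_nonneg hR.le h
  linarith

theorem Cond.contDiff_rad {φ : Fin N → ℝ} (hφ : φ ≠ 0) : ContDiffAt ℝ 2 (rad e a n) φ := by
  have hR := hc.rad_pos hφ
  have hCh := hc.Ch_of_le hφ hR.le le_rfl
  set f : (Fin N → ℝ) × ℝ → ℝ := fun p => Hs e a n p.1 p.2 with hf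
  have hcd : ContDiffAt ℝ 2 f (φ, rad e a n φ) := by
    rw [hf]
    unfold Hs Ls th dp
    refine ContDiffAt.sum fun j _ => ContDiffAt.mul contDiffAt_const ?_
    refine ContDiffAt.log (by fun_prop) ?_
    have := sin_half_pos (hCh j).1 (hCh j).2
    exact (mul_pos two_pos this).ne'
  have hder : HasDerivAt (fun ρ => f (φ, ρ)) (∑ j, n j * (dp (a j) φ *
      (Real.cos (th e a j φ (rad e a n φ) / 2) /
        (2 * Real.sin (th e a j φ (rad e a n φ) / 2))))) (rad e a n φ) := by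
    rw [hf]
    unfold Hs
    refine HasDerivAt.fun_sum fun j _ => ?_
    have h1 : HasDerivAt (fun ρ => th e a j φ ρ) (dp (a j) φ)
        (rad e a n φ) := by
      unfold th
      have := ((hasDerivAt_id (rad e a n φ)).mul_const
        (dp (a j) φ)).const_add (e j)
      simpa using this
    have h2 := (hasDerivAt_Ls (hCh j).1 (hCh j).2).comp (rad e a n φ) h1
    refine (h2.const_mul (n j : ℝ)).congr_deriv ?_
    ring
  have hinv : (fderiv ℝ f (φ, rad e a n φ) ∘L ContinuousLinearMap.inr ℝ (Fin N → ℝ) ℝ).IsInvertible := by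
    have h1 : HasFDerivAt f (fderiv ℝ f (φ, rad e a n φ)) (φ, rad e a n φ) :=
      (hcd.differentiableAt (by norm_num)).hasFDerivAt
    have h2 : HasDerivAt (fun ρ : ℝ => ((φ, ρ) : (Fin N → ℝ) × ℝ)) (0, 1) (rad e a n φ) :=
      (hasDerivAt_const _ _).prodMk (hasDerivAt_id _)
    have h3 := h1.comp_hasDerivAt _ h2
    have h4 := h3.unique hder
    have h5 : (fderiv ℝ f (φ, rad e a n φ) ∘L ContinuousLinearMap.inr ℝ (Fin N → ℝ) ℝ) 1 ≠ 0 := by
      show fderiv ℝ f (φ, rad e a n φ) (0, 1) ≠ 0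
      rw [h4]
      exact (hc.slope_neg hφ).ne
    set g := fderiv ℝ f (φ, rad e a n φ) ∘L ContinuousLinearMap.inr ℝ (Fin N → ℝ) ℝ with hg
    refine ⟨ContinuousLinearEquiv.unitsEquivAut ℝ (Units.mk0 (g 1) h5), ?_⟩
    ext
    simp
  set ψ := hcd.implicitFunction (by norm_num) hinv with hψ
  have hψc : ContDiffAt ℝ 2 ψ φ := hcd.contDiffAt_implicitFunction (by norm_num) hinv
  have hψ0 : ψ φ = rad e a n φ := hcd.implicitFunction_apply_self (by norm_num) hinv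
  have hψe := hcd.eventually_apply_implicitFunction (by norm_num) hinv
  refine hψc.congr_of_eventuallyEq ?_
  have hcont : ContinuousAt ψ φ := hψc.continuousAt
  have hpos : ∀ᶠ x in 𝓝 φ, 0 < ψ x := by
    have := hcont.tendsto
    rw [hψ0] at this
    exact this.eventually (lt_mem_nhds hR)
  have hch : ∀ᶠ x in 𝓝 φ, Ch e a x (ψ x) := by
    have h1 : ∀ j, ContinuousAt (fun x => th e a j x (ψ x)) φ := by
      intro j
      unfold th dp
      fun_prop
    unfold Ch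
    rw [eventually_all]
    intro j
    have h2 := (h1 j).tendsto
    rw [hψ0] at h2
    exact (h2.eventually (lt_mem_nhds (hCh j).1)).and (h2.eventually (gt_mem_nhds (hCh j).2))
  filter_upwards [hψe, hpos, hch, isOpen_ne.mem_nhds hφ] with x h1 h2 h3 h4
  refine hc.eq_rad h4 h2 h3 ?_
  have : f (x, ψ x) = f (φ, rad e a n φ) := h1
  rw [hf] at this
  simp only [] at this
  rw [this, hc.Hs_rad hφ]

end ray

end Pool.Agent.P8H1.PD
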