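import Pool.Agent.P8H1.PD.Stokes
set_option autoImplicit false

/-!
A smooth map of the torus `(ℝ/ℤ)^d` to `ℝ^(d+1) ∖ 0` of degree one, whose Jacobian does not change
sign.
-/

namespace Pool.Agent.P8H1.PD

open Set Filter Topology Real

section one

/-- `cos 2πs` -/
noncomputable def cc (s : ℝ) : ℝ := Real.cos (2 * π * s)

/-- a smooth function supported on the first half of the period -/
noncomputable def pp (s : ℝ) : ℝ := expNegInvGlue (Real.sin (2 * π * s))

/-- a smooth function supported on the second half of the period -/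
noncomputable def qq (s : ℝ) : ℝ := expNegInvGlue (-Real.sin (2 * π * s))

/-- the derivative -/
noncomputable def cc' (s : ℝ) : ℝ := -Real.sin (2 * π * s) * (2 * π)

/-- the derivative -/
noncomputable def pp' (s : ℝ) : ℝ :=
  deriv expNegInvGlue (Real.sin (2 * π * s)) * (Real.cos (2 * π * s) * (2 * π))

/-- the derivative -/
noncomputable def qq' (s : ℝ) : ℝ :=
  deriv expNegInvGlue (-Real.sin (2 * π * s)) * (-(Real.cos (2 * π * s) * (2 * π)))

theorem hlin (s : ℝ) : HasDerivAt (fun s : ℝ => 2 * π * s) (2 * π) s := by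
  simpa using (hasDerivAt_id s).const_mul (2 * π)

theorem hasDerivAt_cc (s : ℝ) : HasDerivAt cc (cc' s) s := (hlin s).cos

theorem hglue (x : ℝ) : HasDerivAt expNegInvGlue (deriv expNegInvGlue x) x :=
  ((expNegInvGlue.contDiff (n := 1)).differentiable (by norm_num) x).hasDerivAt

theorem hasDerivAt_pp (s : ℝ) : HasDerivAt pp (pp' s) s :=
  HasDerivAt.comp (h₂ := expNegInvGlue) s (hglue _) (hlin s).sin

theorem hasDerivAt_qq (s : ℝ) : HasDerivAt qq (qq' s) s :=
  HasDerivAt.comp (h₂ := expNegInvGlue) s (hglue _) (hlin s).sin.neg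

theorem contDiff_cc : ContDiff ℝ 2 cc := by
  unfold cc
  fun_prop

theorem contDiff_pp : ContDiff ℝ 2 pp := by
  have h : ContDiff ℝ 2 expNegInvGlue := expNegInvGlue.contDiff (n := 2)
  exact h.comp (by fun_prop)

theorem contDiff_qq : ContDiff ℝ 2 qq := by
  have h : ContDiff ℝ 2 expNegInvGlue := expNegInvGlue.contDiff (n := 2)
  exact h.comp (by fun_prop)

theorem cc_per (s : ℝ) : cc (s + 1) = cc s := by
  unfold cc
  rw [mul_add, mul_one, Real.cos_add_two_pi]

theorem pp_per (s : ℝ) : pp (s + 1) = pp s := by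
  unfold pp
  rw [mul_add, mul_one, Real.sin_add_two_pi]

theorem qq_per (s : ℝ) : qq (s + 1) = qq s := by
  unfold qq
  rw [mul_add, mul_one, Real.sin_add_two_pi]

theorem glue_deriv_zero {x : ℝ} (h : x ≤ 0) : deriv expNegInvGlue x = 0 := by
  rcases lt_or_eq_of_le h with h | h
  · have h1 : expNegInvGlue =ᶠ[𝓝 x] fun _ => 0 := by
      filter_upwards [gt_mem_nhds h] with y hy
      exact expNegInvGlue.zero_of_nonpos hy.le
    rw [h1.deriv_eq]
    simp
  · subst h
    have h2 : IsLocalMin expNegInvGlue 0 := by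
      refine Eventually.of_forall fun y => ?_
      rw [expNegInvGlue.zero]
      exact expNegInvGlue.nonneg y
    exact h2.deriv_eq_zero

theorem pq (s : ℝ) : pp s * qq s = 0 := by
  unfold pp qq
  rcases le_total (Real.sin (2 * π * s)) 0 with h | h
  · rw [expNegInvGlue.zero_of_nonpos h, zero_mul]
  · rw [expNegInvGlue.zero_of_nonpos (x := -Real.sin (2 * π * s)) (by linarith), mul_zero]

theorem pq' (s : ℝ) : pp s * qq' s = 0 := by
  unfold pp qq'
  rcases le_total (Real.sin (2 * π * s)) 0 with h | h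
  · rw [expNegInvGlue.zero_of_nonpos h, zero_mul]
  · rw [glue_deriv_zero (x := -Real.sin (2 * π * s)) (by linarith), zero_mul, mul_zero]

theorem glue_deriv_nonneg (x : ℝ) : 0 ≤ deriv expNegInvGlue x :=
  expNegInvGlue.monotone.deriv_nonneg

theorem wr_nonneg (s : ℝ) : 0 ≤ cc s * pp' s - cc' s * pp s := by
  have h1 : cc s * pp' s = deriv expNegInvGlue (Real.sin (2 * π * s)) *
      (Real.cos (2 * π * s) ^ 2 * (2 * π)) := by
    unfold cc pp'
    ring
  have h2 : 0 ≤ -(cc' s * pp s) := by
    have h3 : -(cc' s * pp s) = (Real.sin (2 * π * s) * pp s) * (2 * π) := by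
      unfold cc'
      ring
    rw [h3]
    refine mul_nonneg ?_ (by positivity)
    unfold pp
    rcases le_total (Real.sin (2 * π * s)) 0 with h | h
    · rw [expNegInvGlue.zero_of_nonpos h, mul_zero]
    · exact mul_nonneg h (expNegInvGlue.nonneg _)
  have h4 : 0 ≤ cc s * pp' s := by
    rw [h1]
    exact mul_nonneg (glue_deriv_nonneg _) (by positivity)
  linarith

theorem wq_nonneg (s : ℝ) : 0 ≤ -(cc s * qq' s - cc' s * qq s) := by
  have h1 : -(cc s * qq' s) = deriv expNegInvGlue (-Real.sin (2 * π * s)) *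
      (Real.cos (2 * π * s) ^ 2 * (2 * π)) := by
    unfold cc qq'
    ring
  have h2 : 0 ≤ cc' s * qq s := by
    have h3 : cc' s * qq s = (-Real.sin (2 * π * s) * qq s) * (2 * π) := by
      unfold cc'
      ring
    rw [h3]
    refine mul_nonneg ?_ (by positivity)
    unfold qq
    rcases le_total (-Real.sin (2 * π * s)) 0 with h | h
    · rw [expNegInvGlue.zero_of_nonpos h, mul_zero]
    · exact mul_nonneg h (expNegInvGlue.nonneg _)
  have h4 : 0 ≤ -(cc s * qq' s) := by
    rw [h1]
    exact mul_nonneg (glue_deriv_nonneg _) (by positivity)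
  linarith

theorem quarter : Real.sin (2 * π * (1 / 4)) = 1 ∧ Real.cos (2 * π * (1 / 4)) = 0 := by
  have h : 2 * π * (1 / 4) = π / 2 := by ring
  rw [h]
  exact ⟨Real.sin_pi_div_two, Real.cos_pi_div_two⟩

theorem wr_pos : 0 < cc (1 / 4) * pp' (1 / 4) - cc' (1 / 4) * pp (1 / 4) := by
  unfold cc pp' cc' pp
  rw [quarter.1, quarter.2]
  have := expNegInvGlue.pos_of_pos one_pos
  have := Real.pi_pos
  have h : 0 * (deriv expNegInvGlue 1 * (0 * (2 * π))) - -1 * (2 * π) * expNegInvGlue 1 =
    2 * π * expNegInvGlue 1 := by ring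
  rw [h]
  positivity

end one

section all

/-- the map -/
noncomputable def U : (d : ℕ) → (Fin d → ℝ) → Fin (d + 1) → ℝ
  | 0, _ => fun _ => 1
  | d + 1, s => Fin.cons (cc (s 0)) fun k => pp (s 0) * U d (fun i => s i.succ) k - qq (s 0)

/-- its partial derivatives -/
noncomputable def dU : (d : ℕ) → (Fin d → ℝ) → Fin d → Fin (d + 1) → ℝ
  | 0, _ => fun i => i.elim0
  | d + 1, s => Fin.cons
      (Fin.cons (cc' (s 0)) fun k => pp' (s 0) * U d (fun i => s i.succ) k - qq' (s 0))
      fun i => Fin.cons 0 fun k => pp (s 0) * dU d (fun i => s i.succ) i k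

theorem U_zero (s : Fin 0 → ℝ) (k : Fin 1) : U 0 s k = 1 := rfl

theorem U_succ_zero {d : ℕ} (s : Fin (d + 1) → ℝ) : U (d + 1) s 0 = cc (s 0) := rfl

theorem U_succ_succ {d : ℕ} (s : Fin (d + 1) → ℝ) (k : Fin (d + 1)) :
    U (d + 1) s k.succ = pp (s 0) * U d (fun i => s i.succ) k - qq (s 0) := rfl

theorem U_ne (d : ℕ) (s : Fin d → ℝ) : U d s ≠ 0 := by
  induction d with
  | zero =>
    intro h
    have := congrFun h 0
    rw [U_zero] at this
    exact one_ne_zero this
  | succ d ih =>
    intro h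
    have h0 : cc (s 0) = 0 := congrFun h 0
    have h1 : ∀ k, pp (s 0) * U d (fun i => s i.succ) k - qq (s 0) = 0 := fun k =>
      congrFun h k.succ
    have h2 := Real.sin_sq_add_cos_sq (2 * π * s 0)
    unfold cc at h0
    rw [h0] at h2
    rcases le_or_gt (Real.sin (2 * π * s 0)) 0 with h3 | h3
    · have h4 : pp (s 0) = 0 := expNegInvGlue.zero_of_nonpos h3
      have h5 : 0 < qq (s 0) := by
        refine expNegInvGlue.pos_of_pos ?_
        rcases lt_or_eq_of_le h3 with h6 | h6
        · linarith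
        · rw [h6] at h2
          norm_num at h2
      have h6 := h1 0
      rw [h4] at h6
      linarith
    · have h4 : 0 < pp (s 0) := expNegInvGlue.pos_of_pos h3
      have h5 : qq (s 0) = 0 := expNegInvGlue.zero_of_nonpos (by linarith)
      refine ih (fun i => s i.succ) ?_
      funext k
      have h6 := h1 k
      rw [h5, sub_zero] at h6
      exact (mul_eq_zero.1 h6).resolve_left h4.ne'

theorem U_per (d : ℕ) (s : Fin d → ℝ) (i : Fin d) : U d (s + Pi.single i 1) = U d s := by
  induction d with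
  | zero => exact i.elim0
  | succ d ih =>
    refine Fin.cases ?_ (fun i => ?_) i
    · have h1 : (s + Pi.single 0 1 : Fin (d + 1) → ℝ) 0 = s 0 + 1 := by
        rw [Pi.add_apply, Pi.single_eq_same]
      have h2 : (fun i => (s + Pi.single 0 1 : Fin (d + 1) → ℝ) (Fin.succ i)) =
          fun i => s i.succ := by
        funext i
        rw [Pi.add_apply, Pi.single_eq_of_ne (Fin.succ_ne_zero i), add_zero]
      unfold U
      rw [h1, h2, cc_per, pp_per, qq_per]
    · have h1 : (s + Pi.single i.succ 1 : Fin (d + 1) → ℝ) 0 = s 0 := by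
        rw [Pi.add_apply, Pi.single_eq_of_ne (Fin.succ_ne_zero i).symm, add_zero]
      have h2 : (fun l => (s + Pi.single i.succ 1 : Fin (d + 1) → ℝ) (Fin.succ l)) =
          (fun l => s l.succ) + Pi.single i 1 := by
        funext l
        rw [Pi.add_apply, Pi.add_apply]
        congr 1
        by_cases h : l = i
        · subst h
          rw [Pi.single_eq_same, Pi.single_eq_same]
        · rw [Pi.single_eq_of_ne h, Pi.single_eq_of_ne fun h' => h (Fin.succ_injective _ h')]
      unfold U
      rw [h1, h2, ih]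

theorem U_smooth (d : ℕ) (k : Fin (d + 1)) : ContDiff ℝ 2 fun s => U d s k := by
  induction d with
  | zero => exact contDiff_const
  | succ d ih =>
    have h0 : ContDiff ℝ 2 fun s : Fin (d + 1) → ℝ => s 0 := contDiff_apply ℝ ℝ 0
    refine Fin.cases ?_ (fun k => ?_) k
    · exact contDiff_cc.comp h0
    · have h1 : ContDiff ℝ 2 fun s : Fin (d + 1) → ℝ => (fun i => s (Fin.succ i) : Fin d → ℝ) := by
        refine contDiff_pi.2 fun i => ?_
        exact contDiff_apply ℝ ℝ i.succ
      exact ((contDiff_pp.comp h0).mul ((ih k).comp h1)).sub (contDiff_qq.comp h0)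

theorem U_deriv (d : ℕ) (s : Fin d → ℝ) (i : Fin d) (k : Fin (d + 1)) :
    fderiv ℝ (fun s => U d s k) s (Pi.single i 1) = dU d s i k := by
  induction d with
  | zero => exact i.elim0
  | succ d ih =>
    have h0 : HasFDerivAt (fun s : Fin (d + 1) → ℝ => s 0)
      (ContinuousLinearMap.proj (R := ℝ) (φ := fun _ : Fin (d + 1) => ℝ) 0) s := hasFDerivAt_apply 0 s
    set T : (Fin (d + 1) → ℝ) →L[ℝ] (Fin d → ℝ) :=
      ContinuousLinearMap.pi fun i => ContinuousLinearMap.proj i.succ with hT
    refine Fin.cases ?_ (fun k => ?_) k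
    · have h1 := HasDerivAt.comp_hasFDerivAt s (hasDerivAt_cc (s 0)) h0
      have h1' : (fun s => U (d + 1) s 0) = cc ∘ fun s : Fin (d + 1) → ℝ => s 0 := rfl
      rw [h1', h1.fderiv]
      show cc' (s 0) * (Pi.single i 1 : Fin (d + 1) → ℝ) 0 = dU (d + 1) s i 0
      refine Fin.cases ?_ (fun i => ?_) i
      · rw [Pi.single_eq_same, mul_one]
        rfl
      · rw [Pi.single_eq_of_ne (Fin.succ_ne_zero i).symm, mul_zero]
        rfl
    · have h2 : HasFDerivAt (fun s => U d s k) (fderiv ℝ (fun s => U d s k) (T s)) (T s) :=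
        ((U_smooth d k).differentiable (by norm_num) _).hasFDerivAt
      have h3 : HasFDerivAt (fun s : Fin (d + 1) → ℝ => U d (T s) k) _ s := h2.comp s T.hasFDerivAt
      have h4 := ((HasDerivAt.comp_hasFDerivAt s (hasDerivAt_pp (s 0)) h0).mul h3).sub
          (HasDerivAt.comp_hasFDerivAt s (hasDerivAt_qq (s 0)) h0)
      have h4' : (fun s => U (d + 1) s k.succ) = ((pp ∘ fun s : Fin (d + 1) → ℝ => s 0) *
        fun s : Fin (d + 1) → ℝ => U d (T s) k) - (qq ∘ fun s : Fin (d + 1) → ℝ => s 0) := rfl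
      rw [h4', h4.fderiv]
      show pp (s 0) * fderiv ℝ (fun s => U d s k) (T s) (T (Pi.single i 1)) +
        U d (T s) k * (pp' (s 0) * (Pi.single i 1 : Fin (d + 1) → ℝ) 0) -
        qq' (s 0) * (Pi.single i 1 : Fin (d + 1) → ℝ) 0 = dU (d + 1) s i k.succ
      refine Fin.cases ?_ (fun i => ?_) i
      · have h5 : T (Pi.single 0 1) = 0 := by
          funext l
          show (Pi.single 0 1 : Fin (d + 1) → ℝ) l.succ = 0
          rw [Pi.single_eq_of_ne (Fin.succ_ne_zero l)]
        rw [Pi.single_eq_same, h5, map_zero]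
        show _ = pp' (s 0) * U d (fun i => s i.succ) k - qq' (s 0)
        have h6 : T s = fun i => s i.succ := rfl
        rw [h6]
        ring
      · have h5 : T (Pi.single i.succ 1) = Pi.single i 1 := by
          funext l
          show (Pi.single i.succ 1 : Fin (d + 1) → ℝ) l.succ = _
          by_cases h : l = i
          · subst h
            rw [Pi.single_eq_same, Pi.single_eq_same]
          · rw [Pi.single_eq_of_ne h, Pi.single_eq_of_ne fun h' => h (Fin.succ_injective _ h')]
        rw [Pi.single_eq_of_ne (Fin.succ_ne_zero i).symm, h5, ih]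
        show _ = pp (s 0) * dU d (fun i => s i.succ) i k
        have h6 : T s = fun i => s i.succ := rfl
        rw [h6]
        ring

/-- the Jacobian -/
noncomputable def J (d : ℕ) (s : Fin d → ℝ) : ℝ := Matrix.det (Matrix.of (Fin.cons (U d s) (dU d s)))

theorem rdet_add {d : ℕ} (v v' : Fin (d + 1) → ℝ) (w : Fin d → Fin (d + 1) → ℝ) :
    Matrix.det (Matrix.of (Fin.cons (v + v') w)) =
      Matrix.det (Matrix.of (Fin.cons v w)) + Matrix.det (Matrix.of (Fin.cons v' w)) :=
  MultilinearMap.cons_add (Matrix.detRowAlternating (R := ℝ) (n := Fin (d + 1))).toMultilinearMap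
    w v v'

theorem rdet_smul {d : ℕ} (c : ℝ) (v : Fin (d + 1) → ℝ) (w : Fin d → Fin (d + 1) → ℝ) :
    Matrix.det (Matrix.of (Fin.cons (c • v) w)) = c * Matrix.det (Matrix.of (Fin.cons v w)) :=
  MultilinearMap.cons_smul (Matrix.detRowAlternating (R := ℝ) (n := Fin (d + 1))).toMultilinearMap
    w c v

theorem rdet_scale {d : ℕ} (c : ℝ) (v : Fin (d + 1) → ℝ) (w : Fin d → Fin (d + 1) → ℝ) :
    Matrix.det (Matrix.of (Fin.cons v fun i => c • w i)) =
      c ^ d * Matrix.det (Matrix.of (Fin.cons v w)) := by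
  set z : Fin (d + 1) → ℝ := Fin.cons 1 fun _ => c with hz
  have h1 := Matrix.det_mul_column z (Matrix.of (Fin.cons v w))
  have h2 : ∏ i, z i = c ^ d := by
    rw [Fin.prod_univ_succ, hz]
    simp
  rw [h2] at h1
  rw [← h1]
  congr 1
  ext i j
  rw [Matrix.of_apply, Matrix.of_apply, Matrix.of_apply]
  refine Fin.cases ?_ (fun i => ?_) i
  · rw [Fin.cons_zero, Fin.cons_zero, hz, Fin.cons_zero, one_mul]
  · rw [Fin.cons_succ, Fin.cons_succ, hz, Fin.cons_succ]
    rfl

theorem J_succ (d : ℕ) (s : Fin (d + 1) → ℝ) : J (d + 1) s =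
    (cc (s 0) * pp' (s 0) - cc' (s 0) * pp (s 0)) * pp (s 0) ^ d * J d (fun i => s i.succ) -
    (cc (s 0) * qq' (s 0) - cc' (s 0) * qq (s 0)) * pp (s 0) ^ d *
      Matrix.det (Matrix.of (Fin.cons (fun _ => 1) (dU d fun i => s i.succ))) := by
  set t : Fin d → ℝ := fun i => s i.succ with ht
  set A : Matrix (Fin (d + 2)) (Fin (d + 2)) ℝ :=
    Matrix.of (Fin.cons (U (d + 1) s) (dU (d + 1) s)) with hA
  have h1 : J (d + 1) s = A.det := rfl
  rw [h1, Matrix.det_succ_column_zero, Fin.sum_univ_succ, Fin.sum_univ_succ]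
  have h2 : ∀ i : Fin d, A i.succ.succ 0 = 0 := fun i => rfl
  have h3 : ∑ i : Fin d, (-1 : ℝ) ^ ((i.succ.succ : Fin (d + 2)) : ℕ) * A i.succ.succ 0 *
      (A.submatrix (i.succ.succ).succAbove Fin.succ).det = 0 := by
    refine Finset.sum_eq_zero fun i _ => ?_
    rw [h2, mul_zero, zero_mul]
  rw [h3, add_zero]
  have h4 : A 0 0 = cc (s 0) := rfl
  have h5 : A (Fin.succ 0) 0 = cc' (s 0) := rfl
  have h6 : A.submatrix (Fin.succAbove 0) Fin.succ = Matrix.of (Fin.cons
      (pp' (s 0) • U d t + (-qq' (s 0)) • fun _ => 1) fun i => pp (s 0) • dU d t i) := by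
    ext i j
    refine Fin.cases ?_ (fun i => ?_) i
    · show pp' (s 0) * U d t j - qq' (s 0) = pp' (s 0) * U d t j + -qq' (s 0) * 1
      ring
    · rfl
  have h7 : A.submatrix (Fin.succAbove (Fin.succ 0)) Fin.succ = Matrix.of (Fin.cons
      (pp (s 0) • U d t + (-qq (s 0)) • fun _ => 1) fun i => pp (s 0) • dU d t i) := by
    ext i j
    refine Fin.cases ?_ (fun i => ?_) i
    · show pp (s 0) * U d t j - qq (s 0) = pp (s 0) * U d t j + -qq (s 0) * 1
      ring
    · rfl
  rw [h4, h5, h6, h7, rdet_scale, rdet_scale, rdet_add, rdet_add, rdet_smul, rdet_smul, rdet_smul,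
    rdet_smul]
  unfold J
  simp only [Fin.val_zero, Fin.val_succ, pow_zero, zero_add, pow_one]
  ring

theorem J_nonneg (d : ℕ) (s : Fin d → ℝ) : 0 ≤ J d s := by
  induction d with
  | zero =>
    have h : J 0 s = 1 := by
      unfold J
      simp [U]
    rw [h]
    exact zero_le_one
  | succ d ih =>
    rw [J_succ]
    have h1 := mul_nonneg (mul_nonneg (wr_nonneg (s 0)) (pow_nonneg (expNegInvGlue.nonneg _ :
      0 ≤ pp (s 0)) d)) (ih fun i => s i.succ)
    cases d with
    | zero =>
      have h2 : Matrix.det (Matrix.of (Fin.cons (fun _ => 1 : Fin 1 → ℝ)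
          (dU 0 fun i => s i.succ))) = 1 := by
        simp
      rw [h2]
      have := wq_nonneg (s 0)
      simp only [pow_zero, mul_one] at h1 ⊢
      linarith
    | succ d =>
      have h3 : (cc (s 0) * qq' (s 0) - cc' (s 0) * qq (s 0)) * pp (s 0) ^ (d + 1) = 0 := by
        rw [pow_succ]
        linear_combination (cc (s 0) * pp (s 0) ^ d) * pq' (s 0) -
          (cc' (s 0) * pp (s 0) ^ d) * pq (s 0)
      rw [h3, zero_mul, sub_zero]
      exact h1

theorem J_pos (d : ℕ) : 0 < J d fun _ => 1 / 4 := by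
  induction d with
  | zero =>
    have h : J 0 (fun _ => 1 / 4) = 1 := by
      unfold J
      simp [U]
    rw [h]
    exact one_pos
  | succ d ih =>
    rw [J_succ]
    have hp : 0 < pp (1 / 4) := by
      unfold pp
      rw [quarter.1]
      exact expNegInvGlue.pos_of_pos one_pos
    have h1 := mul_pos (mul_pos wr_pos (pow_pos hp d)) ih
    have hq : qq (1 / 4) = 0 := by
      have := pq (1 / 4)
      exact (mul_eq_zero.1 this).resolve_left hp.ne'
    have hq' : qq' (1 / 4) = 0 := by
      have := pq' (1 / 4)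
      exact (mul_eq_zero.1 this).resolve_left hp.ne'
    simp only [hq, hq', mul_zero, sub_self, zero_mul, sub_zero]
    exact h1

theorem dU_cont (d : ℕ) (i : Fin d) (k : Fin (d + 1)) : Continuous fun s => dU d s i k := by
  simp only [← U_deriv]
  exact ((U_smooth d k).continuous_fderiv (by norm_num)).clm_apply continuous_const

theorem J_cont (d : ℕ) : Continuous (J d) := by
  unfold J
  refine Continuous.matrix_det ?_
  refine continuous_matrix fun i j => ?_
  refine Fin.cases ?_ (fun i => ?_) i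
  · exact (U_smooth d j).continuous
  · exact dU_cont d i j

end all

end Pool.Agent.P8H1.PD
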