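import Pool.Agent.P8H1.PD.Alg
import Pool.Agent.P8H1.PD.Ray
import Pool.Agent.P8H1.PD.Sph
import Pool.Agent.N65.TK.Base
set_option autoImplicit false

/-!
The sphere on the hypersurface, as a family of complex points parametrised by a torus.
-/

namespace Pool.Agent.P8H1.PD

open Set MeasureTheory Filter Topology Real
open Pool.Agent.N65.TK (Pt Ls sin_half_pos hasDerivAt_Ls norm_one_sub_exp exists_angle exists_gt_one
  norm_root Dc hasDerivAt_Dc)

variable {K : Type*} [Field K] {N r : ℕ} {C : Dat K N r} (σ : K →+* ℂ)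

/-- `k ↦ exp(i k·y)` -/
noncomputable def chr (y : Fin N → ℝ) : Multiplicative (Fin N → ℤ) →* ℂ where
  toFun k := Complex.exp (((∑ l, (k.toAdd l : ℝ) * y l : ℝ) : ℂ) * Complex.I)
  map_one' := by simp
  map_mul' k k' := by
    rw [← Complex.exp_add, toAdd_mul]
    congr 1
    simp only [Pi.add_apply]
    push_cast
    rw [← add_mul, ← Finset.sum_add_distrib]
    congr 1
    refine Finset.sum_congr rfl fun l _ => ?_
    ring

/-- The value at the point `(exp(i y_l))_l`. -/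
noncomputable def ev (y : Fin N → ℝ) : LP K N →+* ℂ :=
  AddMonoidAlgebra.liftNCRingHom σ (chr y) fun _ _ => mul_comm _ _

theorem ev_single (y : Fin N → ℝ) (k : Fin N → ℤ) (a : K) :
    ev σ y (AddMonoidAlgebra.single k a) =
      σ a * Complex.exp (((∑ l, (k l : ℝ) * y l : ℝ) : ℂ) * Complex.I) :=
  AddMonoidAlgebra.liftNCRingHom_single _ _ _ _ _

theorem ev_mo (y : Fin N → ℝ) (a : Kˣ) (k : Fin N → ℤ) :
    ev σ y (mo a k : LP K N) = σ a * Complex.exp (((∑ l, (k l : ℝ) * y l : ℝ) : ℂ) * Complex.I) :=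
  ev_single σ y k a

theorem ev_eq (y : Fin N → ℝ) (P : LP K N) :
    ev σ y P = ∑ k ∈ P.coeff.support, σ (P.coeff k) *
      Complex.exp (((∑ l, (k l : ℝ) * y l : ℝ) : ℂ) * Complex.I) := by
  conv_lhs => rw [← AddMonoidAlgebra.sum_coeff_single P]
  unfold Finsupp.sum
  rw [map_sum]
  simp only [ev_single]

theorem one_sub_exp {θ : ℝ} (h0 : 0 < θ) (h1 : θ < 2 * π) :
    1 - Complex.exp (θ * Complex.I) =
      ((Real.exp (Ls θ) : ℝ) : ℂ) * Complex.exp (((θ - π) / 2 : ℝ) * Complex.I) := by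
  have hs := sin_half_pos h0 h1
  have h4 : Real.exp (Ls θ) = 2 * Real.sin (θ / 2) := by
    unfold Ls
    rw [Real.exp_log (by positivity)]
  rw [h4]
  have h5 : (((θ - π) / 2 : ℝ) : ℂ) * Complex.I =
      ((θ / 2 : ℝ) : ℂ) * Complex.I - (π / 2 : ℂ) * Complex.I := by
    push_cast
    ring
  have h6 : (θ : ℂ) * Complex.I = 2 * (((θ / 2 : ℝ) : ℂ) * Complex.I) := by
    push_cast
    ring
  rw [h5, Complex.exp_sub, Complex.exp_pi_div_two_mul_I, h6, Complex.exp_mul_I ((θ / 2 : ℝ) : ℂ),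
    two_mul, Complex.exp_add, Complex.exp_mul_I ((θ / 2 : ℝ) : ℂ), ← Complex.ofReal_sin,
    ← Complex.ofReal_cos, Complex.div_I]
  have h7 : ((Real.sin (θ / 2) : ℝ) : ℂ) ^ 2 + ((Real.cos (θ / 2) : ℝ) : ℂ) ^ 2 = 1 := by
    rw [← Complex.ofReal_pow, ← Complex.ofReal_pow, ← Complex.ofReal_add,
      Real.sin_sq_add_cos_sq, Complex.ofReal_one]
  push_cast at h7 ⊢
  linear_combination (-1 : ℂ) * h7 + (Complex.sin (θ / 2) ^ 2) * Complex.I_sq

/-- The product of the `1 - exp(i θ_j)`. -/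
theorem prod_one_sub {e : Fin r → ℝ} {n : Fin r → ℕ} (he : ∀ j, 0 < e j ∧ e j < 2 * π) :
    ∏ j, (1 - Complex.exp (e j * Complex.I)) ^ n j =
      ((Real.exp (∑ j, n j * Ls (e j)) : ℝ) : ℂ) *
        Complex.exp (((∑ j, n j * ((e j - π) / 2) : ℝ) : ℂ) * Complex.I) := by
  rw [Real.exp_sum, Complex.ofReal_prod, Complex.ofReal_sum, Finset.sum_mul, Complex.exp_sum,
    ← Finset.prod_mul_distrib]
  refine Finset.prod_congr rfl fun j _ => ?_
  rw [one_sub_exp (he j).1 (he j).2, mul_pow, Real.exp_nat_mul, ← Complex.exp_nat_mul]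
  push_cast
  congr 2
  ring

/-- The base point. -/
theorem exists_base' (hC : C.Admissible) (hE : C.Exceeds σ) :
    ∃ (y : Fin N → ℝ) (e : Fin r → ℝ),
    (∀ j, 0 < e j ∧ e j < 2 * π) ∧
    (∀ j, σ (C.ε j) * Complex.exp (((∑ l, (C.a j l : ℝ) * y l : ℝ) : ℂ) * Complex.I) =
      Complex.exp (e j * Complex.I)) ∧ 0 < ∑ j, C.n j * Ls (e j) ∧
    σ C.c * Complex.exp (((∑ k, (C.b k : ℝ) * y k : ℝ) : ℂ) * Complex.I) =
      Complex.exp (((∑ j, C.n j * ((e j - π) / 2) : ℝ) : ℂ) * Complex.I) := by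
  obtain ⟨y, ρ, hρ, hy⟩ := hE
  have hc1 : ‖σ (C.c : K)‖ = 1 := by
    have h1 := congrArg (fun u : Kˣ => ‖σ (u : K)‖) hC.coeff
    simp only [Units.val_pow_eq_pow_val, map_pow, norm_pow, Units.coe_prod, map_prod, norm_prod,
      Units.val_neg, map_neg, norm_neg] at h1
    have h2 : ∏ j, ‖σ (C.ε j : K)‖ ^ C.n j = 1 := by
      refine Finset.prod_eq_one fun j _ => ?_
      rw [norm_root σ (hC.tors j), one_pow]
    rw [h2] at h1
    exact (pow_eq_one_iff_of_nonneg (norm_nonneg _) two_ne_zero).1 h1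
  have hne : ∀ j, σ (C.ε j) *
      Complex.exp (((∑ l, (C.a j l : ℝ) * y l : ℝ) : ℂ) * Complex.I) ≠ 1 := by
    intro j h
    have h1 : ∏ j, (1 - σ (C.ε j) *
      Complex.exp (((∑ k, (C.a j k : ℝ) * y k : ℝ) : ℂ) * Complex.I)) ^ C.n j = 0 := by
      refine Finset.prod_eq_zero (Finset.mem_univ j) ?_
      rw [h, sub_self, zero_pow (hC.pos j).ne']
    rw [h1] at hy
    have h2 := congrArg norm hy
    rw [norm_zero, norm_mul, norm_mul, hc1, Complex.norm_exp_ofReal_mul_I, Complex.norm_real,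
      Real.norm_of_nonneg (by linarith)] at h2
    linarith
  have hnm : ∀ j, ‖σ (C.ε j) *
      Complex.exp (((∑ l, (C.a j l : ℝ) * y l : ℝ) : ℂ) * Complex.I)‖ = 1 := by
    intro j
    rw [norm_mul, norm_root σ (hC.tors j), Complex.norm_exp_ofReal_mul_I, one_mul]
  choose e he he' using fun j => exists_angle (hnm j) (hne j)
  refine ⟨y, e, he, he', ?_⟩
  simp only [he'] at hy
  rw [prod_one_sub he] at hy
  have h1 := congrArg norm hy
  rw [norm_mul, norm_mul, norm_mul, hc1, Complex.norm_exp_ofReal_mul_I,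
    Complex.norm_exp_ofReal_mul_I, Complex.norm_real, Complex.norm_real,
    Real.norm_of_nonneg (Real.exp_pos _).le, Real.norm_of_nonneg (r := ρ) (by linarith), mul_one,
    mul_one, mul_one] at h1
  refine ⟨?_, ?_⟩
  · rw [← h1] at hρ
    exact Real.one_lt_exp_iff.1 hρ
  · rw [h1] at hy
    have h2 : (ρ : ℂ) ≠ 0 := by
      have : ρ ≠ 0 := by linarith
      exact_mod_cast this
    exact (mul_left_cancel₀ h2 hy).symm

section path

/-- the exponents as real vectors -/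
def ar {m : ℕ} (C : Dat K (m + 1) r) (j : Fin r) : Fin (m + 1) → ℝ := fun k => (C.a j k : ℝ)

theorem cond_of {m : ℕ} {C : Dat K (m + 1) r} {e : Fin r → ℝ} (hC : C.Admissible)
    (he : ∀ j, 0 < e j ∧ e j < 2 * π)
    (hpos : 0 < ∑ j, C.n j * Ls (e j)) : Cond e (ar C) C.n where
  he := he
  hn := hC.pos
  span := by
    intro φ hφ
    by_contra hcon
    push Not at hcon
    apply hφ
    funext k
    have h1 : (Pi.single k 1 : Fin (m + 1) → ℚ) ∈
        Submodule.span ℚ (Set.range fun j k => (C.a j k : ℚ)) := by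
      rw [hC.span]
      trivial
    rw [Submodule.mem_span_range_iff_exists_fun] at h1
    obtain ⟨c, hc⟩ := h1
    have h2 : ∀ l, (Pi.single k 1 : Fin (m + 1) → ℝ) l = ∑ j, (c j : ℝ) * (C.a j l : ℝ) := by
      intro l
      have h3 := congrFun hc l
      rw [Finset.sum_apply] at h3
      have h4 : ((Pi.single k 1 : Fin (m + 1) → ℚ) l : ℝ) = (Pi.single k 1 : Fin (m + 1) → ℝ) l := by
        rw [Pi.single_apply, Pi.single_apply]
        split_ifs <;> simp
      rw [← h4, ← h3, Rat.cast_sum]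
      refine Finset.sum_congr rfl fun j _ => ?_
      show ((c j * (C.a j l : ℚ) : ℚ) : ℝ) = _
      push_cast
      rfl
    have h5 : ∑ l, (Pi.single k 1 : Fin (m + 1) → ℝ) l * φ l = φ k := by
      rw [Finset.sum_eq_single k]
      · rw [Pi.single_eq_same, one_mul]
      · intro l _ hl
        rw [Pi.single_eq_of_ne hl, zero_mul]
      · intro h
        exact absurd (Finset.mem_univ k) h
    rw [← h5, Pi.zero_apply]
    simp only [h2, Finset.sum_mul]
    rw [Finset.sum_comm]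
    refine Finset.sum_eq_zero fun j _ => ?_
    have h6 : dp (ar C j) φ = 0 := hcon j
    unfold dp ar at h6
    have h7 : ∀ l, (c j : ℝ) * (C.a j l : ℝ) * φ l = (c j : ℝ) * ((C.a j l : ℝ) * φ l) := fun l => by
      ring
    simp only [h7]
    rw [← Finset.mul_sum, h6, mul_zero]
  pos := hpos

variable {m : ℕ} {C : Dat K (m + 1) r} {y : Fin (m + 1) → ℝ} {e : Fin r → ℝ}

theorem ev_m (he' : ∀ j, σ (C.ε j) *
    Complex.exp (((∑ l, (C.a j l : ℝ) * y l : ℝ) : ℂ) * Complex.I) =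
      Complex.exp (e j * Complex.I)) (z : Fin (m + 1) → ℝ) (j : Fin r) :
    ev σ (y + z) (C.m j : LP K (m + 1)) =
      Complex.exp (((e j + dp (ar C j) z : ℝ) : ℂ) * Complex.I) := by
  unfold Dat.m
  rw [ev_mo, Complex.ofReal_add (e j), add_mul, Complex.exp_add, ← he' j, mul_assoc,
    ← Complex.exp_add]
  congr 2
  unfold dp ar
  rw [← add_mul, ← Complex.ofReal_add, ← Finset.sum_add_distrib]
  congr 2
  refine Finset.sum_congr rfl fun l _ => ?_
  rw [Pi.add_apply]
  ring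

theorem ev_eqn (hC : C.Admissible) (he' : ∀ j, σ (C.ε j) *
    Complex.exp (((∑ l, (C.a j l : ℝ) * y l : ℝ) : ℂ) * Complex.I) =
      Complex.exp (e j * Complex.I))
    (hμ : σ C.c * Complex.exp (((∑ k, (C.b k : ℝ) * y k : ℝ) : ℂ) * Complex.I) =
      Complex.exp (((∑ j, C.n j * ((e j - π) / 2) : ℝ) : ℂ) * Complex.I))
    (z : Fin (m + 1) → ℝ)
    (hr : ∀ j, 0 < e j + dp (ar C j) z ∧ e j + dp (ar C j) z < 2 * π)
    (h0 : ∑ j, C.n j * Ls (e j + dp (ar C j) z) = 0) :
    ev σ (y + z) C.eqn = 0 := by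
  unfold Dat.eqn
  rw [map_sub, sub_eq_zero, map_prod]
  have h1 : ∀ j, ev σ (y + z) ((1 - (C.m j : LP K (m + 1))) ^ C.n j) =
      (1 - Complex.exp (((e j + dp (ar C j) z : ℝ) : ℂ) * Complex.I)) ^ C.n j := by
    intro j
    rw [map_pow, map_sub, map_one, ev_m σ he']
  rw [Finset.prod_congr rfl fun j _ => h1 j, prod_one_sub hr, h0, Real.exp_zero,
    Complex.ofReal_one, one_mul, ev_mo]
  have h2 : ∑ l, (C.b l : ℝ) * (y + z) l = (∑ l, (C.b l : ℝ) * y l) + ∑ l, (C.b l : ℝ) * z l := by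
    rw [← Finset.sum_add_distrib]
    refine Finset.sum_congr rfl fun l _ => ?_
    rw [Pi.add_apply]
    ring
  have h3 : ∑ l, (C.b l : ℝ) * z l = ∑ j, C.n j * (dp (ar C j) z / 2) := by
    have h4 : ∀ l, (C.b l : ℝ) = (∑ j, (C.n j : ℝ) * (C.a j l : ℝ)) / 2 := by
      intro l
      have h5 := hC.expo l
      have h6 : (2 : ℝ) * (C.b l : ℝ) = ∑ j, (C.n j : ℝ) * (C.a j l : ℝ) := by exact_mod_cast h5
      linarith
    simp only [h4]
    unfold dp ar
    simp only [Finset.sum_div, Finset.mul_sum, Finset.sum_mul]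
    rw [Finset.sum_comm]
    refine Finset.sum_congr rfl fun j _ => Finset.sum_congr rfl fun l _ => ?_
    ring
  rw [h2, Complex.ofReal_add, add_mul, Complex.exp_add, ← mul_assoc, hμ, ← Complex.exp_add,
    ← add_mul, ← Complex.ofReal_add, h3, ← Finset.sum_add_distrib]
  congr 3
  refine Finset.sum_congr rfl fun j _ => ?_
  ring

section sphere

variable (C e)

/-- the radius -/
noncomputable def Rd (t : Fin m → ℝ) : ℝ := rad e (ar C) C.n (U m t)

/-- the point of the sphere -/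
noncomputable def Y (t : Fin m → ℝ) : Fin (m + 1) → ℝ := fun k => Rd C e t * U m t k

variable {C e}

theorem Y_per (t : Fin m → ℝ) (i : Fin m) : Y C e (t + Pi.single i 1) = Y C e t := by
  unfold Y Rd
  rw [U_per]

theorem dp_Y (j : Fin r) (τ : ℝ) (t : Fin m → ℝ) :
    τ * dp (ar C j) (Y C e t) + e j = th e (ar C) j (U m t) (τ * Rd C e t) := by
  unfold th dp Y
  rw [add_comm, mul_assoc, Finset.mul_sum (a := Rd C e t)]
  congr 2
  refine Finset.sum_congr rfl fun k _ => ?_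
  ring

variable (hc : Cond e (ar C) C.n)

include hc

theorem Rd_pos (t : Fin m → ℝ) : 0 < Rd C e t := hc.rad_pos (U_ne m t)

theorem Rd_smooth : ContDiff ℝ 2 (Rd C e) := by
  rw [contDiff_iff_contDiffAt]
  intro t
  have h1 : ContDiff ℝ 2 (U m) := contDiff_pi.2 fun k => U_smooth m k
  exact (hc.contDiff_rad (U_ne m t)).comp t h1.contDiffAt

theorem Y_smooth (k : Fin (m + 1)) : ContDiff ℝ 2 fun t => Y C e t k :=
  (Rd_smooth hc).mul (U_smooth m k)

theorem range (j : Fin r) {τ : ℝ} (hτ : τ ∈ Icc (0 : ℝ) 1) (t : Fin m → ℝ) :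
    0 < e j + τ * dp (ar C j) (Y C e t) ∧ e j + τ * dp (ar C j) (Y C e t) < 2 * π := by
  rw [add_comm, dp_Y]
  have hR := Rd_pos hc t
  exact hc.Ch_of_le (U_ne m t) (mul_nonneg hτ.1 hR.le) (mul_le_of_le_one_left hR.le hτ.2) j

theorem level (t : Fin m → ℝ) : ∑ j, C.n j * Ls (e j + dp (ar C j) (Y C e t)) = 0 := by
  have h := hc.Hs_rad (U_ne m t)
  unfold Hs at h
  rw [← h]
  refine Finset.sum_congr rfl fun j _ => ?_
  have h1 := dp_Y (C := C) (e := e) j 1 t
  rw [one_mul, one_mul, add_comm] at h1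
  rw [h1]
  rfl

end sphere

section build

variable (hC : C.Admissible) (he : ∀ j, 0 < e j ∧ e j < 2 * π)
  (he' : ∀ j, σ (C.ε j) * Complex.exp (((∑ l, (C.a j l : ℝ) * y l : ℝ) : ℂ) * Complex.I) =
      Complex.exp (e j * Complex.I))
  (hpos : 0 < ∑ j, C.n j * Ls (e j))
  (hμ : σ C.c * Complex.exp (((∑ k, (C.b k : ℝ) * y k : ℝ) : ℂ) * Complex.I) =
      Complex.exp (((∑ j, C.n j * ((e j - π) / 2) : ℝ) : ℂ) * Complex.I))

include hC he he' hpos hμ in
theorem ev_zero (t : Fin m → ℝ) (P : LP K (m + 1)) (hP : P ∈ Ideal.span {C.eqn}) :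
    ev σ (y + Y C e t) P = 0 := by
  have hc := cond_of hC he hpos
  have h1 : ev σ (y + Y C e t) C.eqn = 0 := by
    refine ev_eqn σ hC he' hμ _ (fun j => ?_) (level hc t)
    have := range hc j (right_mem_Icc.2 zero_le_one) t
    simpa only [one_mul] using this
  rw [Ideal.mem_span_singleton'] at hP
  obtain ⟨Q, rfl⟩ := hP
  rw [map_mul, h1, mul_zero]

theorem ev_smooth {Z : (Fin m → ℝ) → Fin (m + 1) → ℝ} (hZ : ∀ k, ContDiff ℝ 2 fun t => Z t k)
    (P : LP K (m + 1)) : ContDiff ℝ 2 fun t => ev σ (Z t) P := by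
  have h3 : (fun t => ev σ (Z t) P) = fun t => ∑ k ∈ P.coeff.support, σ (P.coeff k) *
      Complex.exp (((∑ l, (k l : ℝ) * Z t l : ℝ) : ℂ) * Complex.I) := by
    funext t
    rw [ev_eq]
  rw [h3]
  refine ContDiff.sum fun k _ => contDiff_const.mul ?_
  have h5 : ContDiff ℝ 2 fun t => (∑ l, (k l : ℝ) * Z t l : ℝ) :=
    ContDiff.sum fun l _ => contDiff_const.mul (hZ l)
  exact ((Complex.ofRealCLM.contDiff.comp h5).mul contDiff_const).cexp

/-- The family of points on the hypersurface. -/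
noncomputable def pth : Tor C.Ring m where
  e t := Ideal.Quotient.lift (Ideal.span {C.eqn}) (ev σ (y + Y C e t))
    (ev_zero σ hC he he' hpos hμ t)
  smooth h := by
    obtain ⟨P, rfl⟩ := Ideal.Quotient.mk_surjective h
    have hc := cond_of hC he hpos
    exact ev_smooth σ (Z := fun t => y + Y C e t) (fun k => contDiff_const.add (Y_smooth hc k)) P
  periodic t i := by
    have h : Y C e (t + Pi.single i 1) = Y C e t := Y_per t i
    simp only [h] <;> rfl

theorem pth_proj (t : Fin m → ℝ) (P : LP K (m + 1)) :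
    (pth σ hC he he' hpos hμ).e t (C.proj P) = ev σ (y + Y C e t) P :=
  Ideal.Quotient.lift_mk _ _ _

theorem pth_cst (t : Fin m → ℝ) (a : K) : (pth σ hC he he' hpos hμ).e t (C.cst a) = σ a := by
  show (pth σ hC he he' hpos hμ).e t (C.proj (AddMonoidAlgebra.singleZeroRingHom a)) = σ a
  rw [pth_proj]
  show ev σ (y + Y C e t) (AddMonoidAlgebra.single 0 a) = σ a
  rw [ev_single]
  simp

theorem pth_x (t : Fin m → ℝ) (k : Fin (m + 1)) :
    (pth σ hC he he' hpos hμ).e t (C.x k) =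
      Complex.exp (((y k + Y C e t k : ℝ) : ℂ) * Complex.I) := by
  have h0 : ((C.x k : C.Ringˣ) : C.Ring) = C.proj (mo 1 (Pi.single k 1) : (LP K (m + 1))ˣ) := rfl
  have h1 : (pth σ hC he he' hpos hμ).e t (C.x k) = ev σ (y + Y C e t)
      ((mo 1 (Pi.single k 1) : (LP K (m + 1))ˣ) : LP K (m + 1)) := by
    rw [h0, pth_proj]
  have h2 : ∑ l, (((Pi.single k 1 : Fin (m + 1) → ℤ) l : ℤ) : ℝ) * (y + Y C e t) l =
      y k + Y C e t k := by
    rw [Finset.sum_eq_single k]
    · rw [Pi.single_eq_same, Int.cast_one, one_mul]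
      rfl
    · intro l _ hl
      rw [Pi.single_eq_of_ne hl, Int.cast_zero, zero_mul]
    · intro h
      exact absurd (Finset.mem_univ k) h
  rw [h1, ev_mo, Units.val_one, map_one, one_mul, h2]

theorem pth_pt (t : Fin m → ℝ) (j : Fin r) :
    (pth σ hC he he' hpos hμ).e t (Dat.pt hC j).1 =
      Complex.exp (((e j + dp (ar C j) (Y C e t) : ℝ) : ℂ) * Complex.I) := by
  have h0 : (((Dat.pt hC j).1 : C.Ringˣ) : C.Ring) = C.proj (C.m j : (LP K (m + 1))ˣ) := rfl
  rw [← ev_m σ he', h0, pth_proj]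

end build

end path

end Pool.Agent.P8H1.PD
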