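import Pool.Agent.P8H1.PD.Base
import Pool.Agent.P8H1.PD.Rel
set_option autoImplicit false

/-!
The regulator of `alpha` along the sphere, by the divergence theorem on the cone over the sphere.
-/

namespace Pool.Agent.P8H1.PD

open Set MeasureTheory Filter Topology Real
open Pool.Agent.N65.TK (Pt Ls sin_half_pos hasDerivAt_Ls D Dc hasDerivAt_Dc)

section dets

variable {m : ℕ}

theorem ofReal_det (M : Matrix (Fin m) (Fin m) ℝ) :
    ((M.det : ℝ) : ℂ) = Matrix.det (Matrix.of fun i j => ((M i j : ℝ) : ℂ)) :=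
  RingHom.map_det Complex.ofRealHom M

theorem dt_single (w : Fin m → Fin (m + 1) → ℂ) :
    dt (Fin.cons (Pi.single 0 1) w) = Matrix.det (Matrix.of fun i (j : Fin m) => w i j.succ) := by
  unfold dt
  rw [Matrix.det_succ_row_zero, Finset.sum_eq_single 0]
  · have h : (Matrix.of (Fin.cons (Pi.single 0 1) w : Fin (m + 1) → Fin (m + 1) → ℂ)) 0 0 = 1 := by
      show (Pi.single 0 1 : Fin (m + 1) → ℂ) 0 = 1
      rw [Pi.single_eq_same]
    rw [h]
    simp only [Fin.val_zero, pow_zero, one_mul]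
    rfl
  · intro j _ hj
    have h : (Matrix.of (Fin.cons (Pi.single 0 1) w : Fin (m + 1) → Fin (m + 1) → ℂ)) 0 j = 0 := by
      show (Pi.single 0 1 : Fin (m + 1) → ℂ) j = 0
      rw [Pi.single_eq_of_ne hj]
    rw [h, mul_zero, zero_mul]
  · intro h
    exact absurd (Finset.mem_univ _) h

theorem dt_comb (a : Fin (m + 1) → ℂ) (X : Fin (m + 1) → Fin (m + 1) → ℂ) (i : Fin (m + 1)) :
    dt (Fin.cons (∑ k, a k • X k) fun k => X (i.succAbove k)) = a i * (-1) ^ (i : ℕ) * dt X := by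
  set Lm : (Fin (m + 1) → ℂ) →ₗ[ℂ] ℂ :=
    { toFun := fun v => dt (Fin.cons v fun k => X (i.succAbove k))
      map_add' := fun _ _ => dt_cons_add _ _ _
      map_smul' := fun _ _ => dt_cons_smul _ _ _ } with hLm
  have h5 : ∀ v, dt (Fin.cons v fun k => X (i.succAbove k)) = Lm v := fun v => rfl
  rw [h5, map_sum, Finset.sum_eq_single i]
  · rw [map_smul, ← h5, smul_eq_mul, dt_eq, dt_eq]
    have h2 := AlternatingMap.neg_one_pow_smul_map_insertNth
      (Matrix.detRowAlternating (R := ℂ) (n := Fin (m + 1))) i (X i) (i.removeNth X)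
    rw [Fin.insertNth_self_removeNth, ← Int.cast_smul_eq_zsmul ℂ] at h2
    push_cast at h2
    have h3 : (Matrix.detRowAlternating (R := ℂ) (n := Fin (m + 1)))
      (Fin.cons (X i) fun k => X (i.succAbove k)) = _ := h2.symm
    rw [h3, smul_eq_mul]
    ring
  · intro k _ hk
    obtain ⟨l, hl⟩ := Fin.exists_succAbove_eq hk
    rw [map_smul, ← h5]
    have h2 : dt (Fin.cons (X k) fun l => X (i.succAbove l)) = 0 := by
      refine dt_zero_of_eq _ (i := 0) (j := l.succ) ?_ (Fin.succ_ne_zero l).symm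
      rw [Fin.cons_zero, Fin.cons_succ, hl]
    rw [h2, smul_zero]
  · intro h
    exact absurd (Finset.mem_univ i) h

theorem det_col {A : Matrix (Fin (m + 1)) (Fin (m + 1)) ℂ} (h : ∀ i : Fin m, A i.succ 0 = 0) :
    A.det = A 0 0 * Matrix.det (Matrix.of fun (i j : Fin m) => A i.succ j.succ) := by
  rw [Matrix.det_succ_column_zero, Fin.sum_univ_succ]
  have h1 : ∑ i : Fin m, (-1 : ℂ) ^ ((i.succ : Fin (m + 1)) : ℕ) * A i.succ 0 *
      (A.submatrix (i.succ).succAbove Fin.succ).det = 0 := by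
    refine Finset.sum_eq_zero fun i _ => ?_
    rw [h, mul_zero, zero_mul]
  rw [h1, add_zero]
  simp only [Fin.val_zero, pow_zero, one_mul]
  rfl

end dets

section dl

variable {m : ℕ}

theorem dl_exp {z : (Fin m → ℝ) → ℝ} {t : Fin m → ℝ} (hz : DifferentiableAt ℝ z t) (p : Fin m) :
    dl (fun s => Complex.exp ((z s : ℂ) * Complex.I)) t p =
      ((fderiv ℝ z t (Pi.single p 1) : ℝ) : ℂ) * Complex.I := by
  have h1 : HasFDerivAt (fun s => (z s : ℂ)) (Complex.ofRealCLM.comp (fderiv ℝ z t)) t :=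
    Complex.ofRealCLM.hasFDerivAt.comp t hz.hasFDerivAt
  have h2 := (h1.mul_const Complex.I).cexp
  unfold dl
  rw [h2.fderiv, div_eq_iff (Complex.exp_ne_zero _)]
  simp only [_root_.smul_apply, smul_eq_mul]
  show Complex.exp _ * (Complex.I * _) = _
  rw [ContinuousLinearMap.comp_apply]
  show Complex.exp _ * (Complex.I * ((fderiv ℝ z t (Pi.single p 1) : ℝ) : ℂ)) = _
  ring

theorem frm_exp {f : (Fin m → ℝ) → ℝ} {g : Fin m → (Fin m → ℝ) → ℝ} {t : Fin m → ℝ}
    (hg : ∀ l, DifferentiableAt ℝ (g l) t) :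
    frm (fun s => Complex.exp ((f s : ℂ) * Complex.I))
      (fun l s => Complex.exp ((g l s : ℂ) * Complex.I)) t =
      Dc (f t) * Matrix.det (Matrix.of fun l p => fderiv ℝ (g l) t (Pi.single p 1)) := by
  unfold frm
  have h1 : ∀ τ : ℝ, (mat (fun s => Complex.exp ((f s : ℂ) * Complex.I))
      (fun l s => Complex.exp ((g l s : ℂ) * Complex.I)) τ t).det.re =
      Dc (f t) * Matrix.det (Matrix.of fun l p => fderiv ℝ (g l) t (Pi.single p 1)) := by
    intro τ
    rw [det_col]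
    · have h2 : (Matrix.of fun (i j : Fin m) => mat (fun s => Complex.exp ((f s : ℂ) * Complex.I))
          (fun l s => Complex.exp ((g l s : ℂ) * Complex.I)) τ t i.succ j.succ) =
          Matrix.of fun l p => ((Matrix.of (fun l p => fderiv ℝ (g l) t (Pi.single p 1)) l p : ℝ) :
            ℂ) := by
        ext l p
        rw [Matrix.of_apply, Matrix.of_apply, Matrix.of_apply]
        show ((dl (fun s => Complex.exp ((g l s : ℂ) * Complex.I)) t p).im : ℂ) +
          Complex.I * τ * (dl (fun s => Complex.exp ((g l s : ℂ) * Complex.I)) t p).re = _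
        rw [dl_exp (hg l)]
        simp
      rw [h2, ← ofReal_det]
      show ((D (Complex.exp ((f t : ℂ) * Complex.I)) : ℂ) * _).re = _
      rw [← Complex.ofReal_mul, Complex.ofReal_re]
      rfl
    · intro l
      show ((Real.log ‖Complex.exp ((g l t : ℂ) * Complex.I)‖ : ℝ) : ℂ) = 0
      rw [Complex.norm_exp_ofReal_mul_I, Real.log_one, Complex.ofReal_zero]
  simp only [h1, intervalIntegral.integral_const]
  rw [smul_eq_mul]
  ring

end dl

section cone

variable {K : Type*} [Field K] {m r : ℕ} {C : Dat K (m + 1) r} {e : Fin r → ℝ}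

variable (C e) in
/-- the coordinates of the point of the cone -/
noncomputable def hk (k : Fin (m + 1)) (x : Fin (m + 1) → ℝ) : ℂ :=
  ((x 0 * Y C e (tl m x) k : ℝ) : ℂ)

variable (hc : Cond e (ar C) C.n)

include hc

theorem Yt_diff (k : Fin (m + 1)) (t : Fin m → ℝ) : DifferentiableAt ℝ (fun t => Y C e t k) t :=
  (Y_smooth hc k).differentiable (by norm_num) t

theorem hk_smooth (k : Fin (m + 1)) : ContDiff ℝ 2 (hk C e k) := by
  refine Complex.ofRealCLM.contDiff.comp (ContDiff.mul (contDiff_apply ℝ ℝ 0) ?_)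
  exact (Y_smooth hc k).comp (tl m).contDiff

theorem pull_deriv {h : (Fin m → ℝ) → ℝ} {x : Fin (m + 1) → ℝ} (hh : DifferentiableAt ℝ h (tl m x)) :
    DifferentiableAt ℝ (fun x => h (tl m x)) x ∧
    fderiv ℝ (fun x => h (tl m x)) x (Pi.single 0 1) = 0 ∧
    ∀ p : Fin m, fderiv ℝ (fun x => h (tl m x)) x (Pi.single p.succ 1) =
      fderiv ℝ h (tl m x) (Pi.single p 1) := by
  have h1 : HasFDerivAt (fun x => h (tl m x)) ((fderiv ℝ h (tl m x)).comp (tl m)) x :=
    hh.hasFDerivAt.comp x (tl m).hasFDerivAt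
  refine ⟨h1.differentiableAt, ?_, fun p => ?_⟩
  · rw [h1.fderiv, ContinuousLinearMap.comp_apply, tl_zero, map_zero]
  · rw [h1.fderiv, ContinuousLinearMap.comp_apply, tl_succ]

omit hc in
theorem grad_cone {h : (Fin m → ℝ) → ℝ} {x : Fin (m + 1) → ℝ} (hh : DifferentiableAt ℝ h (tl m x)) :
    DifferentiableAt ℝ (fun x : Fin (m + 1) → ℝ => x 0 * h (tl m x)) x ∧
    ∀ i, fderiv ℝ (fun x : Fin (m + 1) → ℝ => x 0 * h (tl m x)) x (Pi.single i 1) =
      (Fin.cons (h (tl m x)) (fun p => x 0 * fderiv ℝ h (tl m x) (Pi.single p 1)) :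
        Fin (m + 1) → ℝ) i := by
  have h1 : HasFDerivAt (fun x => h (tl m x)) ((fderiv ℝ h (tl m x)).comp (tl m)) x :=
    hh.hasFDerivAt.comp x (tl m).hasFDerivAt
  have h0 : HasFDerivAt (fun s : Fin (m + 1) → ℝ => s 0)
      (ContinuousLinearMap.proj (R := ℝ) (φ := fun _ : Fin (m + 1) => ℝ) 0) x := hasFDerivAt_apply 0 x
  have h2 := h0.fun_mul h1
  refine ⟨h2.differentiableAt, fun i => ?_⟩
  rw [h2.fderiv]
  show x 0 * fderiv ℝ h (tl m x) (tl m (Pi.single i 1)) +
    h (tl m x) * (Pi.single i 1 : Fin (m + 1) → ℝ) 0 = _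
  refine Fin.cases ?_ (fun p => ?_) i
  · rw [tl_zero, map_zero, Pi.single_eq_same, Fin.cons_zero]
    ring
  · rw [tl_succ, Pi.single_eq_of_ne (Fin.succ_ne_zero p).symm, Fin.cons_succ]
    ring

omit hc in
theorem grad_ofReal {h : (Fin (m + 1) → ℝ) → ℝ} {x : Fin (m + 1) → ℝ} (hh : DifferentiableAt ℝ h x)
    (i : Fin (m + 1)) : grad (fun x => ((h x : ℝ) : ℂ)) x i =
      ((fderiv ℝ h x (Pi.single i 1) : ℝ) : ℂ) := by
  have h1 : HasFDerivAt (fun x => ((h x : ℝ) : ℂ)) (Complex.ofRealCLM.comp (fderiv ℝ h x)) x :=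
    Complex.ofRealCLM.hasFDerivAt.comp x hh.hasFDerivAt
  unfold grad
  rw [h1.fderiv]
  rfl

theorem grad_hk (k : Fin (m + 1)) (x : Fin (m + 1) → ℝ) (i : Fin (m + 1)) :
    grad (hk C e k) x i = (((Fin.cons (Y C e (tl m x) k)
      (fun p => x 0 * fderiv ℝ (fun t => Y C e t k) (tl m x) (Pi.single p 1)) :
        Fin (m + 1) → ℝ) i : ℝ) : ℂ) := by
  have h1 := grad_cone (Yt_diff hc k (tl m x))
  rw [← h1.2 i]
  exact grad_ofReal h1.1 i

theorem dY (k : Fin (m + 1)) (t : Fin m → ℝ) (p : Fin m) :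
    fderiv ℝ (fun t => Y C e t k) t (Pi.single p 1) =
      Rd C e t * dU m t p k + fderiv ℝ (Rd C e) t (Pi.single p 1) * U m t k := by
  have h1 : HasFDerivAt (Rd C e) (fderiv ℝ (Rd C e) t) t :=
    ((Rd_smooth hc).differentiable (by norm_num) t).hasFDerivAt
  have h2 : HasFDerivAt (fun t => U m t k) (fderiv ℝ (fun t => U m t k) t) t :=
    ((U_smooth m k).differentiable (by norm_num) t).hasFDerivAt
  have h3 : HasFDerivAt (fun t => Y C e t k) _ t := h1.fun_mul h2
  rw [h3.fderiv, ← U_deriv]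
  show Rd C e t * (fderiv ℝ (fun t => U m t k) t) (Pi.single p 1) +
    U m t k * (fderiv ℝ (Rd C e) t) (Pi.single p 1) = _
  ring

variable (C e) in
/-- the volume form -/
noncomputable def Vf (x : Fin (m + 1) → ℝ) : ℝ :=
  Rd C e (tl m x) ^ (m + 1) * x 0 ^ m * J m (tl m x)

theorem dt_hk (x : Fin (m + 1) → ℝ) : dt (fun k => grad (hk C e k) x) = ((Vf C e x : ℝ) : ℂ) := by
  set t := tl m x with ht
  set A : Matrix (Fin (m + 1)) (Fin (m + 1)) ℝ := Matrix.of (Fin.cons (Y C e t)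
    fun p k => x 0 * fderiv ℝ (fun t => Y C e t k) t (Pi.single p 1)) with hA
  set B : Matrix (Fin (m + 1)) (Fin (m + 1)) ℝ := Matrix.of (Fin.cons (Rd C e t • U m t)
    fun p => (x 0 * Rd C e t) • dU m t p) with hB
  have h1 : dt (fun k => grad (hk C e k) x) = ((A.transpose.det : ℝ) : ℂ) := by
    rw [ofReal_det]
    unfold dt
    congr 1
    ext k i
    rw [Matrix.of_apply, Matrix.of_apply, grad_hk hc, Matrix.transpose_apply]
    refine Fin.cases rfl (fun p => rfl) i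
  rw [h1, Matrix.det_transpose]
  have hR := Rd_pos hc t
  have h2 : A.det = B.det := by
    refine Matrix.det_eq_of_forall_row_eq_smul_add_const
      (Fin.cons 0 fun p => x 0 * fderiv ℝ (Rd C e) t (Pi.single p 1) / Rd C e t) 0
      (Fin.cons_zero _ _) fun i k => ?_
    refine Fin.cases ?_ (fun p => ?_) i
    · show Rd C e t * U m t k = Rd C e t * U m t k + 0 * _
      ring
    · show x 0 * fderiv ℝ (fun t => Y C e t k) t (Pi.single p 1) =
        x 0 * Rd C e t * dU m t p k +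
          x 0 * fderiv ℝ (Rd C e) t (Pi.single p 1) / Rd C e t * (Rd C e t * U m t k)
      rw [dY hc]
      field_simp
  rw [h2, hB, rdet_smul, rdet_scale]
  congr 1
  unfold Vf J
  rw [← ht]
  ring

theorem Vf_cont : Continuous (Vf C e) := by
  unfold Vf
  have h1 : Continuous fun x : Fin (m + 1) → ℝ => Rd C e (tl m x) :=
    (Rd_smooth hc).continuous.comp (tl m).continuous
  have h2 : Continuous fun x : Fin (m + 1) → ℝ => J m (tl m x) := (J_cont m).comp (tl m).continuous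
  fun_prop

/-- the angle on the cone -/
noncomputable def an (C : Dat K (m + 1) r) (e : Fin r → ℝ) (j : Fin r) (x : Fin (m + 1) → ℝ) : ℝ :=
  e j + x 0 * dp (ar C j) (Y C e (tl m x))

omit hc in
theorem mem_icc {x : Fin (m + 1) → ℝ} (hx : x ∈ Icc (0 : Fin (m + 1) → ℝ) 1) :
    x 0 ∈ Icc (0 : ℝ) 1 := ⟨hx.1 0, hx.2 0⟩

theorem an_range (j : Fin r) {x : Fin (m + 1) → ℝ} (hx : x ∈ Icc (0 : Fin (m + 1) → ℝ) 1) :
    0 < an C e j x ∧ an C e j x < 2 * π := range hc j (mem_icc hx) _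

theorem dp_diff (j : Fin r) (t : Fin m → ℝ) :
    DifferentiableAt ℝ (fun t => dp (ar C j) (Y C e t)) t := by
  unfold dp
  refine DifferentiableAt.fun_sum fun k _ => ?_
  exact (Yt_diff hc k t).const_mul _

theorem dp_deriv (j : Fin r) (t : Fin m → ℝ) (v : Fin m → ℝ) :
    fderiv ℝ (fun t => dp (ar C j) (Y C e t)) t v =
      ∑ k, ar C j k * fderiv ℝ (fun t => Y C e t k) t v := by
  unfold dp
  have h : HasFDerivAt (fun t => ∑ k, ar C j k * Y C e t k)
      (∑ k, ar C j k • fderiv ℝ (fun t => Y C e t k) t) t :=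
    HasFDerivAt.fun_sum fun k _ => (Yt_diff hc k t).hasFDerivAt.const_mul _
  rw [h.fderiv, ContinuousLinearMap.sum_apply]
  rfl

theorem an_grad (j : Fin r) (x : Fin (m + 1) → ℝ) : DifferentiableAt ℝ (an C e j) x ∧
    ∀ i, ((fderiv ℝ (an C e j) x (Pi.single i 1) : ℝ) : ℂ) =
      (∑ k, (C.a j k : ℂ) • grad (hk C e k) x) i := by
  have h1 := grad_cone (dp_diff hc j (tl m x))
  have h2 : HasFDerivAt (an C e j) _ x := h1.1.hasFDerivAt.const_add (e j)
  refine ⟨h2.differentiableAt, fun i => ?_⟩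
  rw [h2.fderiv, h1.2, Finset.sum_apply]
  have h3 : ∀ k, ((C.a j k : ℂ) • grad (hk C e k) x) i = ((ar C j k *
      (Fin.cons (Y C e (tl m x) k)
      (fun p => x 0 * fderiv ℝ (fun t => Y C e t k) (tl m x) (Pi.single p 1)) :
        Fin (m + 1) → ℝ) i : ℝ) : ℂ) := by
    intro k
    rw [Pi.smul_apply, grad_hk hc, smul_eq_mul]
    unfold ar
    push_cast
    rfl
  simp only [h3]
  rw [← Complex.ofReal_sum]
  congr 1
  refine Fin.cases ?_ (fun p => ?_) i
  · rfl
  · simp only [Fin.cons_succ]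
    rw [dp_deriv hc, Finset.mul_sum]
    refine Finset.sum_congr rfl fun k _ => ?_
    ring

theorem u_grad (j : Fin r) {x : Fin (m + 1) → ℝ} (hx : x ∈ Icc (0 : Fin (m + 1) → ℝ) 1) :
    DifferentiableAt ℝ (fun x => ((Dc (an C e j x) : ℝ) : ℂ)) x ∧
    grad (fun x => ((Dc (an C e j x) : ℝ) : ℂ)) x =
      (-(Ls (an C e j x) : ℂ)) • ∑ k, (C.a j k : ℂ) • grad (hk C e k) x := by
  obtain ⟨h0, h1⟩ := an_range hc j hx
  have h2 := (an_grad hc j x)
  have h3 := HasDerivAt.comp_hasFDerivAt x (hasDerivAt_Dc h0 h1) h2.1.hasFDerivAt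
  have h4 : HasFDerivAt (fun x => Dc (an C e j x)) _ x := h3
  refine ⟨Complex.ofRealCLM.differentiableAt.comp x h4.differentiableAt, ?_⟩
  funext i
  rw [grad_ofReal h4.differentiableAt, h4.fderiv, Pi.smul_apply, ← h2.2 i]
  show ((-Ls (an C e j x) * fderiv ℝ (an C e j) x (Pi.single i 1) : ℝ) : ℂ) = _
  push_cast
  rfl

theorem Ls_cont (j : Fin r) :
    ContinuousOn (fun x => Ls (an C e j x)) (Icc (0 : Fin (m + 1) → ℝ) 1) := by
  intro x hx
  obtain ⟨h0, h1⟩ := an_range hc j hx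
  exact ((hasDerivAt_Ls h0 h1).continuousAt.comp (an_grad hc j x).1.continuousAt).continuousWithinAt

theorem integrand (j : Fin r) (i : Fin (m + 1)) {x : Fin (m + 1) → ℝ}
    (hx : x ∈ Icc (0 : Fin (m + 1) → ℝ) 1) :
    dt (Fin.cons (grad (fun x => ((Dc (an C e j x) : ℝ) : ℂ)) x)
      fun k => grad (hk C e (i.succAbove k)) x) =
      ((-((C.a j i : ℝ) * (-1) ^ (i : ℕ)) * (Ls (an C e j x) * Vf C e x) : ℝ) : ℂ) := by
  rw [(u_grad hc j hx).2, dt_cons_smul, dt_comb (fun k => (C.a j k : ℂ))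
    (fun k => grad (hk C e k) x) i, dt_hk hc]
  push_cast
  ring

theorem integ (j : Fin r) (i : Fin (m + 1)) : IntegrableOn (fun x =>
    dt (Fin.cons (grad (fun x => ((Dc (an C e j x) : ℝ) : ℂ)) x)
      fun k => grad (hk C e (i.succAbove k)) x)) (Icc (0 : Fin (m + 1) → ℝ) 1) := by
  have h1 : ContinuousOn (fun x => ((-((C.a j i : ℝ) * (-1) ^ (i : ℕ)) *
      (Ls (an C e j x) * Vf C e x) : ℝ) : ℂ)) (Icc (0 : Fin (m + 1) → ℝ) 1) :=
    Complex.continuous_ofReal.comp_continuousOn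
      (continuousOn_const.mul ((Ls_cont hc j).mul (Vf_cont hc).continuousOn))
  exact (h1.integrableOn_compact isCompact_Icc).congr_fun
    (fun x hx => (integrand hc j i hx).symm) measurableSet_Icc

variable (C e) in
/-- the determinant of the partial derivatives of the coordinates different from the `i`-th one -/
noncomputable def Md (i : Fin (m + 1)) (t : Fin m → ℝ) : ℝ :=
  Matrix.det (Matrix.of fun l p => fderiv ℝ (fun t => Y C e t (i.succAbove l)) t (Pi.single p 1))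

theorem face_one (i : Fin (m + 1)) (t : Fin m → ℝ) :
    dt (Fin.cons (Pi.single 0 1) fun k => grad (hk C e (i.succAbove k)) (Fin.cons 1 t)) =
      ((Md C e i t : ℝ) : ℂ) := by
  rw [dt_single]
  unfold Md
  rw [ofReal_det]
  congr 1
  ext l p
  rw [Matrix.of_apply, Matrix.of_apply, grad_hk hc, Fin.cons_succ, tl_cons, Fin.cons_zero, one_mul]
  rfl

theorem face_zero (hm : 0 < m) (i : Fin (m + 1)) (t : Fin m → ℝ) :
    dt (Fin.cons (Pi.single 0 1) fun k => grad (hk C e (i.succAbove k)) (Fin.cons 0 t)) = 0 := by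
  rw [dt_single]
  have h : (Matrix.of fun (l p : Fin m) => grad (hk C e (i.succAbove l)) (Fin.cons 0 t) p.succ) =
      0 := by
    ext l p
    rw [Matrix.of_apply, grad_hk hc, Fin.cons_succ, Fin.cons_zero, zero_mul, Complex.ofReal_zero]
    rfl
  rw [h]
  haveI : Nonempty (Fin m) := ⟨⟨0, hm⟩⟩
  exact Matrix.det_zero

theorem hk_per (k : Fin (m + 1)) (x : Fin (m + 1) → ℝ) (p : Fin m) :
    hk C e k (x + Pi.single p.succ 1) = hk C e k x := by
  unfold hk
  rw [map_add, tl_succ, Y_per, Pi.add_apply, Pi.single_eq_of_ne (Fin.succ_ne_zero p).symm, add_zero]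

theorem grad_per {u : (Fin (m + 1) → ℝ) → ℂ} {v : Fin (m + 1) → ℝ} (h : ∀ x, u (x + v) = u x)
    (x : Fin (m + 1) → ℝ) : grad u (x + v) = grad u x := by
  funext i
  unfold grad
  rw [← fderiv_comp_add_right]
  simp only [h]

theorem ins_per (p : Fin m) (x : Fin m → ℝ) :
    (Fin.insertNth p.succ ((1 : Fin (m + 1) → ℝ) p.succ) x : Fin (m + 1) → ℝ) =
      Fin.insertNth p.succ ((0 : Fin (m + 1) → ℝ) p.succ) x + Pi.single p.succ 1 := by
  funext l
  rw [Pi.add_apply]
  refine Fin.succAboveCases p.succ ?_ (fun l => ?_) l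
  · rw [Fin.insertNth_apply_same, Fin.insertNth_apply_same, Pi.single_eq_same]
    show (1 : ℝ) = 0 + 1
    norm_num
  · rw [Fin.insertNth_apply_succAbove, Fin.insertNth_apply_succAbove,
      Pi.single_eq_of_ne (Fin.succAbove_ne _ _), add_zero]

/-- the divergence theorem on the cone -/
theorem cone (hm : 0 < m) (j : Fin r) (i : Fin (m + 1)) :
    ∫ t in Icc (0 : Fin m → ℝ) 1, Dc (e j + dp (ar C j) (Y C e t)) * Md C e i t =
      -((C.a j i : ℝ) * (-1) ^ (i : ℕ)) *
        ∫ x in Icc (0 : Fin (m + 1) → ℝ) 1, Ls (an C e j x) * Vf C e x := by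
  have h01 : (0 : Fin (m + 1) → ℝ) ≤ 1 := fun _ => zero_le_one
  have h1 := stokes h01 (w := fun k => grad (hk C e (i.succAbove k)))
    (fun k => IsCl.grad (hk_smooth hc _)) (u := fun x => ((Dc (an C e j x) : ℝ) : ℂ))
    (fun x hx => (u_grad hc j hx).1) (integ hc j i)
  have h2 : ∫ x in Icc (0 : Fin (m + 1) → ℝ) 1,
      dt (Fin.cons (grad (fun x => ((Dc (an C e j x) : ℝ) : ℂ)) x)
        fun k => grad (hk C e (i.succAbove k)) x) =
      ((-((C.a j i : ℝ) * (-1) ^ (i : ℕ)) *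
        ∫ x in Icc (0 : Fin (m + 1) → ℝ) 1, Ls (an C e j x) * Vf C e x : ℝ) : ℂ) := by
    rw [setIntegral_congr_fun measurableSet_Icc fun x hx => integrand hc j i hx,
      integral_complex_ofReal, integral_const_mul]
  rw [h2, Fin.sum_univ_succ] at h1
  have h3 : ∑ p : Fin m, ((∫ x in Icc ((0 : Fin (m + 1) → ℝ) ∘ p.succ.succAbove)
      ((1 : Fin (m + 1) → ℝ) ∘ p.succ.succAbove),
        ((Dc (an C e j (p.succ.insertNth ((1 : Fin (m + 1) → ℝ) p.succ) x)) : ℝ) : ℂ) *
        dt (Fin.cons (Pi.single p.succ 1) fun k => grad (hk C e (i.succAbove k))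
          (p.succ.insertNth ((1 : Fin (m + 1) → ℝ) p.succ) x))) -
      ∫ x in Icc ((0 : Fin (m + 1) → ℝ) ∘ p.succ.succAbove)
        ((1 : Fin (m + 1) → ℝ) ∘ p.succ.succAbove),
        ((Dc (an C e j (p.succ.insertNth ((0 : Fin (m + 1) → ℝ) p.succ) x)) : ℝ) : ℂ) *
        dt (Fin.cons (Pi.single p.succ 1) fun k => grad (hk C e (i.succAbove k))
          (p.succ.insertNth ((0 : Fin (m + 1) → ℝ) p.succ) x))) = 0 := by
    refine Finset.sum_eq_zero fun p _ => ?_
    have e1 : ∀ x : Fin (m + 1) → ℝ, an C e j (x + Pi.single p.succ 1) = an C e j x := by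
      intro x
      unfold an
      rw [map_add, tl_succ, Y_per, Pi.add_apply, Pi.single_eq_of_ne (Fin.succ_ne_zero p).symm,
        add_zero]
    have e2 : ∀ k (x : Fin (m + 1) → ℝ), grad (hk C e k) (x + Pi.single p.succ 1) =
        grad (hk C e k) x := fun k x => grad_per hc (fun x => hk_per hc k x p) x
    simp only [ins_per hc, e1, e2, sub_self]
  rw [h3, add_zero] at h1
  have h4 : ∀ x : Fin m → ℝ, ((Dc (an C e j (Fin.insertNth 0 ((1 : Fin (m + 1) → ℝ) 0) x)) : ℝ) : ℂ) *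
        dt (Fin.cons (Pi.single 0 1) fun k => grad (hk C e (i.succAbove k))
          (Fin.insertNth 0 ((1 : Fin (m + 1) → ℝ) 0) x)) =
      ((Dc (e j + dp (ar C j) (Y C e x)) * Md C e i x : ℝ) : ℂ) := by
    intro x
    have e1 : (Fin.insertNth 0 ((1 : Fin (m + 1) → ℝ) 0) x : Fin (m + 1) → ℝ) = Fin.cons 1 x := by
      rw [Fin.insertNth_zero]
      rfl
    rw [e1, face_one hc]
    unfold an
    rw [tl_cons, Fin.cons_zero, one_mul]
    push_cast
    rfl
  have h5 : ∀ x : Fin m → ℝ, ((Dc (an C e j (Fin.insertNth 0 ((0 : Fin (m + 1) → ℝ) 0) x)) : ℝ) : ℂ) *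
        dt (Fin.cons (Pi.single 0 1) fun k => grad (hk C e (i.succAbove k))
          (Fin.insertNth 0 ((0 : Fin (m + 1) → ℝ) 0) x)) = 0 := by
    intro x
    have e1 : (Fin.insertNth 0 ((0 : Fin (m + 1) → ℝ) 0) x : Fin (m + 1) → ℝ) = Fin.cons 0 x := by
      rw [Fin.insertNth_zero]
      rfl
    rw [e1, face_zero hc hm, mul_zero]
  simp only [h4, h5, integral_zero, sub_zero] at h1
  rw [integral_complex_ofReal] at h1
  exact (Complex.ofReal_injective h1).symm

end cone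

section value

variable {K : Type*} [Field K] {m r : ℕ} {C : Dat K (m + 1) r} {y : Fin (m + 1) → ℝ}
  {e : Fin r → ℝ} (σ : K →+* ℂ)
  (hC : C.Admissible) (he : ∀ j, 0 < e j ∧ e j < 2 * π)
  (he' : ∀ j, σ (C.ε j) * Complex.exp (((∑ l, (C.a j l : ℝ) * y l : ℝ) : ℂ) * Complex.I) =
      Complex.exp (e j * Complex.I))
  (hpos : 0 < ∑ j, C.n j * Ls (e j))
  (hμ : σ C.c * Complex.exp (((∑ k, (C.b k : ℝ) * y k : ℝ) : ℂ) * Complex.I) =
      Complex.exp (((∑ j, C.n j * ((e j - π) / 2) : ℝ) : ℂ) * Complex.I))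

theorem reg_term (j : Fin r) (i : Fin (m + 1)) :
    (pth σ hC he he' hpos hμ).reg (br (Dat.pt hC j) fun k => C.x (i.succAbove k)) =
      ∫ t in Icc (0 : Fin m → ℝ) 1, Dc (e j + dp (ar C j) (Y C e t)) * Md C e i t := by
  have hc := cond_of hC he hpos
  unfold Tor.reg br
  rw [Finsupp.linearCombination_single, one_smul]
  simp only [pth_pt, pth_x]
  congr 1
  funext t
  have h1 := frm_exp (t := t) (f := fun t => e j + dp (ar C j) (Y C e t))
    (g := fun l t => y (i.succAbove l) + Y C e t (i.succAbove l))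
    (fun l => (Yt_diff hc _ t).const_add _)
  rw [h1]
  unfold Md
  congr 2
  ext l p
  rw [Matrix.of_apply, Matrix.of_apply, fderiv_const_add]

/-- The regulator of the class. -/
theorem reg_alpha (hm : 0 < m) : (pth σ hC he he' hpos hμ).reg (Dat.alpha hC) =
    -∫ x in Icc (0 : Fin (m + 1) → ℝ) 1, (∑ j, C.n j * Ls (an C e j x)) * Vf C e x := by
  have hc := cond_of hC he hpos
  unfold Dat.alpha
  rw [map_sum]
  have h1 : ∀ j, (pth σ hC he he' hpos hμ).reg (∑ i : Fin (m + 1),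
      ((-1) ^ (i : ℕ) * (C.n j * C.a j i : ℚ) / ∑ k, (C.a j k : ℚ) ^ 2) •
        br (Dat.pt hC j) fun k => C.x (i.succAbove k)) =
      -∫ x in Icc (0 : Fin (m + 1) → ℝ) 1, (C.n j * Ls (an C e j x)) * Vf C e x := by
    intro j
    rw [map_sum]
    have hS : (0 : ℝ) < ∑ k, (C.a j k : ℝ) ^ 2 := by
      have h := sq_ne hC j
      have h2 : ((∑ k, C.a j k ^ 2 : ℤ) : ℝ) = ∑ k, (C.a j k : ℝ) ^ 2 := by push_cast; rfl
      rw [← h2]
      exact_mod_cast h
    have h2 : ∀ i : Fin (m + 1), (pth σ hC he he' hpos hμ).reg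
        (((-1) ^ (i : ℕ) * (C.n j * C.a j i : ℚ) / ∑ k, (C.a j k : ℚ) ^ 2) •
          br (Dat.pt hC j) fun k => C.x (i.succAbove k)) =
        -((C.a j i : ℝ) ^ 2) * ((C.n j : ℝ) / (∑ k, (C.a j k : ℝ) ^ 2) *
          ∫ x in Icc (0 : Fin (m + 1) → ℝ) 1, Ls (an C e j x) * Vf C e x) := by
      intro i
      rw [map_smul, reg_term, cone hc hm, Rat.smul_def]
      push_cast
      have h3 : ((-1 : ℝ) ^ (i : ℕ)) * (-1) ^ (i : ℕ) = 1 := by
        rw [← mul_pow]
        simp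
      linear_combination (-((C.a j i : ℝ) ^ 2) * ((C.n j : ℝ) / (∑ k, (C.a j k : ℝ) ^ 2) *
          ∫ x in Icc (0 : Fin (m + 1) → ℝ) 1, Ls (an C e j x) * Vf C e x)) * h3
    rw [Finset.sum_congr rfl fun i _ => h2 i, ← Finset.sum_mul, Finset.sum_neg_distrib]
    have h4 : (∫ x in Icc (0 : Fin (m + 1) → ℝ) 1, (C.n j * Ls (an C e j x)) * Vf C e x) =
        C.n j * ∫ x in Icc (0 : Fin (m + 1) → ℝ) 1, Ls (an C e j x) * Vf C e x := by
      rw [← integral_const_mul]
      refine integral_congr_ae (Eventually.of_forall fun x => ?_)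
      simp only []
      ring
    rw [h4]
    field_simp
  rw [Finset.sum_congr rfl fun j _ => h1 j, Finset.sum_neg_distrib, ← integral_finset_sum]
  · simp only [Finset.sum_mul]
  · intro j _
    have h5 : ContinuousOn (fun x => (C.n j * Ls (an C e j x)) * Vf C e x)
        (Icc (0 : Fin (m + 1) → ℝ) 1) :=
      (continuousOn_const.mul (Ls_cont hc j)).mul (Vf_cont hc).continuousOn
    exact h5.integrableOn_compact isCompact_Icc

theorem sum_Ls {x : Fin (m + 1) → ℝ} :
    ∑ j, C.n j * Ls (an C e j x) = Hs e (ar C) C.n (U m (tl m x)) (x 0 * Rd C e (tl m x)) := by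
  unfold Hs an
  refine Finset.sum_congr rfl fun j _ => ?_
  have h1 := dp_Y (C := C) (e := e) j (x 0) (tl m x)
  rw [add_comm] at h1
  rw [h1]

theorem reg_alpha_neg (hm : 0 < m) : (pth σ hC he he' hpos hμ).reg (Dat.alpha hC) < 0 := by
  have hc := cond_of hC he hpos
  rw [reg_alpha σ hC he he' hpos hμ hm, neg_lt_zero]
  set F : (Fin (m + 1) → ℝ) → ℝ := fun x => (∑ j, C.n j * Ls (an C e j x)) * Vf C e x with hF
  have hcont : ContinuousOn F (Icc 0 1) := by
    refine ContinuousOn.mul ?_ (Vf_cont hc).continuousOn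
    exact continuousOn_finsetSum _ fun j _ => continuousOn_const.mul (Ls_cont hc j)
  have hpt : ∀ x ∈ Icc (0 : Fin (m + 1) → ℝ) 1, 0 ≤ F x := by
    intro x hx
    have h1 := mem_icc hx
    have hR := Rd_pos hc (tl m x)
    refine mul_nonneg ?_ (mul_nonneg (mul_nonneg (pow_nonneg hR.le _) (pow_nonneg h1.1 _))
      (J_nonneg _ _))
    rw [sum_Ls]
    rcases eq_or_lt_of_le h1.2 with h2 | h2
    · rw [h2, one_mul]
      exact (hc.Hs_rad (U_ne m _)).symm.le
    · exact (hc.Hs_pos (U_ne m _) (mul_nonneg h1.1 hR.le) (mul_lt_of_lt_one_left hR h2)).le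
  set p : Fin (m + 1) → ℝ := Fin.cons (1 / 2) fun _ => 1 / 4 with hp
  have hFp : 0 < F p := by
    have htl : tl m p = fun _ => 1 / 4 := by rw [hp, tl_cons]
    have hp0 : p 0 = 1 / 2 := rfl
    have hR := Rd_pos hc (tl m p)
    refine mul_pos ?_ (mul_pos (mul_pos (pow_pos hR _) (pow_pos (by rw [hp0]; norm_num) _)) ?_)
    · rw [sum_Ls]
      refine hc.Hs_pos (U_ne m _) (mul_nonneg (by rw [hp0]; norm_num) hR.le)
        (mul_lt_of_lt_one_left hR (by rw [hp0]; norm_num))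
    · rw [htl]
      exact J_pos m
  have hpin : p ∈ interior (Icc (0 : Fin (m + 1) → ℝ) 1) := by
    have hopen : IsOpen (Set.pi univ fun _ : Fin (m + 1) => Ioo (0 : ℝ) 1) :=
      isOpen_set_pi finite_univ fun _ _ => isOpen_Ioo
    refine mem_interior.2 ⟨_, ?_, hopen, ?_⟩
    · intro x hx
      rw [mem_univ_pi] at hx
      exact ⟨fun i => (hx i).1.le, fun i => (hx i).2.le⟩
    · rw [mem_univ_pi]
      intro i
      refine Fin.cases ?_ (fun i => ?_) i
      · show (1 / 2 : ℝ) ∈ Ioo (0 : ℝ) 1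
        constructor <;> norm_num
      · show (1 / 4 : ℝ) ∈ Ioo (0 : ℝ) 1
        constructor <;> norm_num
  have hint : IntegrableOn F (Icc 0 1) := hcont.integrableOn_compact isCompact_Icc
  rw [setIntegral_pos_iff_support_of_nonneg_ae]
  · have hcp : ContinuousAt F p :=
      hcont.continuousAt (mem_interior_iff_mem_nhds.1 hpin)
    have hnh : {x | 0 < F x} ∩ interior (Icc (0 : Fin (m + 1) → ℝ) 1) ∈ 𝓝 p :=
      inter_mem (hcp.eventually (lt_mem_nhds hFp)) (isOpen_interior.mem_nhds hpin)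
    obtain ⟨V, hV1, hV2, hV3⟩ := mem_nhds_iff.1 hnh
    refine lt_of_lt_of_le (hV2.measure_pos volume ⟨p, hV3⟩) (measure_mono fun x hx => ?_)
    exact ⟨(hV1 hx).1.ne', interior_subset (hV1 hx).2⟩
  · exact (ae_restrict_iff' measurableSet_Icc).2 (Eventually.of_forall hpt)
  · exact hint

/-- For every complex embedding over which `E` exceeds `1` there is a family with nonzero
regulator. -/
theorem exists_tor {d : ℕ} {C : Dat K (d + 2) r} (hC : C.Admissible) (hE : C.Exceeds σ) :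
    ∃ γ : Tor C.Ring (d + 1), (∀ t a, γ.e t (C.cst a) = σ a) ∧
    (∀ t k, ‖γ.e t (C.x k)‖ = 1) ∧ γ.reg (Dat.alpha hC) < 0 := by
  obtain ⟨y, e, he, he', hpos, hμ⟩ := exists_base' σ hC hE
  refine ⟨pth σ hC he he' hpos hμ, fun t a => pth_cst σ hC he he' hpos hμ t a, fun t k => ?_,
    reg_alpha_neg σ hC he he' hpos hμ (Nat.succ_pos d)⟩
  rw [pth_x, Complex.norm_exp_ofReal_mul_I]

end value

end Pool.Agent.P8H1.PD
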