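import Pool.Agent.P8H1.PD.Cone
set_option autoImplicit false

/-!
Criteria for the real function `E` to exceed `1`.
-/

namespace Pool.Agent.P8H1.PD

open Set MeasureTheory Filter Topology Real
open Pool.Agent.N65.TK (Pt Ls sin_half_pos norm_one_sub_exp exists_angle exists_gt_one norm_root)

variable {K : Type*} [Field K] {r : ℕ} (σ : K →+* ℂ)

theorem exists_generic {m : ℕ} {C : Dat K (m + 1) r} (hC : C.Admissible) :
    ∃ q : Fin (m + 1) → ℤ, ∀ j, ∑ k, C.a j k * q k ≠ 0 := by
  set P : Fin r → Polynomial ℤ := fun j =>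
    ∑ k : Fin (m + 1), Polynomial.monomial (k : ℕ) (C.a j k) with hP
  have hPj : ∀ j, P j ≠ 0 := by
    intro j h
    refine a_ne hC j ?_
    funext k
    have h1 := congrArg (fun p => Polynomial.coeff p (k : ℕ)) h
    simp only [hP, Polynomial.finsetSum_coeff, Polynomial.coeff_monomial, Polynomial.coeff_zero] at h1
    rw [Finset.sum_eq_single k] at h1
    · simpa using h1
    · intro l _ hl
      rw [if_neg fun h' => hl (Fin.ext h')]
    · intro h'
      exact absurd (Finset.mem_univ k) h'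
  have hprod : ∏ j, P j ≠ 0 := Finset.prod_ne_zero_iff.2 fun j _ => hPj j
  obtain ⟨T, hT⟩ : ∃ T : ℤ, (∏ j, P j).eval T ≠ 0 := by
    by_contra hcon
    push Not at hcon
    exact hprod (Polynomial.funext fun T => by rw [hcon T, Polynomial.eval_zero])
  refine ⟨fun k => T ^ (k : ℕ), fun j h => hT ?_⟩
  rw [Polynomial.eval_prod]
  refine Finset.prod_eq_zero (Finset.mem_univ j) ?_
  rw [hP]
  simp only [Polynomial.eval_finsetSum, Polynomial.eval_monomial]
  exact h

theorem r_pos {m : ℕ} {C : Dat K (m + 1) r} (hC : C.Admissible) : 0 < r := by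
  rcases Nat.eq_zero_or_pos r with h | h
  · subst h
    exfalso
    have h1 := hC.span
    rw [Set.range_eq_empty, Submodule.span_empty] at h1
    have h4 : (fun _ => 1 : Fin (m + 1) → ℚ) ∈ (⊥ : Submodule ℚ (Fin (m + 1) → ℚ)) := by
      rw [h1]
      trivial
    rw [Submodule.mem_bot] at h4
    have := congrFun h4 0
    simp at this
  · exact h

/-- The base point. -/
theorem exists_base {m : ℕ} {C : Dat K (m + 1) r} (hC : C.Admissible) :
    ∃ (y : Fin (m + 1) → ℝ) (e : Fin r → ℝ),
    (∀ j, 0 < e j ∧ e j < 2 * π) ∧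
    (∀ j, σ (C.ε j) * Complex.exp (((∑ l, (C.a j l : ℝ) * y l : ℝ) : ℂ) * Complex.I) =
      Complex.exp (e j * Complex.I)) ∧ 0 < ∑ j, C.n j * Ls (e j) := by
  obtain ⟨q, hq⟩ := exists_generic hC
  have i : Fin r := ⟨0, r_pos hC⟩
  set d : Fin r → ℤ := fun j => ∑ k, C.a j k * q k with hd
  obtain ⟨t, ht, hP⟩ := exists_gt_one (fun j => (d j).natAbs)
    (fun j => Int.natAbs_pos.2 (hq j))
    (fun j => if 0 < d j then σ (C.ε j) else (σ (C.ε j))⁻¹) (fun j => by
      split_ifs
      · exact norm_root σ (hC.tors j)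
      · rw [norm_inv, norm_root σ (hC.tors j), inv_one]) C.n hC.pos i
  obtain ⟨φ, hφ⟩ : ∃ φ : ℝ, t = Complex.exp (φ * Complex.I) := by
    refine ⟨t.arg, ?_⟩
    have := Complex.norm_mul_exp_arg_mul_I t
    rw [ht, Complex.ofReal_one, one_mul] at this
    exact this.symm
  have hm : ∀ j, σ (C.ε j) *
      Complex.exp (((∑ l, (C.a j l : ℝ) * (φ * q l) : ℝ) : ℂ) * Complex.I) =
      σ (C.ε j) * t ^ d j := by
    intro j
    rw [hφ, ← Complex.exp_int_mul, hd]
    congr 2
    push_cast
    rw [Finset.sum_mul, Finset.sum_mul]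
    refine Finset.sum_congr rfl fun l _ => ?_
    ring
  have ht0 : t ≠ 0 := by
    rw [hφ]
    exact Complex.exp_ne_zero _
  have hnm : ∀ j, ‖σ (C.ε j) * t ^ d j‖ = 1 := by
    intro j
    rw [norm_mul, norm_root σ (hC.tors j), norm_zpow, ht, one_zpow, mul_one]
  have hn1 : ∀ j, ‖1 - (if 0 < d j then σ (C.ε j) else (σ (C.ε j))⁻¹) * t ^ (d j).natAbs‖ =
      ‖1 - σ (C.ε j) * t ^ d j‖ := by
    intro j
    split_ifs with h
    · rw [← zpow_natCast, Int.natAbs_of_nonneg h.le]
    · have h2 : ((d j).natAbs : ℤ) = - d j := by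
        have := hq j
        omega
      have h3 : (σ (C.ε j))⁻¹ * t ^ (d j).natAbs = (σ (C.ε j) * t ^ d j)⁻¹ := by
        rw [← zpow_natCast, h2, zpow_neg, mul_inv]
      have h4 := hnm j
      have h5 : σ (C.ε j) * t ^ d j ≠ 0 := by
        intro h
        rw [h, norm_zero] at h4
        exact zero_ne_one h4
      rw [h3]
      have h6 : 1 - (σ (C.ε j) * t ^ d j)⁻¹ =
          -((1 - σ (C.ε j) * t ^ d j) * (σ (C.ε j) * t ^ d j)⁻¹) := by
        field_simp
        ring
      rw [h6, norm_neg, norm_mul, norm_inv, h4, inv_one, mul_one]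
  rw [norm_prod] at hP
  simp only [norm_pow, hn1] at hP
  have hne : ∀ j, σ (C.ε j) * t ^ d j ≠ 1 := by
    intro j h
    have h2 : ∏ j, ‖1 - σ (C.ε j) * t ^ d j‖ ^ C.n j = 0 := by
      refine Finset.prod_eq_zero (Finset.mem_univ j) ?_
      rw [h, sub_self, norm_zero, zero_pow (hC.pos j).ne']
    rw [h2] at hP
    linarith
  choose e he he' using fun j => exists_angle (hnm j) (hne j)
  refine ⟨fun l => φ * q l, e, he, fun j => ?_, ?_⟩
  · rw [hm, he']
  · have h7 : ∑ j, C.n j * Ls (e j) = Real.log (∏ j, ‖1 - σ (C.ε j) * t ^ d j‖ ^ C.n j) := by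
      rw [Real.log_prod]
      · refine Finset.sum_congr rfl fun j _ => ?_
        rw [Real.log_pow, he', norm_one_sub_exp (he j).1 (he j).2]
        rfl
      · intro j _
        refine pow_ne_zero _ ?_
        rw [norm_ne_zero_iff, sub_ne_zero]
        exact (hne j).symm
    rw [h7]
    exact Real.log_pos hP


theorem neg_exp (x : ℝ) : -Complex.exp ((x : ℂ) * Complex.I) =
    Complex.exp (((x - π : ℝ) : ℂ) * Complex.I) := by
  have h : (((x - π : ℝ) : ℂ)) * Complex.I = (x : ℂ) * Complex.I - π * Complex.I := by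
    push_cast
    ring
  rw [h, Complex.exp_sub, Complex.exp_pi_mul_I, div_neg, div_one]

theorem exp_comb {m : ℕ} {C : Dat K (m + 1) r} {y : Fin (m + 1) → ℝ} {e : Fin r → ℝ}
    (he' : ∀ j, σ (C.ε j) * Complex.exp (((∑ l, (C.a j l : ℝ) * y l : ℝ) : ℂ) * Complex.I) =
      Complex.exp (e j * Complex.I)) (p : Fin r → ℕ) :
    (∏ j, (-σ (C.ε j)) ^ p j) *
      Complex.exp (((∑ j, p j * ∑ l, (C.a j l : ℝ) * y l : ℝ) : ℂ) * Complex.I) =
      Complex.exp (((∑ j, p j * (e j - π) : ℝ) : ℂ) * Complex.I) := by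
  rw [Complex.ofReal_sum, Finset.sum_mul, Complex.exp_sum, ← Finset.prod_mul_distrib,
    Complex.ofReal_sum, Finset.sum_mul, Complex.exp_sum]
  refine Finset.prod_congr rfl fun j _ => ?_
  have h1 : (((p j * ∑ l, (C.a j l : ℝ) * y l : ℝ) : ℂ)) * Complex.I =
      (p j : ℂ) * (((∑ l, (C.a j l : ℝ) * y l : ℝ) : ℂ) * Complex.I) := by
    push_cast
    ring
  have h2 : (((p j * (e j - π) : ℝ) : ℂ)) * Complex.I =
      (p j : ℂ) * ((((e j - π) : ℝ) : ℂ) * Complex.I) := by
    push_cast
    ring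
  rw [h1, h2, Complex.exp_nat_mul, Complex.exp_nat_mul, ← mul_pow, neg_mul, he', neg_exp]

theorem exp_int {x : ℝ} {n : ℤ} (h : x = 2 * π * n) : Complex.exp ((x : ℂ) * Complex.I) = 1 := by
  rw [h]
  have h1 : (((2 * π * n : ℝ) : ℂ)) * Complex.I = (n : ℂ) * (2 * π * Complex.I) := by
    push_cast
    ring
  rw [h1]
  exact Complex.exp_int_mul_two_pi_mul_I n

/-- the translation which changes the sign of `E` -/
theorem exists_shift {m : ℕ} {C : Dat K (m + 1) r} (hC : C.Admissible)
    (hb : C.b ∉ AddSubgroup.closure (Set.range C.a)) : ∃ z : Fin (m + 1) → ℝ,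
    (∀ j, Complex.exp (((∑ l, (C.a j l : ℝ) * z l : ℝ) : ℂ) * Complex.I) = 1) ∧
    Complex.exp (((∑ l, (C.b l : ℝ) * z l : ℝ) : ℂ) * Complex.I) = -1 := by
  set H := AddSubgroup.closure (Set.range C.a) with hH
  set q : (Fin (m + 1) → ℤ) →+ (Fin (m + 1) → ℤ) ⧸ H := QuotientAddGroup.mk' H with hq
  have hb' : q C.b ≠ 0 := by
    intro h
    exact hb ((QuotientAddGroup.eq_zero_iff _).1 h)
  obtain ⟨χ, hχ⟩ := CharacterModule.exists_character_apply_ne_zero_of_ne_zero hb'
  have hlift : ∀ k : Fin (m + 1), ∃ s : ℚ, (s : AddCircle (1 : ℚ)) = χ (q (Pi.single k 1)) :=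
    fun k => QuotientAddGroup.mk_surjective _
  choose s hs using hlift
  have key : ∀ v : Fin (m + 1) → ℤ, ((∑ k, (v k : ℚ) * s k : ℚ) : AddCircle (1 : ℚ)) = χ (q v) := by
    intro v
    have h1 : v = ∑ k, v k • (Pi.single k 1 : Fin (m + 1) → ℤ) := by
      funext l
      simp [Finset.sum_apply, Pi.single_apply]
    conv_rhs => rw [h1, map_sum, map_sum]
    have h2 : ((∑ k, (v k : ℚ) * s k : ℚ) : AddCircle (1 : ℚ)) =
        ∑ k, (((v k : ℚ) * s k : ℚ) : AddCircle (1 : ℚ)) :=
      map_sum (QuotientAddGroup.mk' (AddSubgroup.zmultiples (1 : ℚ))) _ _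
    rw [h2]
    refine Finset.sum_congr rfl fun k _ => ?_
    rw [map_zsmul, map_zsmul, ← hs, ← zsmul_eq_mul]
    rfl
  refine ⟨fun k => 2 * π * (s k : ℝ), fun j => ?_, ?_⟩
  · have h1 : χ (q (C.a j)) = 0 := by
      have : q (C.a j) = 0 :=
        (QuotientAddGroup.eq_zero_iff _).2 (AddSubgroup.subset_closure ⟨j, rfl⟩)
      rw [this, map_zero]
    rw [← key, AddCircle.coe_eq_zero_iff] at h1
    obtain ⟨n, hn⟩ := h1
    refine exp_int (n := n) ?_
    have h2 : ((∑ k, (C.a j k : ℚ) * s k : ℚ) : ℝ) = n := by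
      rw [← hn]
      simp
    rw [← h2]
    push_cast
    rw [Finset.mul_sum]
    refine Finset.sum_congr rfl fun k _ => ?_
    ring
  · set S : ℚ := ∑ k, (C.b k : ℚ) * s k with hS
    have h3 : ∑ l, (C.b l : ℝ) * (2 * π * (s l : ℝ)) = 2 * π * (S : ℝ) := by
      rw [hS]
      push_cast
      rw [Finset.mul_sum]
      refine Finset.sum_congr rfl fun k _ => ?_
      ring
    have h4 : χ (q (C.b + C.b)) = 0 := by
      have h5 : q (C.b + C.b) = 0 := by
        refine (QuotientAddGroup.eq_zero_iff _).2 ?_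
        have h6 : C.b + C.b = ∑ j, C.n j • C.a j := by
          funext k
          rw [Finset.sum_apply]
          have := hC.expo k
          simp only [Pi.add_apply, Pi.smul_apply, nsmul_eq_mul]
          linarith
        rw [h6]
        refine AddSubgroup.sum_mem _ fun j _ => ?_
        exact AddSubgroup.nsmul_mem _ (AddSubgroup.subset_closure (Set.mem_range_self j)) _
      rw [h5, map_zero]
    rw [← key, AddCircle.coe_eq_zero_iff] at h4
    obtain ⟨n, hn⟩ := h4
    have h7 : (n : ℚ) = 2 * S := by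
      rw [zsmul_eq_mul, mul_one] at hn
      rw [hn, hS, Finset.mul_sum]
      refine Finset.sum_congr rfl fun k _ => ?_
      simp only [Pi.add_apply]
      push_cast
      ring
    rw [h3]
    set w := Complex.exp (((2 * π * (S : ℝ) : ℝ) : ℂ) * Complex.I) with hw
    have h8 : w * w = 1 := by
      rw [hw, ← Complex.exp_add, ← add_mul, ← Complex.ofReal_add]
      refine exp_int (n := n) ?_
      have h9 : (n : ℝ) = 2 * (S : ℝ) := by exact_mod_cast h7
      rw [h9]
      ring
    rcases mul_self_eq_one_iff.1 h8 with h | h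
    · exfalso
      rw [hw, Complex.exp_eq_one_iff] at h
      obtain ⟨k, hk⟩ := h
      have h10 : (S : ℝ) = k := by
        have h11 : ((2 * π * (S : ℝ) : ℝ) : ℂ) = ((k * (2 * π) : ℝ) : ℂ) := by
          have h12 := mul_right_cancel₀ Complex.I_ne_zero
            (show ((2 * π * (S : ℝ) : ℝ) : ℂ) * Complex.I = ((k * (2 * π) : ℝ) : ℂ) * Complex.I by
              rw [hk]
              push_cast
              ring)
          exact h12
        have h13 := Complex.ofReal_injective h11
        have hpi := Real.pi_pos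
        have h14 : 2 * π * ((S : ℝ) - k) = 0 := by linarith
        have h15 := (mul_eq_zero.1 h14).resolve_left (by positivity)
        linarith
      have h16 : S = (k : ℚ) := by exact_mod_cast h10
      apply hχ
      rw [← key, ← hS, h16, AddCircle.coe_eq_zero_iff]
      exact ⟨k, by simp⟩
    · exact h

/-- Criteria for `E` to exceed `1` over all embeddings. -/
theorem exceeds {m : ℕ} {C : Dat K (m + 1) r} (hC : C.Admissible)
    (h : (∃ p : Fin r → ℕ, (∀ j, C.n j = 2 * p j) ∧ C.c = ∏ j, (-C.ε j) ^ p j) ∨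
      C.b ∉ AddSubgroup.closure (Set.range C.a)) : C.Exceeds σ := by
  obtain ⟨y, e, he, he', hpos⟩ := exists_base σ hC
  set v := σ C.c * Complex.exp (((∑ k, (C.b k : ℝ) * y k : ℝ) : ℂ) * Complex.I) with hv
  set w := Complex.exp (((∑ j, C.n j * ((e j - π) / 2) : ℝ) : ℂ) * Complex.I) with hw
  have hprod := prod_one_sub (n := C.n) he
  have hbk : ∀ k, 2 * (C.b k : ℝ) = ∑ j, (C.n j : ℝ) * (C.a j k : ℝ) := by
    intro k
    exact_mod_cast hC.expo k
  have hcomb : 2 * ∑ k, (C.b k : ℝ) * y k = ∑ j, C.n j * ∑ l, (C.a j l : ℝ) * y l := by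
    have h1 : ∀ k, 2 * ((C.b k : ℝ) * y k) = ∑ j, C.n j * ((C.a j k : ℝ) * y k) := by
      intro k
      rw [← mul_assoc, hbk, Finset.sum_mul]
      refine Finset.sum_congr rfl fun j _ => ?_
      ring
    rw [Finset.mul_sum, Finset.sum_congr rfl fun k _ => h1 k, Finset.sum_comm]
    refine Finset.sum_congr rfl fun j _ => ?_
    rw [Finset.mul_sum]
  have hsq : v * v = w * w := by
    have h1 : σ (C.c : K) * σ (C.c : K) = ∏ j, (-σ (C.ε j)) ^ C.n j := by
      have h2 := congrArg (fun u : Kˣ => σ (u : K)) hC.coeff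
      simp only [Units.val_pow_eq_pow_val, map_pow, Units.coe_prod, map_prod,
        Units.val_neg, map_neg] at h2
      rw [← h2]
      ring
    have h3 : v * v = (σ (C.c : K) * σ (C.c : K)) *
        Complex.exp (((2 * ∑ k, (C.b k : ℝ) * y k : ℝ) : ℂ) * Complex.I) := by
      rw [hv, Complex.ofReal_mul, Complex.ofReal_ofNat, mul_assoc 2, two_mul, Complex.exp_add]
      ring
    rw [h3, h1, hcomb, exp_comb σ he', hw, ← Complex.exp_add, ← add_mul, ← Complex.ofReal_add,
      ← Finset.sum_add_distrib]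
    congr 3
    refine Finset.sum_congr rfl fun j _ => ?_
    ring
  rcases mul_self_eq_mul_self_iff.1 hsq with h1 | h1
  · refine ⟨y, Real.exp (∑ j, C.n j * Ls (e j)), Real.one_lt_exp_iff.2 hpos, ?_⟩
    simp only [he']
    rw [hprod, ← hw, ← h1]
  · rcases h with ⟨p, hp, hcp⟩ | hb
    · exfalso
      have h2 : v = w := by
        have h3 : σ (C.c : K) = ∏ j, (-σ (C.ε j)) ^ p j := by
          rw [hcp]
          simp only [Units.val_pow_eq_pow_val, map_pow, Units.coe_prod, map_prod,
            Units.val_neg, map_neg]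
        have h4 : ∑ k, (C.b k : ℝ) * y k = ∑ j, p j * ∑ l, (C.a j l : ℝ) * y l := by
          have h5 : ∀ j, (C.n j : ℝ) * ∑ l, (C.a j l : ℝ) * y l =
              2 * (p j * ∑ l, (C.a j l : ℝ) * y l) := by
            intro j
            rw [hp j]
            push_cast
            ring
          rw [Finset.sum_congr rfl fun j _ => h5 j, ← Finset.mul_sum] at hcomb
          linarith
        rw [hv, h3, h4, exp_comb σ he', hw]
        congr 3
        refine Finset.sum_congr rfl fun j _ => ?_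
        rw [hp j]
        push_cast
        ring
      rw [h2] at h1
      have h6 : w ≠ 0 := Complex.exp_ne_zero _
      have h7 : (2 : ℂ) * w = 0 := by linear_combination h1
      exact h6 ((mul_eq_zero.1 h7).resolve_left two_ne_zero)
    · obtain ⟨z, hz1, hz2⟩ := exists_shift hC hb
      refine ⟨y + z, Real.exp (∑ j, C.n j * Ls (e j)), Real.one_lt_exp_iff.2 hpos, ?_⟩
      have h2 : ∀ v : Fin (m + 1) → ℤ, Complex.exp (((∑ k, (v k : ℝ) * (y + z) k : ℝ) : ℂ) *
          Complex.I) = Complex.exp (((∑ k, (v k : ℝ) * y k : ℝ) : ℂ) * Complex.I) *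
            Complex.exp (((∑ k, (v k : ℝ) * z k : ℝ) : ℂ) * Complex.I) := by
        intro v
        rw [← Complex.exp_add, ← add_mul, ← Complex.ofReal_add, ← Finset.sum_add_distrib]
        congr 3
        refine Finset.sum_congr rfl fun k _ => ?_
        rw [Pi.add_apply]
        ring
      simp only [h2, hz1, hz2, mul_one, he']
      rw [hprod, ← hw]
      have h3 : w = -v := by rw [h1, neg_neg]
      rw [h3, hv]
      ring

end Pool.Agent.P8H1.PD
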