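import Pool.Agent.N65.TK.Defs
set_option autoImplicit false

/-!
The part `B_3 ⊗ Λ^(m-1) → B_2 ⊗ Λ^m → Λ^(m+2)` of the polylogarithmic complex of weight `m + 2`
(Goncharov), its residues, the regulator along families of complex points parametrised by an
`m`-dimensional torus, and the hypersurfaces
`∏_j (1 - m_j) ^ (n_j) = μ`, `m_j` and `μ` monomials with `μ² = ∏_j (- m_j) ^ (n_j)`.
-/

namespace Pool.Agent.P8H1.PD

open scoped TensorProduct WithZero
open Pool.Agent.N65.TK (Pt UQ tu D Five Kap red Red)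

section complex

variable (A : Type*) [CommRing A] (m : ℕ)

/-- The formal sums `∑ r {f}_2 ⊗ g_1 ∧ … ∧ g_m`, `r ∈ ℚ`. -/
abbrev FS : Type _ := (Pt A × (Fin m → Aˣ)) →₀ ℚ

variable {A m}

/-- The formal sum `{f}_2 ⊗ g_1 ∧ … ∧ g_m`. -/
noncomputable def br (f : Pt A) (g : Fin m → Aˣ) : FS A m := Finsupp.single (f, g) 1

/-- The image under a homomorphism. -/
noncomputable def FS.map {B : Type*} [CommRing B] (φ : A →+* B) : FS A m →ₗ[ℚ] FS B m :=
  Finsupp.lmapDomain ℚ ℚ fun p => (p.1.map φ, fun i => Units.map (φ : A →* B) (p.2 i))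

variable (A m)

/-- `Λ^(m+2) (A^* ⊗ ℚ)` -/
def LL : Type _ := ⋀[ℚ]^(m + 2) (UQ A)

noncomputable instance : AddCommGroup (LL A m) := Submodule.addCommGroup (⋀[ℚ]^(m + 2) (UQ A))

noncomputable instance : Module ℚ (LL A m) := Submodule.module (⋀[ℚ]^(m + 2) (UQ A))

/-- The map `(u_0, …, u_(m+1)) ↦ u_0 ∧ … ∧ u_(m+1)`. -/
noncomputable def al : (UQ A) [⋀^Fin (m + 2)]→ₗ[ℚ] (LL A m) := exteriorPower.ιMulti ℚ (m + 2)

/-- The differential `{f}_2 ⊗ g_1 ∧ … ∧ g_m ↦ (1 - f) ∧ f ∧ g_1 ∧ … ∧ g_m`. -/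
noncomputable def dif : FS A m →ₗ[ℚ] LL A m :=
  Finsupp.linearCombination ℚ fun p =>
    al A m (Fin.cons (tu p.1.co) (Fin.cons (tu p.1.1) fun i => tu (p.2 i)))

/-- The relations: multilinearity and alternation in `g_1, …, g_m`, the five term relation in `f`,
and the elements `{f}_2 ⊗ g_1 ∧ … ∧ g_m` with `g_i = f` for some `i`, the images of the elements
of `B_3 ⊗ Λ^(m-1)`. The cohomology of the complex `B_3 ⊗ Λ^(m-1) → B_2 ⊗ Λ^m → Λ^(m+2)` of `A`,
tensored with `ℚ`, is the kernel of `dif` modulo the relations. -/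
noncomputable def Rels : Submodule ℚ (FS A m) := Submodule.span ℚ
  ({s | ∃ (f : Pt A) (g : Fin m → Aˣ) (i : Fin m) (a b : Aˣ),
      s = br f (Function.update g i (a * b)) - br f (Function.update g i a) -
        br f (Function.update g i b)} ∪
   {s | ∃ (f : Pt A) (g : Fin m → Aˣ) (i j : Fin m), i ≠ j ∧ g i = g j ∧ s = br f g} ∪
   {s | ∃ (x y a b c : Pt A) (g : Fin m → Aˣ), Five x y a b c ∧
      s = br x g - br y g + br a g - br b g + br c g} ∪
   {s | ∃ (f : Pt A) (g : Fin m → Aˣ) (i : Fin m), g i = f.1 ∧ s = br f g})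

end complex

section residue

variable {L : Type*} [Field L] (v : Valuation L ℤᵐ⁰) (π : Lˣ)

/-- The order at the discrete valuation `v`. -/
noncomputable def od (g : Lˣ) : ℤ := -WithZero.log (v (g : L))

open Classical in
/-- The reduction of the unit `g π^(-ord g)`, for a uniformizer `π`. -/
noncomputable def ub (g : Lˣ) : (Kap v)ˣ :=
  if h : ∃ (u : (Kap v)ˣ) (x : v.valuationSubring), (x : L) = (g * π ^ (-od v g) : Lˣ) ∧
      red v x = (u : Kap v) then h.choose else 1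

variable {m : ℕ}

open Classical in
/-- The residue at the discrete valuation `v` with uniformizer `π`,
`{f}_2 ⊗ g_0 ∧ … ∧ g_m ↦ ∑_i (-1)^i ord(g_i) {f̄}_2 ⊗ ∧_(k ≠ i) ḡ_k`, where `ḡ_k` is the reduction of
`g_k π^(-ord g_k)`; it is `0` if `f` is not a unit at `v` or if its reduction is `1`. -/
noncomputable def bnd : FS L (m + 1) →ₗ[ℚ] FS (Kap v) m :=
  Finsupp.linearCombination ℚ fun p =>
    if h : ∃ u : Pt (Kap v), Red v p.1 u then
      ∑ i : Fin (m + 1), ((-1) ^ (i : ℕ) * (od v (p.2 i) : ℚ)) •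
        br h.choose fun k => ub v π (p.2 (i.succAbove k))
    else 0

end residue

section regulator

variable {m : ℕ}

/-- The logarithmic partial derivative `∂_i log u`. -/
noncomputable def dl (u : (Fin m → ℝ) → ℂ) (t : Fin m → ℝ) (i : Fin m) : ℂ :=
  fderiv ℝ u t (Pi.single i 1) / u t

/-- The matrix with rows `(D(f), (1 - τ²) / 2 · (log |1 - f| ∂_i log |f| - log |f| ∂_i log |1 - f|))`
and `(log |g_j|, ∂_i arg g_j + √-1 τ ∂_i log |g_j|)`, `j = 1, …, m`. -/
noncomputable def mat (f : (Fin m → ℝ) → ℂ) (g : Fin m → (Fin m → ℝ) → ℂ) (τ : ℝ)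
    (t : Fin m → ℝ) : Matrix (Fin (m + 1)) (Fin (m + 1)) ℂ :=
  Matrix.of (Fin.cons
    (Fin.cons (D (f t) : ℂ) fun i => (((1 - τ ^ 2) / 2 *
      (Real.log ‖1 - f t‖ * (dl f t i).re -
        Real.log ‖f t‖ * (dl (fun s => 1 - f s) t i).re) : ℝ) : ℂ))
    fun j => Fin.cons (Real.log ‖g j t‖ : ℂ) fun i =>
      ((dl (g j) t i).im : ℂ) + Complex.I * τ * (dl (g j) t i).re)

/-- The regulator form of `{f}_2 ⊗ g_1 ∧ … ∧ g_m` evaluated on `∂_1, …, ∂_m`. -/
noncomputable def frm (f : (Fin m → ℝ) → ℂ) (g : Fin m → (Fin m → ℝ) → ℂ) (t : Fin m → ℝ) : ℝ :=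
  1 / 2 * ∫ τ in (-1 : ℝ)..1, (mat f g τ t).det.re

/-- A family of class `C²` of complex points of the ring `A`, parametrised by the torus
`(ℝ/ℤ)^m`: a periodic family `e t`, `t ∈ ℝ^m`, of homomorphisms `A → ℂ`, such that for all `h ∈ A`
the value `e t h` is a function of class `C²` of `t`. -/
structure Tor (A : Type*) [CommRing A] (m : ℕ) where
  /-- evaluation at the point with parameter `t` -/
  e : (Fin m → ℝ) → A →+* ℂ
  smooth : ∀ h : A, ContDiff ℝ 2 fun t => e t h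
  periodic : ∀ t i, e (t + Pi.single i 1) = e t

/-- The regulator: the integral of the form over the torus. -/
noncomputable def Tor.reg {A : Type*} [CommRing A] (γ : Tor A m) : FS A m →ₗ[ℚ] ℝ :=
  Finsupp.linearCombination ℚ fun p => ∫ t in Set.Icc (0 : Fin m → ℝ) 1,
    frm (fun s => γ.e s p.1.1) (fun j s => γ.e s (p.2 j)) t

end regulator

section hypersurfaces

variable (K : Type*) [Field K] (N : ℕ)

/-- The Laurent polynomials in `N` variables. -/
abbrev LP : Type _ := AddMonoidAlgebra K (Fin N → ℤ)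

variable {K N}

/-- The unit `c x^k`. -/
noncomputable def mo (c : Kˣ) (k : Fin N → ℤ) : (LP K N)ˣ where
  val := AddMonoidAlgebra.single k (c : K)
  inv := AddMonoidAlgebra.single (-k) ((c⁻¹ : Kˣ) : K)
  val_inv := by
    rw [AddMonoidAlgebra.single_mul_single]
    simp [AddMonoidAlgebra.one_def]
  inv_val := by
    rw [AddMonoidAlgebra.single_mul_single]
    simp [AddMonoidAlgebra.one_def]

variable (K N)

/-- The data of a hypersurface: `r` monomials `m_j = ε_j x^(a_j)`, exponents `n_j`, and a monomial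
`μ = c x^b`. -/
structure Dat (r : ℕ) where
  /-- the coefficients of the monomials `m_j` -/
  ε : Fin r → Kˣ
  /-- the exponents of the variables in `m_j` -/
  a : Fin r → Fin N → ℤ
  /-- the multiplicities -/
  n : Fin r → ℕ
  /-- the coefficient of `μ` -/
  c : Kˣ
  /-- the exponents of the variables in `μ` -/
  b : Fin N → ℤ

variable {K N} {r : ℕ} (C : Dat K N r)

/-- The conditions: the exponents `a_j` are pairwise not proportional and span `ℚ^N`, the
coefficients `ε_j` are roots of unity, the multiplicities are positive, and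
`μ² = ∏_j (- m_j) ^ (n_j)`. -/
structure Dat.Admissible : Prop where
  indep : ∀ i j, i ≠ j → LinearIndependent ℤ ![C.a i, C.a j]
  span : Submodule.span ℚ (Set.range fun j k => (C.a j k : ℚ)) = ⊤
  tors : ∀ j, ∃ M : ℕ, 0 < M ∧ C.ε j ^ M = 1
  pos : ∀ j, 0 < C.n j
  coeff : C.c ^ 2 = ∏ j, (-C.ε j) ^ C.n j
  expo : ∀ k, 2 * C.b k = ∑ j, C.n j * C.a j k

/-- The monomial `m_j = ε_j x^(a_j)`. -/
noncomputable def Dat.m (j : Fin r) : (LP K N)ˣ := mo (C.ε j) (C.a j)

/-- The equation `∏_j (1 - m_j) ^ (n_j) - μ`. -/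
noncomputable def Dat.eqn : LP K N :=
  ∏ j, (1 - (C.m j : LP K N)) ^ C.n j - (mo C.c C.b : (LP K N)ˣ)

/-- The real function `E = μ⁻¹ ∏_j (1 - m_j) ^ (n_j)` on the compact torus `|x_k| = 1`,
`x_k = exp(√-1 y_k)`, over the embedding `σ` takes a value `ρ` greater than `1`. -/
def Dat.Exceeds (σ : K →+* ℂ) : Prop := ∃ (y : Fin N → ℝ) (ρ : ℝ), 1 < ρ ∧
  ∏ j, (1 - σ (C.ε j) * Complex.exp (((∑ k, (C.a j k : ℝ) * y k : ℝ) : ℂ) * Complex.I)) ^ C.n j =
    ρ * (σ C.c * Complex.exp (((∑ k, (C.b k : ℝ) * y k : ℝ) : ℂ) * Complex.I))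

/-- The coordinate ring of the hypersurface in the torus. -/
def Dat.Ring : Type _ := LP K N ⧸ Ideal.span {C.eqn}

noncomputable instance : CommRing C.Ring := Ideal.Quotient.commRing (Ideal.span {C.eqn})

/-- The restriction of functions to the hypersurface. -/
noncomputable def Dat.proj : LP K N →+* C.Ring := Ideal.Quotient.mk (Ideal.span {C.eqn})

/-- The constants. -/
noncomputable def Dat.cst : K →+* C.Ring := C.proj.comp AddMonoidAlgebra.singleZeroRingHom

/-- The unit `c x^k` on the hypersurface. -/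
noncomputable def Dat.mn (c : Kˣ) (k : Fin N → ℤ) : C.Ringˣ :=
  Units.map (C.proj : LP K N →* C.Ring) (mo c k)

/-- The coordinate `x_i` on the hypersurface. -/
noncomputable def Dat.x (i : Fin N) : C.Ringˣ := C.mn 1 (Pi.single i 1)

theorem Dat.prod_eq : ∏ j, (1 - (C.mn (C.ε j) (C.a j) : C.Ring)) ^ C.n j = C.mn C.c C.b := by
  have h : C.proj C.eqn = 0 := Ideal.Quotient.eq_zero_iff_mem.2 (Ideal.subset_span rfl)
  unfold Dat.eqn at h
  rw [map_sub, sub_eq_zero, map_prod] at h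
  refine Eq.trans ?_ h
  refine Finset.prod_congr rfl fun j _ => ?_
  rw [map_pow, map_sub, map_one]
  rfl

variable {C}

/-- The function `m_j = ε_j x^(a_j)` on the hypersurface; `1 - m_j` is a unit. -/
noncomputable def Dat.pt (hC : C.Admissible) (j : Fin r) : Pt C.Ring :=
  ⟨C.mn (C.ε j) (C.a j), by
    have h1 : IsUnit (∏ j, (1 - (C.mn (C.ε j) (C.a j) : C.Ring)) ^ C.n j) := by
      rw [C.prod_eq]
      exact Units.isUnit _
    rw [← Finset.mul_prod_erase Finset.univ _ (Finset.mem_univ j)] at h1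
    have h2 := isUnit_of_mul_isUnit_left h1
    rwa [isUnit_pow_iff (hC.pos j).ne'] at h2⟩

/-- The element `∑_j ∑_i (-1)^i n_j a_(j,i) / |a_j|² {m_j}_2 ⊗ ∧_(k ≠ i) x_k`, where
`|a_j|² = ∑_k a_(j,k)²`. -/
noncomputable def Dat.alpha {m : ℕ} {C : Dat K (m + 1) r} (hC : C.Admissible) : FS C.Ring m :=
  ∑ j, ∑ i : Fin (m + 1), ((-1) ^ (i : ℕ) * (C.n j * C.a j i : ℚ) / ∑ k, (C.a j k : ℚ) ^ 2) •
    br (Dat.pt hC j) fun k => C.x (i.succAbove k)

end hypersurfaces

end Pool.Agent.P8H1.PD
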