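import Pool.Agent.N65.TK.Rel
set_option autoImplicit false

/-!
Real differentiability of the Bloch-Wigner function and of the single-valued trilogarithm.
-/

namespace Pool.Agent.P8H1.PD

open Set Filter Topology Pool.Agent.W367.KT Pool.Agent.N65.TK

theorem differentiableAt_logNorm {z : ℂ} (h : z ≠ 0) :
    DifferentiableAt ℝ (fun w : ℂ => Real.log ‖w‖) z := by
  have h1 : DifferentiableAt ℝ (fun w : ℂ => ‖w‖) z := differentiableAt_id.norm ℂ h
  exact h1.log (norm_ne_zero_iff.2 h)

theorem differentiableAt_re {f : ℂ → ℂ} {z : ℂ} (h : DifferentiableAt ℝ f z) :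
    DifferentiableAt ℝ (fun w => (f w).re) z :=
  Complex.reCLM.differentiableAt.comp z h

theorem differentiableAt_im {f : ℂ → ℂ} {z : ℂ} (h : DifferentiableAt ℝ f z) :
    DifferentiableAt ℝ (fun w => (f w).im) z :=
  Complex.imCLM.differentiableAt.comp z h

theorem differentiableAt_D1 {z : ℂ} (h0 : z ≠ 0) (hz : z ∈ S1) : DifferentiableAt ℝ D1 z := by
  have h1 : DifferentiableAt ℝ Li z := (hasDerivAt_Li hz).differentiableAt.restrictScalars ℝ
  have h2 : DifferentiableAt ℂ (fun w : ℂ => Complex.log (1 - w)) z :=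
    DifferentiableAt.clog (by fun_prop) hz
  exact (differentiableAt_im h1).add ((differentiableAt_im (h2.restrictScalars ℝ)).mul
    (differentiableAt_logNorm h0))

theorem differentiableAt_M1 {z : ℂ} (h0 : z ≠ 0) (hz : z ∈ S1) : DifferentiableAt ℝ M1 z := by
  have h1 : DifferentiableAt ℝ Li z := (hasDerivAt_Li hz).differentiableAt.restrictScalars ℝ
  have h3 : DifferentiableAt ℝ Li3 z := (hasDerivAt_Li3 hz).differentiableAt.restrictScalars ℝ
  have hne : 1 - z ≠ 0 := Complex.slitPlane_ne_zero hz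
  have h2 : DifferentiableAt ℝ (fun w : ℂ => Real.log ‖1 - w‖) z :=
    DifferentiableAt.comp (g := fun w : ℂ => Real.log ‖w‖) z (differentiableAt_logNorm hne)
      (by fun_prop)
  exact ((differentiableAt_re h3).neg.add ((differentiableAt_logNorm h0).mul
    (differentiableAt_re h1))).add ((((differentiableAt_logNorm h0).pow 2).const_mul (1 / 3)).mul h2)

theorem differentiableAt_inv' {z : ℂ} (h0 : z ≠ 0) : DifferentiableAt ℝ (fun w : ℂ => w⁻¹) z :=
  (differentiableAt_inv (𝕜 := ℂ) h0).restrictScalars ℝ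

theorem differentiableAt_D {z : ℂ} (h0 : z ≠ 0) (h1 : z ≠ 1) : DifferentiableAt ℝ D z := by
  by_cases h : z ∈ S1
  · refine (differentiableAt_D1 h0 h).congr_of_eventuallyEq ?_
    filter_upwards [isOpen_S1.mem_nhds h] with w hw
    exact D_of_mem hw
  · have h2 := mem_S2_of_not_mem_S1 h1 h
    have h3 : DifferentiableAt ℝ (fun w : ℂ => -D1 w⁻¹) z :=
      (DifferentiableAt.comp (g := D1) (f := fun w : ℂ => w⁻¹) z
        (differentiableAt_D1 (inv_ne_zero h0) h2.2) (differentiableAt_inv' h0)).neg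
    refine h3.congr_of_eventuallyEq ?_
    filter_upwards [isOpen_S2.mem_nhds h2] with w hw
    rw [D_of_mem_S2 hw, D_of_mem hw.2]

theorem differentiableAt_Mf {z : ℂ} (h0 : z ≠ 0) (h1 : z ≠ 1) : DifferentiableAt ℝ Mf z := by
  by_cases h : z ∈ S1
  · refine (differentiableAt_M1 h0 h).congr_of_eventuallyEq ?_
    filter_upwards [isOpen_S1.mem_nhds h] with w hw
    exact if_pos hw
  · have h2 := mem_S2_of_not_mem_S1 h1 h
    have h3 : DifferentiableAt ℝ (fun w : ℂ => M1 w⁻¹) z :=
      DifferentiableAt.comp (g := M1) (f := fun w : ℂ => w⁻¹) z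
        (differentiableAt_M1 (inv_ne_zero h0) h2.2) (differentiableAt_inv' h0)
    refine h3.congr_of_eventuallyEq ?_
    filter_upwards [isOpen_S2.mem_nhds h2] with w hw
    unfold Mf
    split_ifs with hS
    · exact M1_eq_M2 (mem_neg_slit_of hS hw)
    · rfl

section comp

variable {E : Type*} [NormedAddCommGroup E] [NormedSpace ℝ E] {u : E → ℂ} {u' : E →L[ℝ] ℂ} {x : E}

theorem line_deriv (hu : HasFDerivAt u u' x) (v : E) :
    HasDerivAt (fun s : ℝ => u (x + s • v)) (u' v) 0 := by
  have h1 : HasDerivAt (fun s : ℝ => x + s • v) v 0 := by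
    simpa using ((hasDerivAt_id (0 : ℝ)).smul_const v).const_add x
  have h2 : HasFDerivAt u u' (x + (0 : ℝ) • v) := by simpa using hu
  exact h2.comp_hasDerivAt (0 : ℝ) h1

theorem line_deriv' {h : E → ℝ} (hu : DifferentiableAt ℝ h x) (v : E) :
    HasDerivAt (fun s : ℝ => h (x + s • v)) (fderiv ℝ h x v) 0 := by
  have h1 : HasDerivAt (fun s : ℝ => x + s • v) v 0 := by
    simpa using ((hasDerivAt_id (0 : ℝ)).smul_const v).const_add x
  have h2 : HasFDerivAt h (fderiv ℝ h x) (x + (0 : ℝ) • v) := by simpa using hu.hasFDerivAt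
  exact h2.comp_hasDerivAt (0 : ℝ) h1

theorem D_comp (hu : HasFDerivAt u u' x) (h0 : u x ≠ 0) (h1 : u x ≠ 1) :
    DifferentiableAt ℝ (fun y => D (u y)) x ∧
      ∀ v, fderiv ℝ (fun y => D (u y)) x v = eta (u x) (u' v) := by
  have hd : DifferentiableAt ℝ (fun y => D (u y)) x :=
    DifferentiableAt.comp (g := D) x (differentiableAt_D h0 h1) hu.differentiableAt
  refine ⟨hd, fun v => ?_⟩
  have h2 := line_deriv' hd v
  have h3 := hasDerivAt_D (line_deriv hu v) (by simpa using h0) (by simpa using h1)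
  have h4 := h2.unique h3
  simpa using h4

theorem Mf_comp (hu : HasFDerivAt u u' x) (h0 : u x ≠ 0) (h1 : u x ≠ 1) :
    DifferentiableAt ℝ (fun y => Mf (u y)) x ∧
      ∀ v, fderiv ℝ (fun y => Mf (u y)) x v = tau (u x) (u' v) := by
  have hd : DifferentiableAt ℝ (fun y => Mf (u y)) x :=
    DifferentiableAt.comp (g := Mf) x (differentiableAt_Mf h0 h1) hu.differentiableAt
  refine ⟨hd, fun v => ?_⟩
  have h2 := line_deriv' hd v
  have h3 := hasDerivAt_Mf (line_deriv hu v) (by simpa using h0) (by simpa using h1)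
  have h4 := h2.unique h3
  simpa using h4

theorem ln_comp (hu : HasFDerivAt u u' x) (h0 : u x ≠ 0) :
    DifferentiableAt ℝ (fun y => Real.log ‖u y‖) x ∧
      ∀ v, fderiv ℝ (fun y => Real.log ‖u y‖) x v = (u' v / u x).re := by
  have hd : DifferentiableAt ℝ (fun y => Real.log ‖u y‖) x :=
    DifferentiableAt.comp (g := fun w : ℂ => Real.log ‖w‖) x (differentiableAt_logNorm h0)
      hu.differentiableAt
  refine ⟨hd, fun v => ?_⟩
  have h2 := line_deriv' hd v
  have h3 := hasDerivAt_logNorm (line_deriv hu v) (by simpa using h0)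
  have h4 := h2.unique h3
  simpa using h4

end comp

end Pool.Agent.P8H1.PD
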