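import Mathlib
set_option autoImplicit false

/-!
Determinants of closed covector fields and the divergence theorem on a box.
-/

namespace Pool.Agent.P8H1.PD

open Set MeasureTheory Filter Topology

section det

variable {N : ℕ}

/-- the determinant of the matrix with the given rows -/
noncomputable def dt (w : Fin N → Fin N → ℂ) : ℂ := Matrix.det (Matrix.of w)

theorem dt_eq (w : Fin N → Fin N → ℂ) : dt w = (Matrix.detRowAlternating (R := ℂ) (n := Fin N)) w :=
  rfl

theorem dt_cons_add (v v' : Fin (N + 1) → ℂ) (w : Fin N → Fin (N + 1) → ℂ) :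
    dt (Fin.cons (v + v') w) = dt (Fin.cons v w) + dt (Fin.cons v' w) := by
  rw [dt_eq, dt_eq, dt_eq]
  exact MultilinearMap.cons_add (Matrix.detRowAlternating (R := ℂ) (n := Fin (N + 1))).toMultilinearMap
    w v v'

theorem dt_cons_smul (c : ℂ) (v : Fin (N + 1) → ℂ) (w : Fin N → Fin (N + 1) → ℂ) :
    dt (Fin.cons (c • v) w) = c * dt (Fin.cons v w) := by
  rw [dt_eq, dt_eq]
  exact MultilinearMap.cons_smul (Matrix.detRowAlternating (R := ℂ) (n := Fin (N + 1))).toMultilinearMap
    w c v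

theorem dt_upd_add (w : Fin N → Fin N → ℂ) (i : Fin N) (v v' : Fin N → ℂ) :
    dt (Function.update w i (v + v')) = dt (Function.update w i v) + dt (Function.update w i v') := by
  rw [dt_eq, dt_eq, dt_eq]
  exact AlternatingMap.map_update_add _ _ _ _ _

theorem dt_upd_smul (w : Fin N → Fin N → ℂ) (i : Fin N) (c : ℂ) (v : Fin N → ℂ) :
    dt (Function.update w i (c • v)) = c * dt (Function.update w i v) := by
  rw [dt_eq, dt_eq]
  exact AlternatingMap.map_update_smul _ _ _ _ _

theorem dt_zero_of_eq (w : Fin N → Fin N → ℂ) {i j : Fin N} (h : w i = w j) (hij : i ≠ j) :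
    dt w = 0 := by
  rw [dt_eq]
  exact AlternatingMap.map_eq_zero_of_eq _ _ h hij

/-- The determinant as a function of the first row and of the row `i + 1`. -/
noncomputable def bl (w : Fin N → Fin (N + 1) → ℂ) (i : Fin N) :
    (Fin (N + 1) → ℂ) →ₗ[ℂ] (Fin (N + 1) → ℂ) →ₗ[ℂ] ℂ :=
  LinearMap.mk₂ ℂ (fun v x => dt (Fin.cons v (Function.update w i x)))
    (fun _ _ _ => dt_cons_add _ _ _) (fun _ _ _ => dt_cons_smul _ _ _)
    (fun _ _ _ => by
      simp only [Fin.cons_update]
      exact dt_upd_add _ _ _ _) (fun _ _ _ => by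
      simp only [Fin.cons_update]
      exact dt_upd_smul _ _ _ _)

theorem bl_apply (w : Fin N → Fin (N + 1) → ℂ) (i : Fin N) (v x : Fin (N + 1) → ℂ) :
    bl w i v x = dt (Fin.cons v (Function.update w i x)) := rfl

theorem bl_self (w : Fin N → Fin (N + 1) → ℂ) (i : Fin N) (v : Fin (N + 1) → ℂ) :
    bl w i v v = 0 := by
  rw [bl_apply]
  refine dt_zero_of_eq _ (i := 0) (j := i.succ) ?_ (Fin.succ_ne_zero i).symm
  rw [Fin.cons_zero, Fin.cons_succ, Function.update_self]

theorem alt_neg {V : Type*} [AddCommGroup V] [Module ℂ V] (B : V →ₗ[ℂ] V →ₗ[ℂ] ℂ)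
    (hB : ∀ v, B v v = 0) (v x : V) : B x v = -B v x := by
  have h := hB (v + x)
  simp only [map_add, LinearMap.add_apply, hB] at h
  linear_combination h

/-- An alternating form vanishes on symmetric tensors. -/
theorem alt_sym {V : Type*} [AddCommGroup V] [Module ℂ V] (B : V →ₗ[ℂ] V →ₗ[ℂ] ℂ)
    (hB : ∀ v, B v v = 0) {ι : Type*} [Fintype ι] (e : ι → V) (H : ι → ι → ℂ)
    (hH : ∀ i k, H i k = H k i) : ∑ i, B (e i) (∑ k, H i k • e k) = 0 := by
  have h1 : ∑ i, B (e i) (∑ k, H i k • e k) = ∑ i, ∑ k, H i k * B (e i) (e k) := by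
    refine Finset.sum_congr rfl fun i _ => ?_
    rw [map_sum]
    refine Finset.sum_congr rfl fun k _ => ?_
    rw [map_smul, smul_eq_mul]
  have h2 : ∑ i, ∑ k, H i k * B (e i) (e k) = -∑ i, ∑ k, H i k * B (e i) (e k) := by
    conv_lhs => rw [Finset.sum_comm]
    rw [← Finset.sum_neg_distrib]
    refine Finset.sum_congr rfl fun i _ => ?_
    rw [← Finset.sum_neg_distrib]
    refine Finset.sum_congr rfl fun k _ => ?_
    rw [hH k i, alt_neg B hB (e i) (e k)]
    ring
  rw [h1]
  linear_combination (1 / 2 : ℂ) * h2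

theorem vec_eq (v : Fin N → ℂ) : v = ∑ k, v k • (Pi.single k 1 : Fin N → ℂ) := by
  ext i
  simp [Finset.sum_apply, Pi.single_apply]

/-- the determinant as a continuous multilinear map -/
noncomputable def cdt (N : ℕ) : ContinuousMultilinearMap ℝ (fun _ : Fin N => Fin N → ℂ) ℂ where
  toMultilinearMap :=
    (Matrix.detRowAlternating (R := ℂ) (n := Fin N)).toMultilinearMap.restrictScalars ℝ
  cont := by
    show Continuous fun w : Fin N → Fin N → ℂ => Matrix.det (Matrix.of w)
    exact Continuous.matrix_det continuous_id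

theorem cdt_apply (w : Fin N → Fin N → ℂ) : cdt N w = dt w := rfl

theorem hasFDerivAt_dt {E : Type*} [NormedAddCommGroup E] [NormedSpace ℝ E]
    {W : E → Fin N → Fin N → ℂ} {W' : Fin N → E →L[ℝ] (Fin N → ℂ)} {x : E}
    (h : ∀ j, HasFDerivAt (fun y => W y j) (W' j) x) :
    HasFDerivAt (fun y => dt (W y)) (((cdt N).linearDeriv (W x)).comp
      (ContinuousLinearMap.pi W')) x := by
  have h1 : HasFDerivAt W (ContinuousLinearMap.pi W') x := hasFDerivAt_pi.2 h
  exact ((cdt N).hasFDerivAt (W x)).comp x h1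

theorem dt_deriv_apply {E : Type*} [NormedAddCommGroup E] [NormedSpace ℝ E]
    {W : Fin N → Fin N → ℂ} {W' : Fin N → E →L[ℝ] (Fin N → ℂ)} (v : E) :
    (((cdt N).linearDeriv W).comp (ContinuousLinearMap.pi W')) v =
      ∑ j, dt (Function.update W j (W' j v)) := by
  rw [ContinuousLinearMap.comp_apply, ContinuousMultilinearMap.linearDeriv_apply]
  rfl

theorem continuous_dt {E : Type*} [TopologicalSpace E] {s : Set E} {W : E → Fin N → Fin N → ℂ}
    (h : ∀ j, ContinuousOn (fun y => W y j) s) : ContinuousOn (fun y => dt (W y)) s := by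
  have h1 : Continuous fun w : Fin N → Fin N → ℂ => dt w := (cdt N).cont
  exact h1.comp_continuousOn (continuousOn_pi.2 h)

end det

section closed

variable {N : ℕ}

/-- A closed covector field of class `C¹`. -/
structure IsCl (w : (Fin N → ℝ) → Fin N → ℂ) : Prop where
  smooth : ContDiff ℝ 1 w
  symm : ∀ x i k, fderiv ℝ w x (Pi.single i 1) k = fderiv ℝ w x (Pi.single k 1) i

theorem IsCl.hasFDerivAt {w : (Fin N → ℝ) → Fin N → ℂ} (h : IsCl w) (x : Fin N → ℝ) :
    HasFDerivAt w (fderiv ℝ w x) x :=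
  (h.smooth.differentiable (by norm_num) x).hasFDerivAt

theorem IsCl.add {w w' : (Fin N → ℝ) → Fin N → ℂ} (h : IsCl w) (h' : IsCl w') :
    IsCl (fun x => w x + w' x) where
  smooth := h.smooth.add h'.smooth
  symm x i k := by
    rw [((h.hasFDerivAt x).fun_add (h'.hasFDerivAt x)).fderiv]
    simp only [_root_.add_apply, Pi.add_apply]
    rw [h.symm, h'.symm]

theorem IsCl.smul {w : (Fin N → ℝ) → Fin N → ℂ} (h : IsCl w) (c : ℂ) :
    IsCl (fun x => c • w x) where
  smooth := h.smooth.const_smul c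
  symm x i k := by
    rw [((h.hasFDerivAt x).fun_const_smul c).fderiv]
    show c • (fderiv ℝ w x (Pi.single i 1) k) = c • (fderiv ℝ w x (Pi.single k 1) i)
    rw [h.symm]

theorem IsCl.const (c : Fin N → ℂ) : IsCl (fun _ : Fin N → ℝ => c) where
  smooth := contDiff_const
  symm x i k := by simp

/-- the image under a real linear map `ℂ → ℂ` -/
theorem IsCl.map {w : (Fin N → ℝ) → Fin N → ℂ} (h : IsCl w) (L : ℂ →L[ℝ] ℂ) :
    IsCl (fun x i => L (w x i)) := by
  set P : (Fin N → ℂ) →L[ℝ] (Fin N → ℂ) :=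
    ContinuousLinearMap.pi fun i => L.comp (ContinuousLinearMap.proj i) with hP
  have h1 : (fun x i => L (w x i)) = fun x => P (w x) := rfl
  rw [h1]
  refine ⟨P.contDiff.comp h.smooth, fun x i k => ?_⟩
  have h2 : HasFDerivAt (fun x => P (w x)) (P.comp (fderiv ℝ w x)) x :=
    P.hasFDerivAt.comp x (h.hasFDerivAt x)
  rw [h2.fderiv]
  show L (fderiv ℝ w x (Pi.single i 1) k) = L (fderiv ℝ w x (Pi.single k 1) i)
  rw [h.symm]

/-- the gradient -/
noncomputable def grad (u : (Fin N → ℝ) → ℂ) (x : Fin N → ℝ) : Fin N → ℂ :=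
  fun i => fderiv ℝ u x (Pi.single i 1)

theorem IsCl.grad {u : (Fin N → ℝ) → ℂ} (h : ContDiff ℝ 2 u) : IsCl (grad u) := by
  have h1 : ContDiff ℝ 1 (fderiv ℝ u) := h.fderiv_right (by norm_num)
  set P : ((Fin N → ℝ) →L[ℝ] ℂ) →L[ℝ] (Fin N → ℂ) :=
    ContinuousLinearMap.pi fun i => ContinuousLinearMap.apply ℝ ℂ (Pi.single i 1) with hP
  have h0 : PD.grad u = fun x => P (fderiv ℝ u x) := rfl
  rw [h0]
  refine ⟨P.contDiff.comp h1, fun x i k => ?_⟩
  have h2 : HasFDerivAt (fderiv ℝ u) (fderiv ℝ (fderiv ℝ u) x) x :=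
    (h1.differentiable (by norm_num) x).hasFDerivAt
  have h3 : HasFDerivAt (fun x => P (fderiv ℝ u x)) (P.comp (fderiv ℝ (fderiv ℝ u) x)) x :=
    P.hasFDerivAt.comp x h2
  rw [h3.fderiv]
  show fderiv ℝ (fderiv ℝ u) x (Pi.single i 1) (Pi.single k 1) =
    fderiv ℝ (fderiv ℝ u) x (Pi.single k 1) (Pi.single i 1)
  have h4 : IsSymmSndFDerivAt ℝ u x := by
    refine ContDiffAt.isSymmSndFDerivAt (n := 2) h.contDiffAt ?_
    simp
  exact h4 _ _

/-- the logarithmic gradient of a function without zeros -/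
noncomputable def lgrad (u : (Fin N → ℝ) → ℂ) (x : Fin N → ℝ) : Fin N → ℂ :=
  fun i => fderiv ℝ u x (Pi.single i 1) / u x

theorem IsCl.lgrad {u : (Fin N → ℝ) → ℂ} (h : ContDiff ℝ 2 u) (h0 : ∀ x, u x ≠ 0) :
    IsCl (lgrad u) := by
  have hg := IsCl.grad h
  have h1 : PD.lgrad u = fun x => (u x)⁻¹ • PD.grad u x := by
    funext x i
    show fderiv ℝ u x (Pi.single i 1) / u x = (u x)⁻¹ • fderiv ℝ u x (Pi.single i 1)
    rw [smul_eq_mul, div_eq_inv_mul]
  have hi : ContDiff ℝ 1 fun x => (u x)⁻¹ := (h.of_le (by norm_num)).inv h0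
  rw [h1]
  refine ⟨hi.smul hg.smooth, fun x i k => ?_⟩
  have h2 : HasFDerivAt (fun x => (u x)⁻¹) (-(u x ^ 2)⁻¹ • fderiv ℝ u x) x := by
    have h3 : HasDerivAt (fun z : ℂ => z⁻¹) (-(u x ^ 2)⁻¹) (u x) := hasDerivAt_inv (h0 x)
    have h4 : HasFDerivAt u (fderiv ℝ u x) x :=
      (h.differentiable (by norm_num) x).hasFDerivAt
    exact HasDerivAt.comp_hasFDerivAt x h3 h4
  have h5 := h2.fun_smul (hg.hasFDerivAt x)
  rw [h5.fderiv]
  simp only [_root_.add_apply, _root_.smul_apply,
    ContinuousLinearMap.smulRight_apply, Pi.add_apply, Pi.smul_apply, smul_eq_mul]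
  rw [hg.symm x i k]
  show _ + _ * fderiv ℝ u x (Pi.single i 1) * fderiv ℝ u x (Pi.single k 1) =
    _ + _ * fderiv ℝ u x (Pi.single k 1) * fderiv ℝ u x (Pi.single i 1)
  ring

end closed

section stokes

variable {N : ℕ}

/-- the determinant of closed covector fields is a divergence -/
theorem hasFDerivAt_cof {w : Fin N → (Fin (N + 1) → ℝ) → Fin (N + 1) → ℂ} (hw : ∀ j, IsCl (w j))
    (e : Fin (N + 1) → ℂ) (x : Fin (N + 1) → ℝ) :
    ∃ F : (Fin (N + 1) → ℝ) →L[ℝ] ℂ,
      HasFDerivAt (fun y => dt (Fin.cons e fun j => w j y)) F x ∧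
      ∀ v, F v = ∑ j, bl (fun j => w j x) j e (fderiv ℝ (w j) x v) := by
  set W' : Fin (N + 1) → (Fin (N + 1) → ℝ) →L[ℝ] (Fin (N + 1) → ℂ) :=
    Fin.cons 0 fun j => fderiv ℝ (w j) x with hW'
  have h1 : ∀ j, HasFDerivAt (fun y => (Fin.cons e fun j => w j y : Fin (N + 1) → _) j) (W' j) x := by
    intro j
    refine Fin.cases ?_ (fun j => ?_) j
    · exact hasFDerivAt_const e x
    · exact (hw j).hasFDerivAt x
  refine ⟨_, hasFDerivAt_dt h1, fun v => ?_⟩
  rw [dt_deriv_apply, Fin.sum_univ_succ]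
  have h2 : dt (Function.update (Fin.cons e fun j => w j x : Fin (N + 1) → _) 0 ((W' 0) v)) = 0 := by
    have h3 : W' 0 v = (0 : ℂ) • (0 : Fin (N + 1) → ℂ) := by
      rw [hW', Fin.cons_zero, zero_smul]
      rfl
    rw [h3, dt_upd_smul, zero_mul]
  rw [h2, zero_add]
  refine Finset.sum_congr rfl fun j _ => ?_
  rw [bl_apply, Fin.cons_update]
  rfl

/-- the divergence theorem -/
theorem stokes {a b : Fin (N + 1) → ℝ} (hab : a ≤ b) {w : Fin N → (Fin (N + 1) → ℝ) → Fin (N + 1) → ℂ}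
    (hw : ∀ j, IsCl (w j)) {u : (Fin (N + 1) → ℝ) → ℂ}
    (hu : ∀ x ∈ Icc a b, DifferentiableAt ℝ u x)
    (hi : IntegrableOn (fun x => dt (Fin.cons (grad u x) fun j => w j x)) (Icc a b)) :
    ∫ x in Icc a b, dt (Fin.cons (grad u x) fun j => w j x) =
      ∑ i : Fin (N + 1),
        ((∫ x in Icc (a ∘ i.succAbove) (b ∘ i.succAbove), u (i.insertNth (b i) x) *
            dt (Fin.cons (Pi.single i 1) fun j => w j (i.insertNth (b i) x))) -
          ∫ x in Icc (a ∘ i.succAbove) (b ∘ i.succAbove), u (i.insertNth (a i) x) *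
            dt (Fin.cons (Pi.single i 1) fun j => w j (i.insertNth (a i) x))) := by
  choose F hF hF' using fun (i : Fin (N + 1)) x => hasFDerivAt_cof hw (Pi.single i 1) x
  set f : Fin (N + 1) → (Fin (N + 1) → ℝ) → ℂ := fun i x =>
    u x * dt (Fin.cons (Pi.single i 1) fun j => w j x) with hf
  set f' : Fin (N + 1) → (Fin (N + 1) → ℝ) → (Fin (N + 1) → ℝ) →L[ℝ] ℂ := fun i x =>
    u x • F i x + dt (Fin.cons (Pi.single i 1) fun j => w j x) • fderiv ℝ u x with hf'
  have hd : ∀ i, ∀ x ∈ Icc a b, HasFDerivAt (f i) (f' i x) x := by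
    intro i x hx
    exact (hu x hx).hasFDerivAt.fun_mul (hF i x)
  have hsum : ∀ x, ∑ i, f' i x (Pi.single i 1) = dt (Fin.cons (grad u x) fun j => w j x) := by
    intro x
    rw [hf']
    simp only [_root_.add_apply, _root_.smul_apply, smul_eq_mul]
    rw [Finset.sum_add_distrib]
    have h1 : ∑ i, u x * (F i x) (Pi.single i 1) = 0 := by
      rw [← Finset.mul_sum]
      have h2 : ∑ i, (F i x) (Pi.single i 1) = 0 := by
        simp only [hF']
        rw [Finset.sum_comm]
        refine Finset.sum_eq_zero fun j _ => ?_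
        have h3 := alt_sym (bl (fun j => w j x) j) (bl_self _ _)
          (fun i : Fin (N + 1) => (Pi.single i 1 : Fin (N + 1) → ℂ))
          (fun i k => fderiv ℝ (w j) x (Pi.single i 1) k) ((hw j).symm x)
        rw [← h3]
        refine Finset.sum_congr rfl fun i _ => ?_
        rw [← vec_eq]
      rw [h2, mul_zero]
    rw [h1, zero_add]
    have h4 : ∀ v : Fin (N + 1) → ℂ, ∑ i, v i * dt (Fin.cons (Pi.single i 1) fun j => w j x) =
        dt (Fin.cons v fun j => w j x) := by
      intro v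
      set Lm : (Fin (N + 1) → ℂ) →ₗ[ℂ] ℂ :=
        { toFun := fun v => dt (Fin.cons v fun j => w j x)
          map_add' := fun _ _ => dt_cons_add _ _ _
          map_smul' := fun _ _ => dt_cons_smul _ _ _ } with hLm
      have h5 : dt (Fin.cons v fun j => w j x) = Lm v := rfl
      rw [h5]
      conv_rhs => rw [vec_eq v, map_sum]
      refine Finset.sum_congr rfl fun i _ => ?_
      rw [map_smul, smul_eq_mul]
      rfl
    rw [← h4 (grad u x)]
    refine Finset.sum_congr rfl fun i _ => ?_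
    rw [mul_comm]
    rfl
  have key := integral_divergence_of_hasFDerivAt_off_countable' a b hab f f' ∅ countable_empty
    (fun i x hx => (hd i x hx).continuousAt.continuousWithinAt)
    (fun x hx i => hd i x (by
      have h6 := hx.1
      rw [mem_univ_pi] at h6
      exact ⟨fun k => (h6 k).1.le, fun k => (h6 k).2.le⟩))
    (by simpa only [hsum] using hi)
  simp only [hsum] at key
  exact key

end stokes

end Pool.Agent.P8H1.PD
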