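import Pool.Agent.P8H1.PD.Defs
import Pool.Agent.P8H1.PD.Dif
import Pool.Agent.P8H1.PD.Stokes
set_option autoImplicit false

/-!
The regulator as an integral over a box of dimension `m + 1`.
-/

namespace Pool.Agent.P8H1.PD

open Set MeasureTheory Filter Topology Complex
open Pool.Agent.N65.TK (Pt D Five Mf tau hasDerivAt_Mf)
open Pool.Agent.W367.KT (eta)

section fubini

variable {m : ℕ}

/-- the box -/
def bx (m : ℕ) : Set (Fin (m + 1) → ℝ) := Icc (Fin.cons (-1) 0) 1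

theorem mem_bx {x : Fin (m + 1) → ℝ} : x ∈ bx m ↔ x 0 ∈ Icc (-1 : ℝ) 1 ∧
    (fun i => x (Fin.succ i)) ∈ Icc (0 : Fin m → ℝ) 1 := by
  unfold bx
  constructor
  · rintro ⟨h1, h2⟩
    exact ⟨⟨h1 0, h2 0⟩, fun i => h1 i.succ, fun i => h2 i.succ⟩
  · rintro ⟨⟨h1, h2⟩, h3, h4⟩
    refine ⟨fun i => ?_, fun i => ?_⟩
    · refine Fin.cases h1 (fun i => h3 i) i
    · refine Fin.cases h2 (fun i => h4 i) i

theorem fubini {F : (Fin (m + 1) → ℝ) → ℝ} (hF : Continuous F) :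
    ∫ t in Icc (0 : Fin m → ℝ) 1, ∫ τ in (-1 : ℝ)..1, F (Fin.cons τ t) = ∫ x in bx m, F x := by
  set e := MeasurableEquiv.piFinSuccAbove (fun _ : Fin (m + 1) => ℝ) 0 with he
  have hmp := volume_preserving_piFinSuccAbove (fun _ : Fin (m + 1) => ℝ) 0
  have hcc : Continuous fun p : ℝ × (Fin m → ℝ) => (Fin.cons p.1 p.2 : Fin (m + 1) → ℝ) := by
    refine continuous_pi fun i => ?_
    refine Fin.cases ?_ (fun i => ?_) i
    · exact continuous_fst
    · exact (continuous_apply i).comp continuous_snd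
  have h1 := hmp.setIntegral_preimage_emb e.measurableEmbedding
    (fun p : ℝ × (Fin m → ℝ) => F (Fin.cons p.1 p.2)) (Icc (-1 : ℝ) 1 ×ˢ Icc (0 : Fin m → ℝ) 1)
  have h2 : e ⁻¹' (Icc (-1 : ℝ) 1 ×ˢ Icc (0 : Fin m → ℝ) 1) = bx m := by
    ext x
    rw [mem_bx]
    rfl
  have h3 : ∀ x, F (Fin.cons (e x).1 (e x).2) = F x := by
    intro x
    congr 1
    funext i
    refine Fin.cases rfl (fun i => rfl) i
  rw [← he, h2] at h1
  simp only [h3] at h1
  rw [h1]
  have hint : IntegrableOn (fun p : ℝ × (Fin m → ℝ) => F (Fin.cons p.1 p.2))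
      (Icc (-1 : ℝ) 1 ×ˢ Icc (0 : Fin m → ℝ) 1) (volume.prod volume) :=
    (hF.comp hcc).continuousOn.integrableOn_compact (isCompact_Icc.prod isCompact_Icc)
  have h4 : ∫ p in Icc (-1 : ℝ) 1 ×ˢ Icc (0 : Fin m → ℝ) 1, F (Fin.cons p.1 p.2) =
      ∫ τ in Icc (-1 : ℝ) 1, ∫ t in Icc (0 : Fin m → ℝ) 1, F (Fin.cons τ t) :=
    setIntegral_prod _ hint
  rw [h4]
  have h5 : Integrable (Function.uncurry fun (τ : ℝ) (t : Fin m → ℝ) => F (Fin.cons τ t))
      ((volume.restrict (Icc (-1 : ℝ) 1)).prod (volume.restrict (Icc (0 : Fin m → ℝ) 1))) := by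
    rw [Measure.prod_restrict]
    exact hint
  rw [integral_integral_swap h5]
  refine setIntegral_congr_fun measurableSet_Icc fun t _ => ?_
  show _ = ∫ τ in Icc (-1 : ℝ) 1, F (Fin.cons τ t)
  rw [intervalIntegral.integral_of_le (by norm_num), integral_Icc_eq_integral_Ioc]

end fubini

section stokes

variable {m : ℕ}

/-- The divergence theorem on the box, with vanishing boundary terms. -/
theorem stokes_bx {w : Fin m → (Fin (m + 1) → ℝ) → Fin (m + 1) → ℂ}
    (hw : ∀ j, IsCl (w j)) (hwp : ∀ j x (k : Fin m), w j (x + Pi.single k.succ 1) = w j x)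
    {u : (Fin (m + 1) → ℝ) → ℂ} (hu : Differentiable ℝ u)
    (hup : ∀ x (k : Fin m), u (x + Pi.single k.succ 1) = u x)
    (h1 : ∀ x, x 0 = 1 → u x = 0) (h2 : ∀ x, x 0 = -1 → u x = 0)
    (hc : Continuous (grad u)) :
    ∫ x in bx m, dt (Fin.cons (grad u x) fun j => w j x) = 0 := by
  have hab : (Fin.cons (-1) 0 : Fin (m + 1) → ℝ) ≤ 1 := by
    intro i
    refine Fin.cases ?_ (fun i => ?_) i
    · show (-1 : ℝ) ≤ 1
      norm_num
    · show (0 : ℝ) ≤ 1
      norm_num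
  have hcont : ContinuousOn (fun x => dt (Fin.cons (grad u x) fun j => w j x)) (bx m) := by
    refine continuous_dt fun j => ?_
    refine Fin.cases ?_ (fun j => ?_) j
    · exact hc.continuousOn
    · exact (hw j).smooth.continuous.continuousOn
  unfold bx
  rw [stokes hab hw (fun x _ => hu x) (hcont.integrableOn_compact isCompact_Icc)]
  refine Finset.sum_eq_zero fun i _ => ?_
  refine Fin.cases ?_ (fun k => ?_) i
  · have e1 : ∀ x : Fin m → ℝ, u (Fin.insertNth 0 ((1 : Fin (m + 1) → ℝ) 0) x) = 0 := fun x =>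
      h1 _ rfl
    have e2 : ∀ x : Fin m → ℝ, u (Fin.insertNth 0 ((Fin.cons (-1) 0 : Fin (m + 1) → ℝ) 0) x) = 0 :=
      fun x => h2 _ rfl
    simp only [e1, e2, zero_mul, integral_zero, sub_zero]
  · have e1 : ∀ x : Fin m → ℝ, (Fin.insertNth k.succ ((1 : Fin (m + 1) → ℝ) k.succ) x :
        Fin (m + 1) → ℝ) = Fin.insertNth k.succ ((Fin.cons (-1) 0 : Fin (m + 1) → ℝ) k.succ) x +
          Pi.single k.succ 1 := by
      intro x
      funext l
      rw [Pi.add_apply]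
      refine Fin.succAboveCases k.succ ?_ (fun l => ?_) l
      · rw [Fin.insertNth_apply_same, Fin.insertNth_apply_same, Pi.single_eq_same]
        show (1 : ℝ) = 0 + 1
        norm_num
      · rw [Fin.insertNth_apply_succAbove, Fin.insertNth_apply_succAbove,
          Pi.single_eq_of_ne (Fin.succAbove_ne _ _), add_zero]
    simp only [e1, hup, hwp, sub_self]

end stokes

section lift

variable {A : Type*} [CommRing A] {m : ℕ} (γ : Tor A m)

theorem Tor.ne_zero (g : Aˣ) (t : Fin m → ℝ) : γ.e t g ≠ 0 := (g.isUnit.map (γ.e t)).ne_zero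

theorem Tor.co (f : Pt A) (t : Fin m → ℝ) : γ.e t f.co = 1 - γ.e t f.1 := by
  have : ((f.co : Aˣ) : A) = 1 - f.1 := rfl
  rw [this, map_sub, map_one]

theorem Tor.ne_one (f : Pt A) (t : Fin m → ℝ) : γ.e t f.1 ≠ 1 := by
  intro h
  have := γ.ne_zero f.co t
  rw [γ.co, h, sub_self] at this
  exact this rfl

/-- the tail -/
noncomputable def tl (m : ℕ) : (Fin (m + 1) → ℝ) →L[ℝ] (Fin m → ℝ) :=
  ContinuousLinearMap.pi fun i => ContinuousLinearMap.proj i.succ

theorem tl_apply (x : Fin (m + 1) → ℝ) (i : Fin m) : tl m x i = x i.succ := rfl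

theorem tl_cons (τ : ℝ) (t : Fin m → ℝ) : tl m (Fin.cons τ t) = t := rfl

theorem tl_zero (c : ℝ) : tl m (Pi.single 0 c) = 0 := by
  funext i
  rw [tl_apply, Pi.single_eq_of_ne (Fin.succ_ne_zero i)]
  rfl

theorem tl_succ (k : Fin m) (c : ℝ) : tl m (Pi.single k.succ c) = Pi.single k c := by
  funext i
  rw [tl_apply]
  by_cases h : i = k
  · subst h
    rw [Pi.single_eq_same, Pi.single_eq_same]
  · rw [Pi.single_eq_of_ne h, Pi.single_eq_of_ne fun h' => h (Fin.succ_injective _ h')]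

/-- the value of a unit as a function on the space of the parameters `(τ, t)` -/
noncomputable def Tor.G (g : Aˣ) (x : Fin (m + 1) → ℝ) : ℂ := γ.e (tl m x) g

theorem Tor.G_smooth (g : Aˣ) : ContDiff ℝ 2 (γ.G g) := (γ.smooth g).comp (tl m).contDiff

theorem Tor.G_ne (g : Aˣ) (x : Fin (m + 1) → ℝ) : γ.G g x ≠ 0 := γ.ne_zero g _

theorem Tor.G_ne_one (f : Pt A) (x : Fin (m + 1) → ℝ) : γ.G f.1 x ≠ 1 := γ.ne_one f _

theorem Tor.G_co (f : Pt A) (x : Fin (m + 1) → ℝ) : γ.G f.co x = 1 - γ.G f.1 x := γ.co f _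

theorem Tor.G_per (g : Aˣ) (x : Fin (m + 1) → ℝ) (k : Fin m) :
    γ.G g (x + Pi.single k.succ 1) = γ.G g x := by
  unfold Tor.G
  rw [map_add, tl_succ, γ.periodic]

theorem Tor.G_has (g : Aˣ) (x : Fin (m + 1) → ℝ) :
    HasFDerivAt (γ.G g) ((fderiv ℝ (fun t => γ.e t g) (tl m x)).comp (tl m)) x :=
  ((γ.smooth g).differentiable (by norm_num) (tl m x)).hasFDerivAt.comp x (tl m).hasFDerivAt

theorem Tor.G_has' (g : Aˣ) (x : Fin (m + 1) → ℝ) :
    HasFDerivAt (γ.G g) (fderiv ℝ (γ.G g) x) x :=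
  ((γ.G_smooth g).differentiable (by norm_num) x).hasFDerivAt

/-- the logarithmic gradient -/
noncomputable def Tor.ld (g : Aˣ) : (Fin (m + 1) → ℝ) → Fin (m + 1) → ℂ := lgrad (γ.G g)

theorem Tor.ld_zero (g : Aˣ) (x : Fin (m + 1) → ℝ) : γ.ld g x 0 = 0 := by
  unfold Tor.ld lgrad
  rw [(γ.G_has g x).fderiv, ContinuousLinearMap.comp_apply, tl_zero, map_zero, zero_div]

theorem Tor.ld_succ (g : Aˣ) (x : Fin (m + 1) → ℝ) (i : Fin m) :
    γ.ld g x i.succ = dl (fun s => γ.e s g) (tl m x) i := by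
  unfold Tor.ld lgrad dl
  rw [(γ.G_has g x).fderiv, ContinuousLinearMap.comp_apply, tl_succ]
  rfl

theorem Tor.ld_mul (g h : Aˣ) (x : Fin (m + 1) → ℝ) : γ.ld (g * h) x = γ.ld g x + γ.ld h x := by
  have h1 : γ.G (g * h) = fun y => γ.G g y * γ.G h y := by
    funext y
    unfold Tor.G
    rw [Units.val_mul, map_mul]
  funext i
  rw [Pi.add_apply]
  unfold Tor.ld lgrad
  rw [h1, ((γ.G_has' g x).fun_mul (γ.G_has' h x)).fderiv]
  simp only [_root_.add_apply, _root_.smul_apply, smul_eq_mul]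
  have := γ.G_ne g x
  have := γ.G_ne h x
  field_simp
  ring

theorem Tor.ld_per (g : Aˣ) (x : Fin (m + 1) → ℝ) (k : Fin m) :
    γ.ld g (x + Pi.single k.succ 1) = γ.ld g x := by
  funext i
  unfold Tor.ld lgrad
  rw [γ.G_per, ← fderiv_comp_add_right]
  simp only [γ.G_per]

theorem Tor.ld_cl (g : Aˣ) : IsCl (γ.ld g) := IsCl.lgrad (γ.G_smooth g) (γ.G_ne g)

theorem Tor.ld_co (f : Pt A) (x : Fin (m + 1) → ℝ) (i : Fin (m + 1)) :
    γ.ld f.co x i = -(γ.G f.1 x / (1 - γ.G f.1 x)) * γ.ld f.1 x i := by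
  have h1 : γ.G f.co = fun y => 1 - γ.G f.1 y := by
    funext y
    exact γ.G_co f y
  unfold Tor.ld lgrad
  rw [h1, ((γ.G_has' f.1 x).const_sub 1).fderiv]
  simp only [_root_.neg_apply]
  have := γ.G_ne f.1 x
  have h2 : 1 - γ.G f.1 x ≠ 0 := sub_ne_zero.2 (Ne.symm (γ.G_ne_one f x))
  field_simp

theorem Tor.ld_co' (f : Pt A) (x : Fin (m + 1) → ℝ) (i : Fin m) :
    γ.ld f.co x i.succ = dl (fun s => 1 - γ.e s f.1) (tl m x) i := by
  rw [γ.ld_succ]
  congr 1
  funext s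
  exact γ.co f s

/-- `log |g|` -/
noncomputable def Tor.ln (g : Aˣ) (x : Fin (m + 1) → ℝ) : ℝ := Real.log ‖γ.G g x‖

theorem Tor.ln_mul (g h : Aˣ) (x : Fin (m + 1) → ℝ) : γ.ln (g * h) x = γ.ln g x + γ.ln h x := by
  unfold Tor.ln Tor.G
  rw [Units.val_mul, map_mul, norm_mul, Real.log_mul (norm_ne_zero_iff.2 (γ.ne_zero _ _))
    (norm_ne_zero_iff.2 (γ.ne_zero _ _))]

theorem Tor.ln_per (g : Aˣ) (x : Fin (m + 1) → ℝ) (k : Fin m) :
    γ.ln g (x + Pi.single k.succ 1) = γ.ln g x := by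
  unfold Tor.ln
  rw [γ.G_per]

theorem Tor.ln_smooth (g : Aˣ) : ContDiff ℝ 2 (γ.ln g) := by
  have h1 : ContDiff ℝ 2 fun x => ‖γ.G g x‖ := (γ.G_smooth g).norm ℂ (γ.G_ne g)
  exact h1.log fun x => norm_ne_zero_iff.2 (γ.G_ne g x)

theorem Tor.ln_deriv (g : Aˣ) (x : Fin (m + 1) → ℝ) (i : Fin (m + 1)) :
    fderiv ℝ (γ.ln g) x (Pi.single i 1) = (γ.ld g x i).re :=
  (ln_comp (γ.G_has' g x) (γ.G_ne g x)).2 _

/-- the real part of the logarithmic gradient -/
noncomputable def Tor.lam (g : Aˣ) (x : Fin (m + 1) → ℝ) : Fin (m + 1) → ℂ :=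
  fun i => ((γ.ld g x i).re : ℂ)

/-- the imaginary part of the logarithmic gradient -/
noncomputable def Tor.ag (g : Aˣ) (x : Fin (m + 1) → ℝ) : Fin (m + 1) → ℂ :=
  fun i => ((γ.ld g x i).im : ℂ)

theorem Tor.lam_cl (g : Aˣ) : IsCl (γ.lam g) :=
  (γ.ld_cl g).map (Complex.ofRealCLM.comp Complex.reCLM)

theorem Tor.ag_cl (g : Aˣ) : IsCl (γ.ag g) :=
  (γ.ld_cl g).map (Complex.ofRealCLM.comp Complex.imCLM)

theorem Tor.lam_per (g : Aˣ) (x : Fin (m + 1) → ℝ) (k : Fin m) :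
    γ.lam g (x + Pi.single k.succ 1) = γ.lam g x := by
  unfold Tor.lam
  rw [γ.ld_per]

theorem Tor.ag_per (g : Aˣ) (x : Fin (m + 1) → ℝ) (k : Fin m) :
    γ.ag g (x + Pi.single k.succ 1) = γ.ag g x := by
  unfold Tor.ag
  rw [γ.ld_per]

/-- the first basis vector -/
noncomputable def E0 (m : ℕ) : Fin (m + 1) → ℂ := Pi.single 0 1

/-- the gradient of `arg g + √-1 τ log |g|` -/
noncomputable def Tor.W (g : Aˣ) (x : Fin (m + 1) → ℝ) : Fin (m + 1) → ℂ :=
  γ.ag g x + I • ((γ.ln g x : ℂ) • E0 m + (x 0 : ℂ) • γ.lam g x)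

theorem coord_deriv (x : Fin (m + 1) → ℝ) (i : Fin (m + 1)) :
    fderiv ℝ (fun y : Fin (m + 1) → ℝ => y 0) x (Pi.single i 1) = if i = 0 then 1 else 0 := by
  have h1 : HasFDerivAt (fun y : Fin (m + 1) → ℝ => y 0)
      (ContinuousLinearMap.proj (R := ℝ) (φ := fun _ : Fin (m + 1) => ℝ) 0) x :=
    hasFDerivAt_apply 0 x
  rw [h1.fderiv]
  show (Pi.single i 1 : Fin (m + 1) → ℝ) 0 = _
  rw [Pi.single_apply]
  simp only [eq_comm]

theorem Tor.W_cl (g : Aˣ) : IsCl (γ.W g) := by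
  have hs : ContDiff ℝ 2 fun y : Fin (m + 1) → ℝ => ((y 0 * γ.ln g y : ℝ) : ℂ) := by
    refine Complex.ofRealCLM.contDiff.comp (ContDiff.mul ?_ (γ.ln_smooth g))
    exact contDiff_apply ℝ ℝ 0
  have h1 := (γ.ag_cl g).add ((IsCl.grad hs).smul I)
  have h2 : (fun x => γ.ag g x + I • grad (fun y : Fin (m + 1) → ℝ => ((y 0 * γ.ln g y : ℝ) : ℂ)) x) =
      γ.W g := by
    funext x
    unfold Tor.W
    congr 2
    funext i
    have h3 : HasFDerivAt (fun y : Fin (m + 1) → ℝ => y 0)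
      (fderiv ℝ (fun y : Fin (m + 1) → ℝ => y 0) x) x :=
      ((hasFDerivAt_apply 0 x).differentiableAt).hasFDerivAt
    have h4 : HasFDerivAt (γ.ln g) (fderiv ℝ (γ.ln g) x) x :=
      ((γ.ln_smooth g).differentiable (by norm_num) x).hasFDerivAt
    have h5 := Complex.ofRealCLM.hasFDerivAt.comp x (h3.fun_mul h4)
    have h6 : grad (fun y : Fin (m + 1) → ℝ => ((y 0 * γ.ln g y : ℝ) : ℂ)) x i =
        ((x 0 * fderiv ℝ (γ.ln g) x (Pi.single i 1) +
          γ.ln g x * fderiv ℝ (fun y : Fin (m + 1) → ℝ => y 0) x (Pi.single i 1) : ℝ) : ℂ) := by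
      unfold grad
      have h7 : fderiv ℝ (fun y : Fin (m + 1) → ℝ => ((y 0 * γ.ln g y : ℝ) : ℂ)) x = _ := h5.fderiv
      rw [h7]
      rfl
    rw [h6, γ.ln_deriv, coord_deriv]
    simp only [Pi.add_apply, Pi.smul_apply, smul_eq_mul, E0, Tor.lam, Pi.single_apply]
    split_ifs <;> push_cast <;> ring
  rw [← h2]
  exact h1

theorem Tor.W_per (g : Aˣ) (x : Fin (m + 1) → ℝ) (k : Fin m) :
    γ.W g (x + Pi.single k.succ 1) = γ.W g x := by
  unfold Tor.W
  rw [γ.ag_per, γ.lam_per, γ.ln_per, Pi.add_apply, Pi.single_eq_of_ne (Fin.succ_ne_zero k).symm,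
    add_zero]

theorem Tor.W_mul (g h : Aˣ) (x : Fin (m + 1) → ℝ) : γ.W (g * h) x = γ.W g x + γ.W h x := by
  unfold Tor.W Tor.ag Tor.lam
  rw [γ.ld_mul, γ.ln_mul]
  funext i
  simp only [Pi.add_apply, Pi.smul_apply, smul_eq_mul, Complex.add_im, Complex.add_re]
  push_cast
  ring

/-- the first row -/
noncomputable def Tor.rw1 (f : Pt A) (x : Fin (m + 1) → ℝ) : Fin (m + 1) → ℂ :=
  (I * D (γ.G f.1 x)) • E0 m + ((1 - x 0 ^ 2) / 2 : ℂ) •
    ((γ.ln f.co x : ℂ) • γ.lam f.1 x - (γ.ln f.1 x : ℂ) • γ.lam f.co x)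

/-- the integrand -/
noncomputable def Tor.R (f : Pt A) (g : Fin m → Aˣ) (x : Fin (m + 1) → ℝ) : ℂ :=
  dt (Fin.cons (γ.rw1 f x) fun j => γ.W (g j) x)

theorem Tor.cont_D (f : Pt A) : Continuous fun x => D (γ.G f.1 x) := by
  rw [continuous_iff_continuousAt]
  intro x
  exact (D_comp (γ.G_has' f.1 x) (γ.G_ne _ _) (γ.G_ne_one _ _)).1.continuousAt

theorem Tor.cont_ln (g : Aˣ) : Continuous (γ.ln g) := (γ.ln_smooth g).continuous

theorem Tor.cont_rw1 (f : Pt A) : Continuous (γ.rw1 f) := by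
  have h1 := γ.cont_D f
  have h2 := γ.cont_ln f.1
  have h3 := γ.cont_ln f.co
  have h4 := (γ.lam_cl f.1).smooth.continuous
  have h5 := (γ.lam_cl f.co).smooth.continuous
  have h6 : Continuous fun x : Fin (m + 1) → ℝ => x 0 := continuous_apply 0
  unfold Tor.rw1
  fun_prop

theorem Tor.cont_R (f : Pt A) (g : Fin m → Aˣ) : Continuous (γ.R f g) := by
  rw [← continuousOn_univ]
  refine continuous_dt fun j => ?_
  refine Fin.cases ?_ (fun j => ?_) j
  · exact (γ.cont_rw1 f).continuousOn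
  · exact (γ.W_cl (g j)).smooth.continuous.continuousOn

theorem Tor.det_eq (f : Pt A) (g : Fin m → Aˣ) (τ : ℝ) (t : Fin m → ℝ) :
    (mat (fun s => γ.e s f.1) (fun j s => γ.e s (g j)) τ t).det.re =
      (γ.R f g (Fin.cons τ t)).im := by
  set M := mat (fun s => γ.e s f.1) (fun j s => γ.e s (g j)) τ t with hM
  set v : Fin (m + 1) → ℂ := Fin.cons I fun _ => 1 with hv
  have h1 : Matrix.det (Matrix.of fun i j => v j * M i j) = I * M.det := by
    rw [Matrix.det_mul_row, Fin.prod_univ_succ]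
    congr 1
    rw [hv]
    simp
  have h2 : γ.R f g (Fin.cons τ t) = Matrix.det (Matrix.of fun i j => v j * M i j) := by
    unfold Tor.R dt
    congr 1
    ext i j
    rw [Matrix.of_apply, Matrix.of_apply, hM, mat, Matrix.of_apply]
    refine Fin.cases ?_ (fun i => ?_) i
    · rw [Fin.cons_zero, Fin.cons_zero]
      unfold Tor.rw1
      refine Fin.cases ?_ (fun j => ?_) j
      · simp only [Pi.add_apply, Pi.sub_apply, Pi.smul_apply, smul_eq_mul, Tor.lam, γ.ld_zero, E0,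
          Pi.single_eq_same, hv, Fin.cons_zero, Complex.zero_re, Complex.ofReal_zero]
        unfold Tor.G
        rw [tl_cons]
        ring
      · simp only [Pi.add_apply, Pi.sub_apply, Pi.smul_apply, smul_eq_mul, Tor.lam, γ.ld_co',
          γ.ld_succ, E0, Pi.single_eq_of_ne (Fin.succ_ne_zero j), hv, Fin.cons_zero, Fin.cons_succ,
          Tor.ln, γ.G_co]
        unfold Tor.G
        rw [tl_cons]
        push_cast
        ring
    · rw [Fin.cons_succ, Fin.cons_succ]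
      unfold Tor.W
      refine Fin.cases ?_ (fun j => ?_) j
      · simp only [Pi.add_apply, Pi.smul_apply, smul_eq_mul, Tor.lam, Tor.ag, γ.ld_zero, E0,
          Pi.single_eq_same, hv, Fin.cons_zero, Complex.zero_re, Complex.zero_im,
          Complex.ofReal_zero, Tor.ln]
        unfold Tor.G
        rw [tl_cons]
        ring
      · simp only [Pi.add_apply, Pi.smul_apply, smul_eq_mul, Tor.lam, Tor.ag,
          γ.ld_succ, E0, Pi.single_eq_of_ne (Fin.succ_ne_zero j), hv, Fin.cons_zero, Fin.cons_succ]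
        rw [tl_cons]
        ring
  rw [h2, h1]
  simp

theorem Tor.reg_br (f : Pt A) (g : Fin m → Aˣ) :
    γ.reg (br f g) = 1 / 2 * (∫ x in bx m, γ.R f g x).im := by
  unfold Tor.reg br
  rw [Finsupp.linearCombination_single, one_smul]
  simp only []
  unfold frm
  simp only [γ.det_eq]
  rw [integral_const_mul, fubini (F := fun x => (γ.R f g x).im)
    (Complex.continuous_im.comp (γ.cont_R f g))]
  congr 1
  have hint : Integrable (γ.R f g) (volume.restrict (bx m)) :=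
    (γ.cont_R f g).continuousOn.integrableOn_compact isCompact_Icc
  exact Complex.imCLM.integral_comp_comm hint

end lift

end Pool.Agent.P8H1.PD
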