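import Pool.Agent.P8H1.PD.Crit
import Pool.Agent.P8H1.PD.Rel
import Pool.Agent.P8H1.PD.Res
set_option autoImplicit false

/-!
The predicates of the main theorem: unramified elements, elements detected by the regulator, and the
criteria.
-/

namespace Pool.Agent.P8H1.PD

open scoped WithZero
open Pool.Agent.N65.TK (Kap)

/-- The element `s` is unramified: for all fields `L` with a homomorphism `φ : A → L`, all discrete
valuations `v` of `L` and all uniformizers `π` the residue of `φ(s)` is in the subspace of
relations. -/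
def Unramified.{u, w} {A : Type u} [CommRing A] {m : ℕ} (s : FS A (m + 1)) : Prop :=
  ∀ (L : Type w) [Field L] (φ : A →+* L) (v : Valuation L ℤᵐ⁰) (π : Lˣ),
    v (π : L) = WithZero.exp (-1) → bnd v π (FS.map φ s) ∈ Rels (Kap v) m

/-- The family `γ` detects the element `s`: its regulator is zero on all relations and is a negative
number on `s`. -/
def Tor.Detects {A : Type*} [CommRing A] {m : ℕ} (γ : Tor A m) (s : FS A m) : Prop :=
  (∀ w ∈ Rels A m, γ.reg w = 0) ∧ γ.reg s < 0

variable {K : Type*} [Field K] {N r : ℕ}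

/-- The family `γ` lies over the embedding `σ` and on the compact torus: `|x_k| = 1`. -/
def Dat.Over (C : Dat K N r) (σ : K →+* ℂ) {m : ℕ} (γ : Tor C.Ring m) : Prop :=
  (∀ t a, γ.e t (C.cst a) = σ a) ∧ ∀ t k, ‖γ.e t (C.x k)‖ = 1

/-- The criteria: the `n_j = 2 p_j` are even and `μ = ∏_j (- m_j) ^ (p_j)`, or `b` is not in the group
generated by the `a_j`. -/
def Dat.Good (C : Dat K N r) : Prop :=
  (∃ p : Fin r → ℕ, (∀ j, C.n j = 2 * p j) ∧ C.c = ∏ j, (-C.ε j) ^ p j) ∨
    C.b ∉ AddSubgroup.closure (Set.range C.a)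

end Pool.Agent.P8H1.PD
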